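import Pool.Agent.Helper20.Tur.Embed
import Pool.Agent.Helper49.CopiesCritical

/-!
# From almost complete classes to a partition of all vertices
-/

open Finset Fintype Filter

namespace Pool.Agent.Helper20.Tur

open SimpleGraph Pool.Agent.Helper49.Copies

/-- The constant in `extend_classes`. -/
def KK (r m : ℕ) : ℝ := 2 * r + r * m * (2 * r + 1) + m

theorem KK_nonneg (r m : ℕ) : 0 ≤ KK r m := by
  unfold KK
  positivity

theorem extend_classes {V : Type} [Fintype V] [DecidableEq V] (G : SimpleGraph V)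
    [DecidableRel G.Adj] (r m : ℕ) (hr : 1 ≤ r) (Vc : Fin r → Finset V)
    (hdisj : ∀ i l, i ≠ l → Disjoint (Vc i) (Vc l)) (s : ℝ) (hs : 1 ≤ s)
    (hbad : (#(univ \ univ.biUnion Vc) : ℝ) ≤ s)
    (hin : ∀ i, ∀ w ∈ Vc i, (#{y ∈ Vc i | G.Adj w y} : ℝ) ≤ s)
    (hdeg : ∀ x, (1 - 1 / (r : ℝ)) * card V - s ≤ G.degree x)
    (hno : ∀ x, ∀ A : Fin r → Finset V, (∀ i, A i ⊆ Vc i) → (∀ i, #(A i) = m) →
      (∀ i l, i ≠ l → ∀ a ∈ A i, ∀ b ∈ A l, G.Adj a b) → (∀ i, ∀ a ∈ A i, G.Adj x a) → False)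
    (hbig : (2 * KK r m + 4 * r + 2) * s ≤ card V / r) :
    ∃ j : V → Fin r, (∀ i, ∀ w ∈ Vc i, j w = i) ∧
      (∀ x l, l ≠ j x → (#{y ∈ Vc l | ¬ G.Adj x y} : ℝ) ≤ KK r m * s) ∧
      (∀ x, (#{y ∈ Vc (j x) | G.Adj x y} : ℝ) ≤ KK r m * s) ∧
      (∀ l, (card V : ℝ) / r - 2 * r * s ≤ #(Vc l)) ∧
      ∀ i l, i ≠ l → ∀ w ∈ Vc i, (#{y ∈ Vc l | ¬ G.Adj w y} : ℝ) ≤ (2 * r + 1) * s := by
  classical
  set n : ℝ := (card V : ℝ) with hn
  have hrR : (1 : ℝ) ≤ r := by exact_mod_cast hr
  have hs0 : 0 ≤ s := by linarith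
  have hsumVc : ∑ i, #(Vc i) = #(univ.biUnion Vc) := by
    rw [Finset.card_biUnion]
    intro i _ l _ hil
    exact hdisj i l hil
  have hGdcard : (n : ℝ) - s ≤ #(univ.biUnion Vc) := by
    have h1 : #(univ \ univ.biUnion Vc) + #(univ.biUnion Vc) = card V := by
      rw [Finset.card_sdiff_add_card_eq_card (subset_univ _), Finset.card_univ]
    have h2 : (#(univ \ univ.biUnion Vc) : ℝ) + #(univ.biUnion Vc) = n := by
      rw [hn]; exact_mod_cast h1
    linarith
  have hn0 : 0 ≤ n := Nat.cast_nonneg _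
  -- a general count
  have hsplit : ∀ (x : V) (i : Fin r) (X : Finset V), Disjoint X (Vc i) →
      G.degree x + #{y ∈ Vc i | ¬ G.Adj x y} + #{y ∈ X | ¬ G.Adj x y} ≤ card V := by
    intro x i X hX
    rw [← card_neighborFinset_eq_degree, ← card_union_of_disjoint, ← card_union_of_disjoint]
    · exact card_le_univ _
    · rw [Finset.disjoint_left]
      intro w hw hw'
      rw [mem_filter] at hw'
      rw [mem_union, mem_neighborFinset, mem_filter] at hw
      rcases hw with hw | hw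
      · exact hw'.2 hw
      · exact (Finset.disjoint_left.1 hX) hw'.1 hw.1
    · rw [Finset.disjoint_left]
      intro w hw hw'
      rw [mem_neighborFinset] at hw
      rw [mem_filter] at hw'
      exact hw'.2 hw
  have hcompl : ∀ (x : V) (i : Fin r), (#{y ∈ Vc i | G.Adj x y} : ℝ) + #{y ∈ Vc i | ¬ G.Adj x y} =
      #(Vc i) := by
    intro x i
    exact_mod_cast Finset.card_filter_add_card_filter_not (s := Vc i) (fun y => G.Adj x y)
  have hdeg' : ∀ x, n - n / r - s ≤ G.degree x := by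
    intro x
    have h1 := hdeg x
    have h2 : (1 - 1 / (r : ℝ)) * n = n - n / r := by ring
    rw [h2] at h1
    exact h1
  -- upper bound for the classes
  have hVcup : ∀ i, (#(Vc i) : ℝ) ≤ n / r + 2 * s := by
    intro i
    rcases (Vc i).eq_empty_or_nonempty with h | ⟨w, hw⟩
    · rw [h]
      simp only [Finset.card_empty, Nat.cast_zero]
      positivity
    · have h1 := hsplit w i ∅ (Finset.disjoint_empty_left _)
      have h2 : (G.degree w : ℝ) + #{y ∈ Vc i | ¬ G.Adj w y} ≤ n := by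
        rw [hn]
        have : G.degree w + #{y ∈ Vc i | ¬ G.Adj w y} ≤ card V := by simpa using h1
        exact_mod_cast this
      have h3 := hdeg' w
      have h4 := hcompl w i
      have h5 := hin i w hw
      linarith
  -- lower bound for the classes
  have hVclow : ∀ i, n / r - (2 * r - 1) * s ≤ #(Vc i) := by
    intro i
    have h1 : #(Vc i) + ∑ l ∈ univ.erase i, #(Vc l) = #(univ.biUnion Vc) := by
      rw [Finset.add_sum_erase univ (fun l => #(Vc l)) (mem_univ i), hsumVc]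
    have h2 : ((∑ l ∈ univ.erase i, #(Vc l) : ℕ) : ℝ) ≤ (r - 1) * (n / r + 2 * s) := by
      push_cast
      have h3 : #(univ.erase i) = r - 1 := by
        rw [card_erase_of_mem (mem_univ _), Finset.card_univ, Fintype.card_fin]
      calc ∑ l ∈ univ.erase i, (#(Vc l) : ℝ) ≤ #(univ.erase i) • (n / r + 2 * s) :=
            Finset.sum_le_card_nsmul _ _ _ (fun l _ => hVcup l)
        _ = (r - 1) * (n / r + 2 * s) := by
            rw [h3, nsmul_eq_mul, Nat.cast_sub hr]; simp
    have h3 : (#(Vc i) : ℝ) + ((∑ l ∈ univ.erase i, #(Vc l) : ℕ) : ℝ) = #(univ.biUnion Vc) := by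
      exact_mod_cast h1
    have h4 : ((r : ℝ) - 1) * (n / r + 2 * s) = n - n / r + (r - 1) * (2 * s) := by
      field_simp
    rw [h4] at h2
    linarith
  -- missing neighbours of good vertices
  set M : ℕ := ⌊(2 * (r : ℝ) + 1) * s⌋₊ with hM
  have hMle : (M : ℝ) ≤ (2 * r + 1) * s := Nat.floor_le (by positivity)
  have hmissVc : ∀ i l, i ≠ l → ∀ w ∈ Vc i, #{x ∈ Vc l | ¬ G.Adj w x} ≤ M := by
    intro i l hil w hw
    apply Nat.le_floor
    have h1 := hsplit w i (Vc l) (hdisj l i hil.symm)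
    have h2 : (G.degree w : ℝ) + #{y ∈ Vc i | ¬ G.Adj w y} + #{x ∈ Vc l | ¬ G.Adj w x} ≤ n := by
      rw [hn]; exact_mod_cast h1
    have h3 := hdeg' w
    have h4 := hVclow i
    have h5 := hcompl w i
    have h6 := hin i w hw
    linarith
  set Λ : ℕ := r * m * M + m with hΛ
  have hΛle : (Λ : ℝ) ≤ (r * m * (2 * r + 1) + m) * s := by
    rw [hΛ]
    push_cast
    have : (r : ℝ) * m * M ≤ r * m * ((2 * r + 1) * s) :=
      mul_le_mul_of_nonneg_left hMle (by positivity)
    have h2 : (m : ℝ) ≤ m * s := le_mul_of_one_le_right (Nat.cast_nonneg _) hs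
    linarith
  have hKΛ : 2 * r * s + Λ ≤ KK r m * s := by
    unfold KK
    linarith
  -- every vertex has a class with few neighbours
  have hclass : ∀ x : V, ∃ i, #{y ∈ Vc i | G.Adj x y} < Λ := by
    intro x
    by_contra hcon
    push Not at hcon
    obtain ⟨A, hA1, hA2, hA3⟩ := greedy_multipartite G r m M
      (fun i => {y ∈ Vc i | G.Adj x y}) hcon (by
        intro i l hil w hw
        rw [mem_filter] at hw
        refine (card_le_card ?_).trans (hmissVc i l hil w hw.1)
        intro y hy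
        rw [mem_filter, mem_filter] at hy
        rw [mem_filter]
        exact ⟨hy.1.1, hy.2⟩)
    exact hno x A (fun i => (hA1 i).trans (filter_subset _ _)) hA2 hA3 (by
      intro i a ha
      have := hA1 i ha
      rw [mem_filter] at this
      exact this.2)
  choose j hj using hclass
  have hKs : 0 ≤ KK r m * s := mul_nonneg (KK_nonneg r m) hs0
  refine ⟨j, ?_, ?_, ?_, ?_, ?_⟩
  · intro i w hw
    by_contra hne
    have h1 := hj w
    have h2 := hmissVc i (j w) (Ne.symm hne) w hw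
    have h3 := hcompl w (j w)
    have h4 := hVclow (j w)
    have h5 : (#{y ∈ Vc (j w) | G.Adj w y} : ℝ) ≤ Λ := by exact_mod_cast h1.le
    have h6 : (#{y ∈ Vc (j w) | ¬ G.Adj w y} : ℝ) ≤ M := by exact_mod_cast h2
    have h7 : (0 : ℝ) ≤ r * s := by positivity
    nlinarith
  · intro x l hl
    have h1 := hsplit x (j x) (Vc l) (hdisj l (j x) hl)
    have h2 : (G.degree x : ℝ) + #{y ∈ Vc (j x) | ¬ G.Adj x y} + #{y ∈ Vc l | ¬ G.Adj x y} ≤ n := by
      rw [hn]; exact_mod_cast h1
    have h3 := hdeg' x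
    have h4 := hVclow (j x)
    have h5 := hcompl x (j x)
    have h6 : (#{y ∈ Vc (j x) | G.Adj x y} : ℝ) ≤ Λ := by exact_mod_cast (hj x).le
    linarith
  · intro x
    have h6 : (#{y ∈ Vc (j x) | G.Adj x y} : ℝ) ≤ Λ := by exact_mod_cast (hj x).le
    have h7 : (0 : ℝ) ≤ 2 * r * s := by positivity
    linarith
  · intro l
    have := hVclow l
    linarith
  · intro i l hil w hw
    have h1 : (#{y ∈ Vc l | ¬ G.Adj w y} : ℝ) ≤ M := by exact_mod_cast hmissVc i l hil w hw
    linarith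

end Pool.Agent.Helper20.Tur
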