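import Pool.Agent.Helper20.Tur.Struct2

/-!
# Finite configurations inside complete multipartite graphs
-/

open Finset Fintype Filter

namespace Pool.Agent.Helper20.Tur

open SimpleGraph Pool.Agent.Helper49.Copies

/-- The graph obtained from the complete `r`-partite graph on the classes `{s | c s = i}` together
with `N` new (typical) vertices in each class by replacing the graph between the old vertices by
`H`. -/
def extend {S : Type} {r : ℕ} (H : SimpleGraph S) (c : S → Fin r) (N : ℕ) :
    SimpleGraph (S ⊕ (Fin r × Fin N)) where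
  Adj u v := match u, v with
    | Sum.inl a, Sum.inl b => H.Adj a b
    | Sum.inl a, Sum.inr q => c a ≠ q.1
    | Sum.inr p, Sum.inl b => c b ≠ p.1
    | Sum.inr p, Sum.inr q => p.1 ≠ q.1
  symm := ⟨by
    intro u v h
    match u, v with
    | Sum.inl a, Sum.inl b => exact (show H.Adj a b from h).symm
    | Sum.inl a, Sum.inr q => exact h
    | Sum.inr p, Sum.inl b => exact h
    | Sum.inr p, Sum.inr q => exact Ne.symm h⟩
  loopless := ⟨by
    intro u h
    match u with
    | Sum.inl a => exact (show H.Adj a a from h).ne rfl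
    | Sum.inr p => exact h rfl⟩

theorem transfer {n r : ℕ} {S : Type} [Fintype S] (H : SimpleGraph S) (c : S → Fin r) (N : ℕ)
    (G : SimpleGraph (Fin n)) [DecidableRel G.Adj] (j : Fin n → Fin r) (M : ℕ)
    (hmiss : ∀ x l, l ≠ j x → #{y | j y = l ∧ ¬ G.Adj x y} ≤ M) (F : Finset (Fin n)) (g : S → Fin n)
    (hF : ∀ a, g a ∈ F)
    (hsize : ∀ l, r * N * M + N + card S * M + #F ≤ #{y | j y = l})
    (ginj : Function.Injective g) (gadj : ∀ a b, H.Adj a b → G.Adj (g a) (g b))
    (gj : ∀ a, j (g a) = c a) :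
    ∃ f : Copy (extend H c N) G, (∀ a, f (Sum.inl a) = g a) ∧ ∀ k, f (Sum.inr k) ∉ F := by
  classical
  set X : Fin r → Finset (Fin n) := fun l => {y | j y = l ∧ y ∉ F ∧ ∀ a, c a ≠ l → G.Adj (g a) y}
    with hX
  have hXcard : ∀ l, r * N * M + N ≤ #(X l) := by
    intro l
    have h1 : ({y | j y = l} : Finset (Fin n)) ⊆ X l ∪ (F ∪ (univ.filter (fun a : S => c a ≠ l)).biUnion
        (fun a => {y | j y = l ∧ ¬ G.Adj (g a) y})) := by
      intro y hy
      rw [mem_filter] at hy
      rw [mem_union, mem_union, mem_biUnion]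
      by_cases hyF : y ∈ F
      · exact Or.inr (Or.inl hyF)
      · by_cases h : ∀ a, c a ≠ l → G.Adj (g a) y
        · left
          rw [hX, mem_filter]
          exact ⟨mem_univ _, hy.2, hyF, h⟩
        · push Not at h
          obtain ⟨a, ha, ha'⟩ := h
          exact Or.inr (Or.inr ⟨a, by rw [mem_filter]; exact ⟨mem_univ _, ha⟩, by
            rw [mem_filter]; exact ⟨mem_univ _, hy.2, ha'⟩⟩)
    have h2 := (card_le_card h1).trans ((card_union_le _ _).trans (Nat.add_le_add_left
      ((card_union_le _ _).trans (Nat.add_le_add_left card_biUnion_le _)) _))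
    have h3 : ∑ a ∈ univ.filter (fun a : S => c a ≠ l), #{y | j y = l ∧ ¬ G.Adj (g a) y} ≤
        card S * M := by
      refine (Finset.sum_le_card_nsmul _ _ M ?_).trans ?_
      · intro a ha
        rw [mem_filter] at ha
        apply hmiss
        rw [gj]
        exact ha.2.symm
      · rw [smul_eq_mul]
        exact Nat.mul_le_mul_right _ (card_le_univ _)
    have h4 := hsize l
    omega
  obtain ⟨A, hA1, hA2, hA3⟩ := greedy_multipartite G r N M X hXcard (by
    intro i l hil v hv
    rw [hX, mem_filter] at hv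
    refine (card_le_card ?_).trans (hmiss v l (by rw [hv.2.1]; exact hil.symm))
    intro y hy
    rw [mem_filter, hX, mem_filter] at hy
    rw [mem_filter]
    exact ⟨mem_univ _, hy.1.2.1, hy.2⟩)
  have e : ∀ l, Nonempty (Fin N ↪ (A l)) := by
    intro l
    rw [Function.Embedding.nonempty_iff_card_le, Fintype.card_fin, Fintype.card_coe, hA2 l]
  have e := fun l => (e l).some
  have hmemX : ∀ l k, ((e l k : Fin n)) ∈ X l := fun l k => hA1 l (e l k).2
  have hX1 : ∀ l k, j (e l k : Fin n) = l := by
    intro l k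
    have := hmemX l k
    rw [hX, mem_filter] at this
    exact this.2.1
  have hX2 : ∀ l k, (e l k : Fin n) ∉ F := by
    intro l k
    have := hmemX l k
    rw [hX, mem_filter] at this
    exact this.2.2.1
  have hX3 : ∀ l k a, c a ≠ l → G.Adj (g a) (e l k : Fin n) := by
    intro l k a ha
    have := hmemX l k
    rw [hX, mem_filter] at this
    exact this.2.2.2 a ha
  refine ⟨⟨⟨fun u => match u with
    | Sum.inl a => g a
    | Sum.inr p => (e p.1 p.2 : Fin n), ?_⟩, ?_⟩, fun a => rfl, ?_⟩
  · intro u v h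
    match u, v with
    | Sum.inl a, Sum.inl b => exact gadj a b h
    | Sum.inl a, Sum.inr q => exact hX3 q.1 q.2 a h
    | Sum.inr p, Sum.inl b => exact (hX3 p.1 p.2 b h).symm
    | Sum.inr p, Sum.inr q => exact hA3 p.1 q.1 h _ (e p.1 p.2).2 _ (e q.1 q.2).2
  · intro u v h
    match u, v with
    | Sum.inl a, Sum.inl b => exact congrArg _ (ginj h)
    | Sum.inl a, Sum.inr q =>
      exfalso
      apply hX2 q.1 q.2
      have h' : g a = (e q.1 q.2 : Fin n) := h
      rw [← h']
      exact hF a
    | Sum.inr p, Sum.inl b =>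
      exfalso
      apply hX2 p.1 p.2
      have h' : (e p.1 p.2 : Fin n) = g b := h
      rw [h']
      exact hF b
    | Sum.inr p, Sum.inr q =>
      have h' : (e p.1 p.2 : Fin n) = (e q.1 q.2 : Fin n) := h
      have h1 : p.1 = q.1 := by
        rw [← hX1 p.1 p.2, h', hX1]
      obtain ⟨p1, p2⟩ := p
      obtain ⟨q1, q2⟩ := q
      simp only at h1 h'
      subst h1
      have h2 := (e p1).injective (Subtype.ext h')
      rw [h2]
  · intro k
    exact hX2 k.1 k.2

/-- If every way of distributing the vertices of `L` into `r` classes admits a copy of `L` which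
uses a typical vertex, then `A(n; L) → ∞`. -/
theorem tendsto_of_free_copy {W : Type} [Fintype W] (L : SimpleGraph W) (r : ℕ) (hr : 2 ≤ r)
    (hnc : ¬ L.Colorable r) (u₀ : W) (c₀ : W → Fin r)
    (hc₀ : ∀ a b, L.Adj a b → a ≠ u₀ → b ≠ u₀ → c₀ a ≠ c₀ b)
    (hR : ∀ c : W → Fin r, ∃ f : Copy L (extend L c (card W)), ∃ w, (f w).isRight) :
    Tendsto (fun n => minCopies n L) atTop atTop := by
  classical
  have hr1 : 1 ≤ r := by omega
  have hrR : (1 : ℝ) ≤ r := by exact_mod_cast hr1
  have hW : ∃ w, w ≠ u₀ := by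
    by_contra hcon
    push Not at hcon
    apply hnc
    exact ⟨Coloring.mk (fun _ => ⟨0, by omega⟩) (fun {a b} h => absurd ((hcon a).trans (hcon b).symm) h.ne)⟩
  have hcol : L.Colorable (r + 1) := by
    refine ⟨Coloring.mk (fun x => if x = u₀ then Fin.last r else (c₀ x).castSucc) ?_⟩
    intro a b hab h
    by_cases ha : a = u₀
    · have hb : b ≠ u₀ := fun hb => hab.ne (ha.trans hb.symm)
      rw [if_pos ha, if_neg hb] at h
      exact absurd h.symm (Fin.castSucc_lt_last _).ne
    · by_cases hb : b = u₀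
      · rw [if_neg ha, if_pos hb] at h
        exact absurd h (Fin.castSucc_lt_last _).ne
      · rw [if_neg ha, if_neg hb] at h
        exact hc₀ a b hab ha hb (Fin.castSucc_injective _ h)
  have hLne : L ≠ ⊥ := by
    rintro rfl
    apply hnc
    exact ⟨Coloring.mk (fun _ => ⟨0, by omega⟩) (fun {a b} h => by simp at h)⟩
  apply tendsto_minCopies_of L hLne
  intro d
  set m := card W with hm
  set lam : ℝ := 1 / (2 * r * (r * m + m + 1)) with hlam
  have hlam0 : 0 < lam := by positivity
  obtain ⟨η, hη, hstr⟩ := structure_lemma L r hr u₀ c₀ hc₀ hW lam hlam0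
  filter_upwards [minDegree_of_core L r hr1 hcol hnc η hη d, hstr d,
    eventually_ge_atTop (2 * r * (d + 2 * m))] with n hdeg hstr' hn G _ hG D hD hcore
  obtain ⟨j, hj1, -, hj3⟩ := hstr' G (hdeg G hG D hD hcore) D hD hcore
  obtain ⟨f₀⟩ := copy_of_extremal hG
  set F : Finset (Fin n) := D ∪ univ.image f₀ with hF
  have hFcard : #F ≤ d + m := by
    refine (card_union_le _ _).trans ?_
    have : #(univ.image f₀) ≤ m := by
      refine card_image_le.trans ?_
      rw [Finset.card_univ]
    omega
  obtain ⟨g, w, hw⟩ := hR (fun a => j (f₀ a))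
  have hn0 : (0 : ℝ) ≤ n := Nat.cast_nonneg _
  obtain ⟨h, -, hh⟩ := transfer L (fun a => j (f₀ a)) m G j ⌊lam * n⌋₊
    (fun x l hl => Nat.le_floor (hj1 x l hl)) F f₀
    (fun a => mem_union_right _ (mem_image_of_mem _ (mem_univ a))) (by
      intro l
      have h1 : ((r * m * ⌊lam * n⌋₊ + m + card W * ⌊lam * n⌋₊ + #F : ℕ) : ℝ) ≤ #{y | j y = l} := by
        refine le_trans ?_ (hj3 l)
        push_cast
        rw [← hm]
        have h2 : (⌊lam * n⌋₊ : ℝ) ≤ lam * n := Nat.floor_le (by positivity)
        have h3 : (#F : ℝ) ≤ d + m := by exact_mod_cast hFcard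
        have h4 : (r : ℝ) * m * ⌊lam * n⌋₊ ≤ r * m * (lam * n) :=
          mul_le_mul_of_nonneg_left h2 (by positivity)
        have h5 : (m : ℝ) * ⌊lam * n⌋₊ ≤ m * (lam * n) :=
          mul_le_mul_of_nonneg_left h2 (by positivity)
        have h6 : (r * m + m + 1 : ℝ) * (lam * n) = n / (2 * r) := by
          rw [hlam]
          field_simp
        have h7 : (d : ℝ) + 2 * m ≤ n / (2 * r) := by
          rw [le_div_iff₀ (by positivity)]
          have : (2 * r * (d + 2 * m) : ℝ) ≤ n := by exact_mod_cast hn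
          linarith
        have h8 : (1 / (r : ℝ)) * n = n / (2 * r) + n / (2 * r) := by
          field_simp
          ring
        have h9 : (1 / (r : ℝ) - lam) * n = (1 / (r : ℝ)) * n - lam * n := by ring
        rw [h9, h8]
        linarith
      exact_mod_cast h1) f₀.injective (fun a b hab => f₀.toHom.map_rel' hab) (fun a => rfl)
  have h1 := hcore (h.comp g) w
  obtain ⟨k, hk⟩ := Sum.isRight_iff.1 hw
  have h2 : (h.comp g) w = h (Sum.inr k) := by
    show h (g w) = h (Sum.inr k)
    rw [hk]
  rw [h2] at h1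
  exact hh k (mem_union_left _ h1)

end Pool.Agent.Helper20.Tur
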