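import Pool.Agent.Helper49.CopiesGirth

/-!
# Nearly regular graphs of large girth (Erdős–Sachs)
-/

open Finset Fintype Filter SimpleGraph Pool.Agent.Helper49.Copies

namespace Pool.Agent.Helper20.Tur

private theorem no_short_walk {V : Type} (G G₁ : SimpleGraph V) (ℓ : ℕ) (hle : G₁ ≤ G)
    (hG : ∀ m, 3 ≤ m → m ≤ ℓ → (cycleGraph m).Free G) (z w : V) (hzw : G.Adj z w)
    (hzw' : ¬ G₁.Adj z w) (q : G₁.Walk z w) : ℓ ≤ q.length + 1 := by
  classical
  by_contra hcon
  push Not at hcon
  have h1 := q.length_bypass_le
  set p := q.bypass with hp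
  have hpath : p.IsPath := q.bypass_isPath
  have hl0 : p.length ≠ 0 := by
    intro h
    exact hzw.ne (Walk.eq_of_length_eq_zero h)
  have hl1 : p.length ≠ 1 := by
    intro h
    exact hzw' (Walk.adj_of_length_eq_one h)
  have hpath' : (p.mapLe hle).IsPath := (Walk.mapLe_isPath hle).2 hpath
  have hcyc : (Walk.cons hzw.symm (p.mapLe hle)).IsCycle := by
    refine Path.cons_isCycle ⟨p.mapLe hle, hpath'⟩ hzw.symm ?_
    intro he
    simp only [Walk.edges_mapLe_eq_edges] at he
    have h2 := Walk.edges_subset_edgeSet p he
    rw [mem_edgeSet] at h2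
    exact hzw' h2.symm
  have hlen : (Walk.cons hzw.symm (p.mapLe hle)).length = p.length + 1 := by
    simp
  apply hG (p.length + 1) (by omega) (by omega)
  rw [cycleGraph_isContained_iff (by omega)]
  exact ⟨w, _, hcyc, hlen⟩

private theorem walk_transfer {V : Type} (G G₁ : SimpleGraph V) (ℓ : ℕ) (hle : G₁ ≤ G)
    (hG : ∀ m, 3 ≤ m → m ≤ ℓ → (cycleGraph m).Free G) (z w x : V) (hzw : G.Adj z w)
    (hzw' : ¬ G₁.Adj z w) (hx : ∀ p : G.Walk x w, ℓ ≤ p.length) :
    ∀ a b (p : (G₁ ⊔ edge x z).Walk a b), b = w → p.length < ℓ →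
      ∃ q : G₁.Walk a b, q.length = p.length := by
  intro a b p
  induction p with
  | nil => intro _ _; exact ⟨Walk.nil, rfl⟩
  | @cons a c b h p ih =>
    intro hb hlen
    rw [Walk.length_cons] at hlen
    obtain ⟨q, hq⟩ := ih hb (by omega)
    subst hb
    rw [sup_adj, edge_adj] at h
    rcases h with h | ⟨⟨h1, h2⟩ | ⟨h1, h2⟩, -⟩
    · exact ⟨Walk.cons h q, by rw [Walk.length_cons, Walk.length_cons, hq]⟩
    · exfalso
      subst h2
      have := no_short_walk G G₁ ℓ hle hG _ _ hzw hzw' q
      omega
    · exfalso
      subst h2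
      have := hx (q.mapLe hle)
      rw [Walk.length_mapLe] at this
      omega

/-- For every `k` and `ℓ` and all large `n` there is a graph on `n` vertices with maximum degree at
most `k`, without cycles of length at most `ℓ`, and with `⌊k n / 2⌋` edges. -/
theorem exists_girth_regular (ℓ k : ℕ) : ∀ᶠ n : ℕ in atTop, ∃ G : SimpleGraph (Fin n),
    ∃ _ : DecidableRel G.Adj, (∀ v, G.degree v ≤ k) ∧
    (∀ m, 3 ≤ m → m ≤ ℓ → (cycleGraph m).Free G) ∧ k * n / 2 ≤ #G.edgeFinset := by
  classical
  set B := (k + 1) ^ (ℓ + 1) with hB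
  filter_upwards [eventually_gt_atTop ((2 * B) * (k + 1))] with n hn
  let P : SimpleGraph (Fin n) → Prop := fun G => (∀ v, G.degree v ≤ k) ∧
    ∀ m, 3 ≤ m → m ≤ ℓ → (cycleGraph m).Free G
  have hne : (univ.filter P).Nonempty := by
    refine ⟨⊥, ?_⟩
    rw [mem_filter]
    refine ⟨mem_univ _, ?_, ?_⟩
    · intro v; simp
    · intro m hm3 _
      apply free_bot
      intro h
      have h1 : (cycleGraph m).Adj ⟨0, by omega⟩ ⟨1, by omega⟩ := by
        rw [cycleGraph_adj']
        right
        rw [Fin.sub_def]
        change (m - 0 + 1) % m = 1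
        rw [Nat.sub_zero, Nat.add_mod_left, Nat.mod_eq_of_lt (by omega)]
      rw [h] at h1
      exact h1
  obtain ⟨G, hG, hmax⟩ := exists_max_image (univ.filter P) (fun G => #G.edgeFinset) hne
  rw [mem_filter] at hG
  obtain ⟨-, hdeg, hcyc⟩ := hG
  refine ⟨G, inferInstance, hdeg, hcyc, ?_⟩
  by_contra hcon
  push Not at hcon
  have hsum := G.sum_degrees_eq_twice_card_edges
  have hdef : ∑ v : Fin n, (k - G.degree v) + 2 * #G.edgeFinset = n * k := by
    rw [← hsum, ← Finset.sum_add_distrib]
    rw [Finset.sum_congr rfl (fun v _ => Nat.sub_add_cancel (hdeg v))]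
    simp
  have hdef2 : 2 ≤ ∑ v : Fin n, (k - G.degree v) := by
    have h1 : n * k = k * n := mul_comm _ _
    omega
  -- two deficient vertices
  obtain ⟨x, y, hx, hy, hxy⟩ : ∃ x y, G.degree x < k ∧ G.degree y < k ∧
      (x = y → G.degree x + 2 ≤ k) := by
    obtain ⟨x, -, hx⟩ : ∃ x ∈ (univ : Finset (Fin n)), k - G.degree x ≠ 0 := by
      by_contra h
      push Not at h
      rw [Finset.sum_eq_zero h] at hdef2
      omega
    by_cases hx2 : G.degree x + 2 ≤ k
    · exact ⟨x, x, by omega, by omega, fun _ => hx2⟩
    · obtain ⟨y, hy, hy'⟩ : ∃ y ∈ (univ : Finset (Fin n)).erase x, k - G.degree y ≠ 0 := by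
        by_contra h
        push Not at h
        rw [← Finset.add_sum_erase _ _ (mem_univ x), Finset.sum_eq_zero h] at hdef2
        omega
      rw [mem_erase] at hy
      exact ⟨x, y, by omega, by omega, fun h => absurd h.symm hy.1⟩
  obtain ⟨Sx, hSx, hSx'⟩ := card_ball_le G k hdeg x (ℓ + 1)
  obtain ⟨Sy, hSy, hSy'⟩ := card_ball_le G k hdeg y (ℓ + 1)
  set S := Sx ∪ Sy with hS
  have hScard : #S ≤ 2 * B := by
    refine (card_union_le _ _).trans ?_
    omega
  set T := S.biUnion (fun a => insert a (G.neighborFinset a)) with hT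
  have hTcard : #T ≤ 2 * B * (k + 1) := by
    refine (card_biUnion_le_card_mul _ _ (k + 1) ?_).trans (Nat.mul_le_mul_right _ hScard)
    intro a _
    refine (card_insert_le _ _).trans ?_
    rw [card_neighborFinset_eq_degree]
    exact Nat.add_le_add_right (hdeg a) 1
  obtain ⟨z, hz⟩ : ∃ z, z ∉ T := by
    by_contra h
    push Not at h
    have : (univ : Finset (Fin n)) ⊆ T := fun a _ => h a
    have := card_le_card this
    rw [Finset.card_univ, Fintype.card_fin] at this
    omega
  have hzS : z ∉ S := fun h => hz (mem_biUnion.2 ⟨z, h, mem_insert_self _ _⟩)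
  have hzN : ∀ a, G.Adj a z → a ∉ S := by
    intro a ha haS
    apply hz
    rw [mem_biUnion]
    exact ⟨a, haS, mem_insert_of_mem (by rw [mem_neighborFinset]; exact ha)⟩
  have hfarx : ∀ b, b ∉ S → ∀ p : G.Walk x b, ℓ + 1 < p.length := by
    intro b hb p
    by_contra h
    exact hb (mem_union_left _ (hSx' b p (by omega)))
  have hfary : ∀ b, b ∉ S → ∀ p : G.Walk y b, ℓ + 1 < p.length := by
    intro b hb p
    by_contra h
    exact hb (mem_union_right _ (hSy' b p (by omega)))
  have hnex : ∀ b, b ∉ S → x ≠ b := by
    rintro b hb rfl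
    have := hfarx x hb Walk.nil
    simp at this
  have hney : ∀ b, b ∉ S → y ≠ b := by
    rintro b hb rfl
    have := hfary y hb Walk.nil
    simp at this
  have hnadjx : ∀ b, b ∉ S → ¬ G.Adj x b := by
    intro b hb h
    have := hfarx b hb (Walk.cons h Walk.nil)
    simp at this
  have hnadjy : ∀ b, b ∉ S → ¬ G.Adj y b := by
    intro b hb h
    have := hfary b hb (Walk.cons h Walk.nil)
    simp at this
  by_cases hzk : G.degree z < k
  · -- add the edge `xz`
    have hfree' := sup_edge_free G ℓ hcyc x z (fun p => by have := hfarx z hzS p; omega)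
    obtain ⟨G', hG'⟩ : ∃ G' : SimpleGraph (Fin n), G' = G ⊔ edge x z := ⟨_, rfl⟩
    rw [← hG'] at hfree'
    have hadj' : ∀ a b, G'.Adj a b ↔
        G.Adj a b ∨ ((a = x ∧ b = z ∨ a = z ∧ b = x) ∧ a ≠ b) := by
      intro a b
      rw [hG', sup_adj, edge_adj]
    have hP : P G' := by
      refine ⟨?_, hfree'⟩
      intro v
      have hxz := hnex z hzS
      by_cases hvx : v = x
      · have hsub : G'.neighborFinset v ⊆ insert z (G.neighborFinset v) := by
          intro b hb
          rw [mem_neighborFinset, hadj'] at hb
          rw [mem_insert, mem_neighborFinset]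
          rcases hb with hb | ⟨⟨-, h⟩ | ⟨h1, h2⟩, h3⟩
          · exact Or.inr hb
          · exact Or.inl h
          · exact absurd (h2.trans hvx.symm) h3.symm
        have h1 := card_le_card hsub
        have h2 := card_insert_le z (G.neighborFinset v)
        rw [card_neighborFinset_eq_degree] at h1 h2
        have h3 : G.degree v < k := by rw [hvx]; exact hx
        omega
      · by_cases hvz : v = z
        · have hsub : G'.neighborFinset v ⊆ insert x (G.neighborFinset v) := by
            intro b hb
            rw [mem_neighborFinset, hadj'] at hb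
            rw [mem_insert, mem_neighborFinset]
            rcases hb with hb | ⟨⟨h, -⟩ | ⟨-, h⟩, -⟩
            · exact Or.inr hb
            · exact absurd h hvx
            · exact Or.inl h
          have h1 := card_le_card hsub
          have h2 := card_insert_le x (G.neighborFinset v)
          rw [card_neighborFinset_eq_degree] at h1 h2
          have h3 : G.degree v < k := by rw [hvz]; exact hzk
          omega
        · have hsub : G'.neighborFinset v ⊆ G.neighborFinset v := by
            intro b hb
            rw [mem_neighborFinset, hadj'] at hb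
            rw [mem_neighborFinset]
            rcases hb with hb | ⟨⟨h, -⟩ | ⟨h, -⟩, -⟩
            · exact hb
            · exact absurd h hvx
            · exact absurd h hvz
          have h1 := card_le_card hsub
          rw [card_neighborFinset_eq_degree, card_neighborFinset_eq_degree] at h1
          exact h1.trans (hdeg v)
    have h1 := hmax G' (by rw [mem_filter]; exact ⟨mem_univ _, hP⟩)
    have h2 : #G.edgeFinset < #G'.edgeFinset := by
      apply card_lt_card
      rw [edgeFinset_ssubset_edgeFinset]
      refine lt_of_le_of_ne (fun a b hab => (hadj' a b).2 (Or.inl hab)) ?_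
      intro heq
      apply hnadjx z hzS
      rw [heq, hadj']
      exact Or.inr ⟨Or.inl ⟨rfl, rfl⟩, hnex z hzS⟩
    omega
  · -- switching
    have hk0 : 0 < k := by omega
    have hzpos : 0 < G.degree z := by omega
    obtain ⟨w, hw⟩ := (G.degree_pos_iff_exists_adj z).1 hzpos
    have hwS : w ∉ S := hzN w hw.symm
    obtain ⟨G₁, hG₁⟩ : ∃ G₁, G₁ = G.deleteEdges {s(z, w)} := ⟨_, rfl⟩
    have hadj₁ : ∀ a b, G₁.Adj a b ↔ G.Adj a b ∧ s(a, b) ≠ s(z, w) := by
      intro a b
      rw [hG₁, deleteEdges_adj, Set.mem_singleton_iff]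
    have hle₁ : G₁ ≤ G := by
      intro a b hab
      exact ((hadj₁ a b).1 hab).1
    have hzw₁ : ¬ G₁.Adj z w := by
      rw [hadj₁]
      simp
    have hcyc₁ : ∀ m, 3 ≤ m → m ≤ ℓ → (cycleGraph m).Free G₁ := by
      intro m h3 hℓ
      intro h
      exact hcyc m h3 hℓ (h.trans (IsContained.of_le hle₁))
    have hcyc₂ := sup_edge_free G₁ ℓ hcyc₁ x z (fun p => by
      have := hfarx z hzS (p.mapLe hle₁)
      rw [Walk.length_mapLe] at this
      omega)
    have hcyc₃ := sup_edge_free (G₁ ⊔ edge x z) ℓ hcyc₂ y w (fun p => by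
      by_contra hcon
      push Not at hcon
      obtain ⟨q, hq⟩ := walk_transfer G G₁ ℓ hle₁ hcyc z w x hw hzw₁ (fun p => by
        have := hfarx w hwS p
        omega) _ _ p rfl hcon
      have := hfary w hwS (q.mapLe hle₁)
      rw [Walk.length_mapLe] at this
      omega)
    obtain ⟨G₃, hG₃⟩ : ∃ G₃, G₃ = (G₁ ⊔ edge x z) ⊔ edge y w := ⟨_, rfl⟩
    rw [← hG₃] at hcyc₃
    have hadj₃ : ∀ a b, G₃.Adj a b ↔ (G.Adj a b ∧ s(a, b) ≠ s(z, w)) ∨
        ((a = x ∧ b = z ∨ a = z ∧ b = x) ∧ a ≠ b) ∨ ((a = y ∧ b = w ∨ a = w ∧ b = y) ∧ a ≠ b) := by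
      intro a b
      rw [hG₃, sup_adj, sup_adj, edge_adj, edge_adj, hadj₁, or_assoc]
    have hxz := hnex z hzS
    have hxw := hnex w hwS
    have hyz := hney z hzS
    have hyw := hney w hwS
    have hzw := hw.ne
    have hdeg₃ : ∀ v, G₃.degree v ≤ k := by
      intro v
      rw [← card_neighborFinset_eq_degree]
      by_cases hvz : v = z
      · have hsub : G₃.neighborFinset v ⊆ insert x ((G.neighborFinset z).erase w) := by
          intro b hb
          rw [mem_neighborFinset, hadj₃, hvz] at hb
          rw [mem_insert, mem_erase, mem_neighborFinset]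
          rcases hb with ⟨h1, h2⟩ | ⟨⟨h1, -⟩ | ⟨-, h1⟩, -⟩ | ⟨⟨h1, -⟩ | ⟨h1, -⟩, -⟩
          · refine Or.inr ⟨?_, h1⟩
            rintro rfl
            exact h2 rfl
          · exact absurd h1.symm hxz
          · exact Or.inl h1
          · exact absurd h1.symm hyz
          · exact absurd h1 hzw
        refine (card_le_card hsub).trans ((card_insert_le _ _).trans ?_)
        rw [card_erase_of_mem (by rw [mem_neighborFinset]; exact hw), card_neighborFinset_eq_degree]
        have := hdeg z
        omega
      · by_cases hvw : v = w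
        · have hsub : G₃.neighborFinset v ⊆ insert y ((G.neighborFinset w).erase z) := by
            intro b hb
            rw [mem_neighborFinset, hadj₃, hvw] at hb
            rw [mem_insert, mem_erase, mem_neighborFinset]
            rcases hb with ⟨h1, h2⟩ | ⟨⟨h1, -⟩ | ⟨h1, -⟩, -⟩ | ⟨⟨h1, -⟩ | ⟨-, h1⟩, -⟩
            · refine Or.inr ⟨?_, h1⟩
              rintro rfl
              exact h2 Sym2.eq_swap
            · exact absurd h1.symm hxw
            · exact absurd h1.symm hzw
            · exact absurd h1.symm hyw
            · exact Or.inl h1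
          refine (card_le_card hsub).trans ((card_insert_le _ _).trans ?_)
          rw [card_erase_of_mem (by rw [mem_neighborFinset]; exact hw.symm),
            card_neighborFinset_eq_degree]
          have h1 := hdeg w
          have h2 : 0 < G.degree w := (G.degree_pos_iff_exists_adj w).2 ⟨z, hw.symm⟩
          omega
        · by_cases hvx : v = x
          · by_cases hxy' : x = y
            · have hsub : G₃.neighborFinset v ⊆ insert z (insert w (G.neighborFinset x)) := by
                intro b hb
                rw [mem_neighborFinset, hadj₃, hvx] at hb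
                rw [mem_insert, mem_insert, mem_neighborFinset]
                rcases hb with ⟨h1, h2⟩ | ⟨⟨-, h1⟩ | ⟨h1, -⟩, -⟩ | ⟨⟨-, h1⟩ | ⟨h1, -⟩, -⟩
                · exact Or.inr (Or.inr h1)
                · exact Or.inl h1
                · exact absurd h1 hxz
                · exact Or.inr (Or.inl h1)
                · exact absurd h1 hxw
              have h1 := (card_le_card hsub).trans ((card_insert_le _ _).trans
                (Nat.add_le_add_right (card_insert_le _ _) 1))
              rw [G.card_neighborFinset_eq_degree x] at h1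
              have := hxy hxy'
              omega
            · have hsub : G₃.neighborFinset v ⊆ insert z (G.neighborFinset x) := by
                intro b hb
                rw [mem_neighborFinset, hadj₃, hvx] at hb
                rw [mem_insert, mem_neighborFinset]
                rcases hb with ⟨h1, h2⟩ | ⟨⟨-, h1⟩ | ⟨h1, -⟩, -⟩ | ⟨⟨h1, -⟩ | ⟨h1, -⟩, -⟩
                · exact Or.inr h1
                · exact Or.inl h1
                · exact absurd h1 hxz
                · exact absurd h1 hxy'
                · exact absurd h1 hxw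
              have h1 := (card_le_card hsub).trans (card_insert_le _ _)
              rw [G.card_neighborFinset_eq_degree x] at h1
              omega
          · by_cases hvy : v = y
            · have hsub : G₃.neighborFinset v ⊆ insert w (G.neighborFinset y) := by
                intro b hb
                rw [mem_neighborFinset, hadj₃, hvy] at hb
                rw [mem_insert, mem_neighborFinset]
                rcases hb with ⟨h1, h2⟩ | ⟨⟨h1, -⟩ | ⟨h1, -⟩, -⟩ | ⟨⟨-, h1⟩ | ⟨h1, -⟩, -⟩
                · exact Or.inr h1
                · exact absurd (hvy.trans h1) hvx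
                · exact absurd h1 hyz
                · exact Or.inl h1
                · exact absurd h1 hyw
              have h1 := (card_le_card hsub).trans (card_insert_le _ _)
              rw [G.card_neighborFinset_eq_degree y] at h1
              omega
            · have hsub : G₃.neighborFinset v ⊆ G.neighborFinset v := by
                intro b hb
                rw [mem_neighborFinset, hadj₃] at hb
                rw [mem_neighborFinset]
                rcases hb with ⟨h1, h2⟩ | ⟨⟨h1, -⟩ | ⟨h1, -⟩, -⟩ | ⟨⟨h1, -⟩ | ⟨h1, -⟩, -⟩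
                · exact h1
                · exact absurd h1 hvx
                · exact absurd h1 hvz
                · exact absurd h1 hvy
                · exact absurd h1 hvw
              have h1 := card_le_card hsub
              rw [G.card_neighborFinset_eq_degree v] at h1
              exact h1.trans (hdeg v)
    have h1 := hmax G₃ (by rw [mem_filter]; exact ⟨mem_univ _, hdeg₃, hcyc₃⟩)
    have h2 : insert s(x, z) (insert s(y, w) (G.edgeFinset.erase s(z, w))) ⊆ G₃.edgeFinset := by
      intro e he
      rw [mem_insert, mem_insert, mem_erase] at he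
      rw [mem_edgeFinset]
      rcases he with rfl | rfl | ⟨h3, h4⟩
      · rw [mem_edgeSet, hadj₃]
        exact Or.inr (Or.inl ⟨Or.inl ⟨rfl, rfl⟩, hxz⟩)
      · rw [mem_edgeSet, hadj₃]
        exact Or.inr (Or.inr ⟨Or.inl ⟨rfl, rfl⟩, hyw⟩)
      · induction e using Sym2.ind with
        | _ a b =>
          rw [mem_edgeFinset, mem_edgeSet] at h4
          rw [mem_edgeSet, hadj₃]
          exact Or.inl ⟨h4, h3⟩
    have h3 := card_le_card h2
    rw [card_insert_of_notMem, card_insert_of_notMem, card_erase_of_mem] at h3
    · have h4 : 0 < #G.edgeFinset := card_pos.2 ⟨s(z, w), by rw [mem_edgeFinset, mem_edgeSet]; exact hw⟩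
      omega
    · rw [mem_edgeFinset, mem_edgeSet]
      exact hw
    · rw [mem_erase, mem_edgeFinset, mem_edgeSet]
      exact fun h => hnadjy w hwS h.2
    · rw [mem_insert, mem_erase, mem_edgeFinset, mem_edgeSet]
      rintro (h | h)
      · rw [Sym2.eq_iff] at h
        rcases h with ⟨-, h⟩ | ⟨h, -⟩
        · exact hzw h
        · exact hxw h
      · exact hnadjx z hzS h.2

end Pool.Agent.Helper20.Tur
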