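import Pool.Agent.Helper49.CopiesBound

/-!
# Complete multipartite graphs with graphs inside the classes
-/

open Finset Fintype Filter SimpleGraph Pool.Agent.Helper49.Copies

namespace Pool.Agent.Helper20.Tur

/-- The complete multipartite graph with classes given by `j`, together with the edges of `I`
inside the classes. -/
def joinGraph {V : Type} {r : ℕ} (j : V → Fin r) (I : SimpleGraph V) : SimpleGraph V where
  Adj x y := j x ≠ j y ∨ I.Adj x y
  symm := ⟨by
    rintro x y (h | h)
    · exact Or.inl h.symm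
    · exact Or.inr h.symm⟩
  loopless := ⟨by
    rintro x (h | h)
    · exact h rfl
    · exact h.ne rfl⟩

/-- Twice the number of edges, class by class. -/
theorem two_mul_card_edges_class {V : Type} [Fintype V] [DecidableEq V] {r : ℕ} (j : V → Fin r)
    (G : SimpleGraph V) [DecidableRel G.Adj] :
    2 * #G.edgeFinset = ∑ l, (dsum G {y | j y = l} {y | j y ≠ l} +
      2 * #(G.induce (({y | j y = l} : Finset V) : Set V)).edgeFinset) := by
  classical
  rw [two_mul_card_edges]
  have h1 : dsum G univ univ = ∑ l, dsum G {y | j y = l} univ := by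
    unfold dsum
    exact (Finset.sum_fiberwise (univ : Finset V) j (fun v => #{w ∈ univ | G.Adj v w})).symm
  rw [h1]
  apply Finset.sum_congr rfl
  intro l _
  rw [← dsum_self_eq]
  have h2 : univ.filter (fun y => j y ≠ l) ∪ univ.filter (fun y => j y = l) =
      (univ : Finset V) := by
    ext y
    simp only [mem_univ, mem_union, mem_filter, true_and, iff_true]
    exact (em (j y = l)).symm
  have h3 : Disjoint (univ.filter (fun y => j y ≠ l)) (univ.filter (fun y => j y = l)) := by
    rw [Finset.disjoint_left]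
    intro y hy hy'
    rw [mem_filter] at hy hy'
    exact hy.2 hy'.2
  have h4 := dsum_union_right G (univ.filter (fun y => j y = l)) _ _ h3
  rw [h2] at h4
  exact h4

theorem dsum_class_le {V : Type} [Fintype V] [DecidableEq V] {r : ℕ} (j : V → Fin r)
    (G : SimpleGraph V) [DecidableRel G.Adj] (I : SimpleGraph V)
    [DecidableRel (joinGraph j I).Adj] (l : Fin r) :
    dsum G {y | j y = l} {y | j y ≠ l} ≤ dsum (joinGraph j I) {y | j y = l} {y | j y ≠ l} := by
  classical
  unfold dsum
  apply Finset.sum_le_sum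
  intro v hv
  apply card_le_card
  intro w hw
  rw [mem_filter, mem_filter] at hw
  rw [mem_filter] at hv
  rw [mem_filter, mem_filter]
  exact ⟨hw.1, Or.inl (by rw [hv.2]; exact hw.1.2.symm)⟩

/-- If each class of `G` contains at most as many edges as the corresponding class of
`joinGraph j I`, then `G` has at most as many edges as `joinGraph j I`. -/
theorem card_edges_le_join {V : Type} [Fintype V] [DecidableEq V] {r : ℕ} (j : V → Fin r)
    (G : SimpleGraph V) [DecidableRel G.Adj] (I : SimpleGraph V)
    [DecidableRel (joinGraph j I).Adj]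
    (h : ∀ l, #(G.induce (({y | j y = l} : Finset V) : Set V)).edgeFinset ≤
      #((joinGraph j I).induce (({y | j y = l} : Finset V) : Set V)).edgeFinset) :
    #G.edgeFinset ≤ #(joinGraph j I).edgeFinset := by
  have h1 := two_mul_card_edges_class j G
  have h2 := two_mul_card_edges_class j (joinGraph j I)
  have h3 : ∑ l, (dsum G {y | j y = l} {y | j y ≠ l} +
      2 * #(G.induce (({y | j y = l} : Finset V) : Set V)).edgeFinset) ≤
      ∑ l, (dsum (joinGraph j I) {y | j y = l} {y | j y ≠ l} +
      2 * #((joinGraph j I).induce (({y | j y = l} : Finset V) : Set V)).edgeFinset) := by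
    apply Finset.sum_le_sum
    intro l _
    have := h l
    have := dsum_class_le j G I l
    omega
  omega

/-- Choose a graph in each class. -/
theorem exists_inner {V : Type} [Fintype V] [DecidableEq V] {r : ℕ} (j : V → Fin r)
    (Γ : ∀ l : Fin r, SimpleGraph (Fin #({y | j y = l} : Finset V))) :
    ∃ I : SimpleGraph V, ∃ e : ∀ l : Fin r, V → Fin #({y | j y = l} : Finset V) → Prop,
      (∀ l a, ∃ x, j x = l ∧ e l x a) ∧ (∀ l x, j x = l → ∃ a, e l x a) ∧
      (∀ l x y a, e l x a → e l y a → x = y) ∧ (∀ l x a b, e l x a → e l x b → a = b) ∧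
      (∀ x y, I.Adj x y → ∃ l a b, j x = l ∧ j y = l ∧ e l x a ∧ e l y b ∧ (Γ l).Adj a b) ∧
      (∀ l x y a b, j x = l → j y = l → e l x a → e l y b → (Γ l).Adj a b → I.Adj x y) := by
  classical
  let E : ∀ l : Fin r, ({y | j y = l} : Finset V) ≃ Fin #({y | j y = l} : Finset V) :=
    fun l => ({y | j y = l} : Finset V).equivFin
  let e : ∀ l : Fin r, V → Fin #({y | j y = l} : Finset V) → Prop :=
    fun l x a => ((E l).symm a : V) = x
  have he1 : ∀ l a, ∃ x, j x = l ∧ e l x a := by
    intro l a
    refine ⟨(E l).symm a, ?_, rfl⟩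
    have := ((E l).symm a).2
    rw [mem_filter] at this
    exact this.2
  have he2 : ∀ l x, j x = l → ∃ a, e l x a := by
    intro l x hx
    refine ⟨E l ⟨x, by rw [mem_filter]; exact ⟨mem_univ _, hx⟩⟩, ?_⟩
    show (((E l).symm _ : ({y | j y = l} : Finset V)) : V) = x
    rw [Equiv.symm_apply_apply]
  have he3 : ∀ l x y a, e l x a → e l y a → x = y := fun l x y a h1 h2 => h1.symm.trans h2
  have he4 : ∀ l x a b, e l x a → e l x b → a = b := fun l x a b h1 h2 =>
    (E l).symm.injective (Subtype.ext (h1.trans h2.symm))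
  refine ⟨⟨fun x y => ∃ l a b, j x = l ∧ j y = l ∧ e l x a ∧ e l y b ∧ (Γ l).Adj a b, ⟨?_⟩, ⟨?_⟩⟩,
    e, he1, he2, he3, he4, fun x y h => h, fun l x y a b h1 h2 h3 h4 h5 =>
      ⟨l, a, b, h1, h2, h3, h4, h5⟩⟩
  · rintro x y ⟨l, a, b, h1, h2, h3, h4, h5⟩
    exact ⟨l, b, a, h2, h1, h4, h3, h5.symm⟩
  · rintro x ⟨l, a, b, h1, h2, h3, h4, h5⟩
    exact h5.ne (he4 l x a b h3 h4)

end Pool.Agent.Helper20.Tur
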