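import Pool.Agent.Helper20.Tur.Inner
import Pool.Agent.Helper20.Tur.Join
import Pool.Agent.Helper20.Tur.Girth

/-!
# Graphs none of whose sparse distributions has acyclic classes
-/

open Finset Fintype Filter SimpleGraph Pool.Agent.Helper49.Copies

namespace Pool.Agent.Helper20.Tur

theorem join_free {V W : Type} [Fintype V] [DecidableEq V] [Fintype W] [DecidableEq W]
    (L : SimpleGraph W) [DecidableRel L.Adj] {r k : ℕ} (j : V → Fin r)
    (Γ : ∀ l : Fin r, SimpleGraph (Fin #({y | j y = l} : Finset V))) [∀ l, DecidableRel (Γ l).Adj]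
    (hΓ : ∀ l a, (Γ l).degree a ≤ k)
    (hΓ' : ∀ l m, 3 ≤ m → m ≤ card W → (cycleGraph m).Free (Γ l))
    (I : SimpleGraph V) (e : ∀ l : Fin r, V → Fin #({y | j y = l} : Finset V) → Prop)
    (he2 : ∀ l x, j x = l → ∃ a, e l x a)
    (he3 : ∀ l x y a, e l x a → e l y a → x = y)
    (he4 : ∀ l x a b, e l x a → e l x b → a = b)
    (hI : ∀ x y, I.Adj x y → ∃ l a b, j x = l ∧ j y = l ∧ e l x a ∧ e l y b ∧ (Γ l).Adj a b)
    (h : ∀ c : W → Fin r, (∀ i, (L.induce {w | c w = i}).IsAcyclic) →
      ∃ w, k + 1 ≤ #{v | L.Adj w v ∧ c v = c w}) : L.Free (joinGraph j I) := by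
  classical
  rintro ⟨f⟩
  have hch : ∀ l, ∀ w : {w | j (f w) = l}, ∃ a, e l (f w) a := fun l w => he2 l _ w.2
  choose φ hφ using hch
  have hadj : ∀ l (w w' : {w | j (f w) = l}), L.Adj (w : W) w' → (Γ l).Adj (φ l w) (φ l w') := by
    intro l w w' hww
    have h1 : (joinGraph j I).Adj (f w) (f w') := f.toHom.map_rel' hww
    rcases h1 with h1 | h1
    · exact absurd ((show j (f w) = l from w.2).trans (show j (f w') = l from w'.2).symm) h1
    · obtain ⟨l', a, b, h2, h3, h4, h5, h6⟩ := hI _ _ h1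
      have h7 : l' = l := h2.symm.trans w.2
      subst h7
      rw [he4 _ _ _ _ (hφ _ w) h4, he4 _ _ _ _ (hφ _ w') h5]
      exact h6
  have hinj : ∀ l (w w' : {w | j (f w) = l}), φ l w = φ l w' → w = w' := by
    intro l w w' hww
    have h1 := hφ l w
    rw [hww] at h1
    exact Subtype.ext (f.injective (he3 l _ _ _ h1 (hφ l w')))
  obtain ⟨w, hw⟩ := h (fun w => j (f w)) (by
    intro l
    rw [isAcyclic_iff_free_cycleGraph]
    rintro m hm ⟨g⟩
    have hcard : m ≤ card W := by
      have h1 := Fintype.card_le_of_injective _ g.injective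
      rw [Fintype.card_fin] at h1
      exact h1.trans (Fintype.card_subtype_le _)
    apply hΓ' l m hm hcard
    exact ⟨(⟨⟨φ l, fun {a b} hab => hadj l a b hab⟩, fun a b hab => hinj l a b hab⟩ :
      Copy (L.induce {w | j (f w) = l}) (Γ l)).comp g⟩)
  have h1 : #{v | L.Adj w v ∧ j (f v) = j (f w)} ≤ (Γ (j (f w))).degree (φ _ ⟨w, rfl⟩) := by
    rw [← card_neighborFinset_eq_degree]
    refine Finset.card_le_card_of_injOn
      (fun v => if hv : j (f v) = j (f w) then φ (j (f w)) ⟨v, hv⟩ else φ _ ⟨w, rfl⟩) ?_ ?_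
    · intro v hv
      rw [mem_coe, mem_filter] at hv
      simp only [dif_pos hv.2.2]
      rw [mem_coe, mem_neighborFinset]
      exact hadj _ ⟨w, rfl⟩ ⟨v, hv.2.2⟩ hv.2.1
    · intro v hv v' hv' hvv
      rw [mem_coe, mem_filter] at hv hv'
      simp only [dif_pos hv.2.2, dif_pos hv'.2.2] at hvv
      exact congrArg Subtype.val (hinj _ _ _ hvv)
  have h2 := hΓ (j (f w)) (φ _ ⟨w, rfl⟩)
  omega

/-- Let `c₀` be a colouring of `L` with `r ≥ 2` colours whose monochromatic edges are the `s`
edges at `u` inside the class of `u`. If every map from the vertices of `L` to `r` classes with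
acyclic classes has a vertex with at least `s` neighbours in its own class, then
`A(n; L) → ∞`. -/
theorem tendsto_forest {W : Type} [Fintype W] [DecidableEq W] (L : SimpleGraph W)
    [DecidableRel L.Adj] (r : ℕ) (hr : 2 ≤ r)
    (hnc : ¬ L.Colorable r) (u₀ : W) (c₀ : W → Fin r)
    (hc₀ : ∀ a b, L.Adj a b → a ≠ u₀ → b ≠ u₀ → c₀ a ≠ c₀ b)
    (h : ∀ c : W → Fin r, (∀ i, (L.induce {w | c w = i}).IsAcyclic) →
      ∃ w, #{v | L.Adj u₀ v ∧ c₀ v = c₀ u₀} ≤ #{v | L.Adj w v ∧ c v = c w}) :
    Tendsto (fun n => minCopies n L) atTop atTop := by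
  classical
  have hr1 : 1 ≤ r := by omega
  have hrR : (1 : ℝ) ≤ r := by exact_mod_cast hr1
  have hW : ∃ w, w ≠ u₀ := by
    by_contra hcon
    push Not at hcon
    apply hnc
    exact ⟨Coloring.mk (fun _ => ⟨0, by omega⟩) (fun {a b} h => absurd ((hcon a).trans (hcon b).symm) h.ne)⟩
  have hcol : L.Colorable (r + 1) := by
    refine ⟨Coloring.mk (fun x => if x = u₀ then Fin.last r else (c₀ x).castSucc) ?_⟩
    intro a b hab h
    by_cases ha : a = u₀
    · have hb : b ≠ u₀ := fun hb => hab.ne (ha.trans hb.symm)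
      rw [if_pos ha, if_neg hb] at h
      exact absurd h.symm (Fin.castSucc_lt_last _).ne
    · by_cases hb : b = u₀
      · rw [if_neg ha, if_pos hb] at h
        exact absurd h (Fin.castSucc_lt_last _).ne
      · rw [if_neg ha, if_neg hb] at h
        exact hc₀ a b hab ha hb (Fin.castSucc_injective _ h)
  have hLne : L ≠ ⊥ := by
    rintro rfl
    apply hnc
    exact ⟨Coloring.mk (fun _ => ⟨0, by omega⟩) (fun {a b} h => by simp at h)⟩
  -- `s ≥ 1`
  obtain ⟨k, hk⟩ : ∃ k, #{v | L.Adj u₀ v ∧ c₀ v = c₀ u₀} = k + 1 := by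
    rcases Nat.eq_zero_or_pos #{v | L.Adj u₀ v ∧ c₀ v = c₀ u₀} with h0 | h0
    · exfalso
      apply hnc
      refine ⟨Coloring.mk c₀ ?_⟩
      have hu : ∀ v, L.Adj u₀ v → c₀ v ≠ c₀ u₀ := by
        intro v hv heq
        have : v ∈ ({v | L.Adj u₀ v ∧ c₀ v = c₀ u₀} : Finset W) := by
          rw [mem_filter]
          exact ⟨mem_univ _, hv, heq⟩
        rw [card_eq_zero] at h0
        rw [h0] at this
        exact absurd this (notMem_empty _)
      intro a b hab
      by_cases ha : a = u₀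
      · subst ha
        exact (hu b hab).symm
      · by_cases hb : b = u₀
        · subst hb
          exact hu a hab.symm
        · exact hc₀ a b hab ha hb
    · exact ⟨_, (Nat.succ_pred_eq_of_pos h0).symm⟩
  rw [hk] at h
  apply tendsto_minCopies_of L hLne
  intro d
  set m := card W with hm
  set lam : ℝ := 1 / (2 * r * (r * m + m + 1)) with hlam
  have hlam0 : 0 < lam := by positivity
  obtain ⟨η, hη, hstr⟩ := structure_lemma L r hr u₀ c₀ hc₀ hW lam hlam0
  obtain ⟨N₀, hN₀⟩ := eventually_atTop.1 (exists_girth_regular m k)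
  filter_upwards [minDegree_of_core L r hr1 hcol hnc η hη d, hstr d,
    eventually_ge_atTop (2 * r * (d + 2 * m + N₀))] with n hdeg hstr' hn G _ hG D hD hcore
  obtain ⟨j, hj1, -, hj3⟩ := hstr' G (hdeg G hG D hD hcore) D hD hcore
  have hn0 : (0 : ℝ) ≤ n := Nat.cast_nonneg _
  have hsize : ∀ l, r * m * ⌊lam * n⌋₊ + m + m * ⌊lam * n⌋₊ + (#D + m) + N₀ ≤ #{y | j y = l} := by
    intro l
    have h1 : ((r * m * ⌊lam * n⌋₊ + m + m * ⌊lam * n⌋₊ + (#D + m) + N₀ : ℕ) : ℝ) ≤
        #{y | j y = l} := by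
      refine le_trans ?_ (hj3 l)
      push_cast
      have h2 : (⌊lam * n⌋₊ : ℝ) ≤ lam * n := Nat.floor_le (by positivity)
      have h3 : (#D : ℝ) ≤ d := by exact_mod_cast hD
      have h4 : (r : ℝ) * m * ⌊lam * n⌋₊ ≤ r * m * (lam * n) :=
        mul_le_mul_of_nonneg_left h2 (by positivity)
      have h5 : (m : ℝ) * ⌊lam * n⌋₊ ≤ m * (lam * n) :=
        mul_le_mul_of_nonneg_left h2 (by positivity)
      have h6 : (r * m + m + 1 : ℝ) * (lam * n) = n / (2 * r) := by
        rw [hlam]
        field_simp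
      have h7 : (d : ℝ) + 2 * m + N₀ ≤ n / (2 * r) := by
        rw [le_div_iff₀ (by positivity)]
        have : (2 * r * (d + 2 * m + N₀) : ℝ) ≤ n := by exact_mod_cast hn
        linarith
      have h8 : (1 / (r : ℝ)) * n = n / (2 * r) + n / (2 * r) := by
        field_simp
        ring
      have h9 : (1 / (r : ℝ) - lam) * n = (1 / (r : ℝ)) * n - lam * n := by ring
      rw [h9, h8]
      linarith
    exact_mod_cast h1
  have hinner : ∀ x, #{y | j y = j x ∧ G.Adj x y} < k + 1 := by
    intro x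
    rw [← hk]
    exact inner_lt L hr hnc u₀ c₀ hc₀ G j ⌊lam * n⌋₊
      (fun x l hl => Nat.le_floor (hj1 x l hl)) D hcore (fun l => by
        have := hsize l
        rw [← hm]
        omega) x
  -- the inner graphs of large girth
  have hΓ := fun l : Fin r => hN₀ #({y | j y = l} : Finset (Fin n)) (by have := hsize l; omega)
  choose Γ hdec hΓ1 hΓ2 hΓ3 using hΓ
  obtain ⟨I, e, he1, he2, he3, he4, hI1, hI2⟩ := exists_inner j Γ
  have hfree : L.Free (joinGraph j I) :=
    join_free L j Γ hΓ1 hΓ2 I e he2 he3 he4 hI1 h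
  have hle : #G.edgeFinset ≤ #(joinGraph j I).edgeFinset := by
    apply card_edges_le_join
    intro l
    have h1 : #(Γ l).edgeFinset ≤
        #((joinGraph j I).induce (({y | j y = l} : Finset (Fin n)) : Set (Fin n))).edgeFinset := by
      choose x hx1 hx2 using he1 l
      have hcop : Copy (Γ l)
          ((joinGraph j I).induce (({y | j y = l} : Finset (Fin n)) : Set (Fin n))) := by
        refine ⟨⟨fun a => ⟨x a, by rw [mem_coe, mem_filter]; exact ⟨mem_univ _, hx1 a⟩⟩, ?_⟩, ?_⟩
        · intro a b hab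
          show (joinGraph j I).Adj (x a) (x b)
          exact Or.inr (hI2 l _ _ a b (hx1 a) (hx1 b) (hx2 a) (hx2 b) hab)
        · intro a b hab
          have h1 : x a = x b := congrArg Subtype.val hab
          exact he4 l (x a) a b (hx2 a) (h1 ▸ hx2 b)
      rw [edgeFinset_card, edgeFinset_card]
      exact Fintype.card_le_of_embedding hcop.mapEdgeSet
    refine le_trans ?_ h1
    refine le_trans ?_ (hΓ3 l)
    rw [Nat.le_div_iff_mul_le (by norm_num), mul_comm, ← dsum_self_eq]
    unfold dsum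
    have h2 : ∑ v ∈ ({y | j y = l} : Finset (Fin n)),
        #{w ∈ ({y | j y = l} : Finset (Fin n)) | G.Adj v w} ≤
        #({y | j y = l} : Finset (Fin n)) • k := by
      apply Finset.sum_le_card_nsmul
      intro v hv
      rw [mem_filter] at hv
      have h3 := hinner v
      rw [hv.2] at h3
      rw [Finset.filter_filter]
      omega
    rw [smul_eq_mul, mul_comm] at h2
    exact h2
  have h1 := card_edgeFinset_le_extremalNumber hfree
  rw [Fintype.card_fin] at h1
  omega

end Pool.Agent.Helper20.Tur
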