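import Pool.Agent.Helper20.Tur.Frac
import Pool.Agent.Helper20.Tur.Forest

/-!
# Two corollaries

* non-bipartite graphs with a vertex of degree at most `χ(L) - 2`;
* complete multipartite graphs `K_{1, t_1, …, t_r}`.
-/

open Finset Fintype Filter SimpleGraph Pool.Agent.Helper49.Copies

namespace Pool.Agent.Helper20.Tur

/-- If `χ(L) = r + 1 ≥ 3` and some vertex of `L` has degree at most `r - 1`, then
`A(n; L) → ∞`. -/
theorem tendsto_low_degree {W : Type} [Fintype W] [DecidableEq W] (L : SimpleGraph W)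
    [DecidableRel L.Adj] (r : ℕ) (hr : 2 ≤ r) (hcol : L.Colorable (r + 1))
    (hnc : ¬ L.Colorable r) (v₀ : W) (hv₀ : L.degree v₀ < r) :
    Tendsto (fun n => minCopies n L) atTop atTop := by
  classical
  refine tendsto_frac L r hr hcol hnc ?_
  rintro μ ⟨h1, h2, h3⟩
  obtain ⟨i, M, hM, hM'⟩ : ∃ i M, 0 < μ i M ∧ ∀ w, L.Adj v₀ w → w ∉ M := by
    by_contra hcon
    push Not at hcon
    have e1 : ∀ i, (1 : ℝ) ≤ ∑ w ∈ L.neighborFinset v₀, ∑ M with w ∈ M, μ i M := by
      intro i
      rw [← h2 i]
      have e2 : ∀ M : Finset W, μ i M ≤ ∑ w ∈ L.neighborFinset v₀, if w ∈ M then μ i M else 0 := by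
        intro M
        rcases (h1 i M).eq_or_lt with h | h
        · rw [← h]
          exact Finset.sum_nonneg (fun w _ => by split_ifs <;> simp)
        · obtain ⟨w, hw, hwM⟩ := hcon i M h
          have e3 := Finset.single_le_sum (f := fun w => if w ∈ M then μ i M else 0)
            (s := L.neighborFinset v₀) (fun w _ => by
              show 0 ≤ if w ∈ M then μ i M else 0
              split_ifs
              · exact h1 i M
              · exact le_rfl) (show w ∈ L.neighborFinset v₀ by rwa [mem_neighborFinset])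
          simp only [if_pos hwM] at e3
          exact e3
      refine (Finset.sum_le_sum (fun M _ => e2 M)).trans ?_
      rw [Finset.sum_comm]
      apply le_of_eq
      apply Finset.sum_congr rfl
      intro w _
      rw [Finset.sum_filter]
    have e4 : (r : ℝ) ≤ ∑ i, ∑ w ∈ L.neighborFinset v₀, ∑ M with w ∈ M, μ i M := by
      have := Finset.card_nsmul_le_sum (univ : Finset (Fin r)) _ (1 : ℝ) (fun i _ => e1 i)
      rw [Finset.card_univ, Fintype.card_fin, nsmul_eq_mul, mul_one] at this
      exact this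
    rw [Finset.sum_comm] at e4
    have e5 : ∑ w ∈ L.neighborFinset v₀, ∑ i, ∑ M with w ∈ M, μ i M ≤ L.degree v₀ := by
      have e7 : ∀ w ∈ L.neighborFinset v₀, ∑ i, ∑ M with w ∈ M, μ i M ≤ 1 := by
        intro w _
        have := h3 w
        rwa [add_zero] at this
      have := Finset.sum_le_card_nsmul _ _ (1 : ℝ) e7
      rw [card_neighborFinset_eq_degree, nsmul_eq_mul, mul_one] at this
      exact this
    have e6 : (L.degree v₀ : ℝ) < r := by exact_mod_cast hv₀
    linarith
  refine ⟨{v₀}, id, fun _ => i, ⟨singleton_nonempty _, Set.injOn_id _, fun v w h _ _ => h, ?_⟩, ?_⟩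
  · intro v w hvw hv hw
    rw [mem_singleton] at hv hw
    exact absurd (hv.trans hw.symm) hvw.ne
  · intro v hv
    rw [mem_singleton] at hv
    subst hv
    exact ⟨M, (mem_okSets _ _ _ _ _).2 (fun w hw _ => hM' w hw), hM⟩

private theorem star_of_acyclic {W : Type} [DecidableEq W] {k : ℕ} (p : W → Fin k) (C : Set W)
    (hC : (((⊤ : SimpleGraph (Fin k)).comap p).induce C).IsAcyclic) (a a' b b' : W)
    (ha : a ∈ C) (ha' : a' ∈ C) (hb : b ∈ C) (hb' : b' ∈ C) (haa : p a = p a') (hbb : p b = p b')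
    (hab : p a ≠ p b) (hne : a ≠ a') : b = b' := by
  classical
  set K := ((⊤ : SimpleGraph (Fin k)).comap p).induce C with hK
  have hadj : ∀ x y : C, p x ≠ p y → K.Adj x y := fun x y h => h
  let P₁ : K.Walk ⟨a, ha⟩ ⟨a', ha'⟩ :=
    Walk.cons (hadj ⟨a, ha⟩ ⟨b, hb⟩ hab) (Walk.cons (hadj ⟨b, hb⟩ ⟨a', ha'⟩ (by
      rw [← haa]; exact hab.symm)) Walk.nil)
  let P₂ : K.Walk ⟨a, ha⟩ ⟨a', ha'⟩ :=
    Walk.cons (hadj ⟨a, ha⟩ ⟨b', hb'⟩ (by rw [← hbb]; exact hab)) (Walk.cons
      (hadj ⟨b', hb'⟩ ⟨a', ha'⟩ (by rw [← haa, ← hbb]; exact hab.symm)) Walk.nil)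
  have h1 : P₁.IsPath := by
    rw [Walk.isPath_def]
    simp only [P₁, Walk.support_cons, Walk.support_nil, List.nodup_cons, List.mem_cons,
      List.not_mem_nil, or_false, not_or, Subtype.mk.injEq, List.nodup_nil, and_true,
      not_false_eq_true]
    refine ⟨⟨?_, hne⟩, ?_⟩
    · rintro rfl; exact hab rfl
    · rintro rfl; exact hab haa
  have h2 : P₂.IsPath := by
    rw [Walk.isPath_def]
    simp only [P₂, Walk.support_cons, Walk.support_nil, List.nodup_cons, List.mem_cons,
      List.not_mem_nil, or_false, not_or, Subtype.mk.injEq, List.nodup_nil, and_true,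
      not_false_eq_true]
    refine ⟨⟨?_, hne⟩, ?_⟩
    · rintro rfl; exact hab hbb.symm
    · rintro rfl; exact hab (haa.trans hbb.symm)
  have h3 : (⟨P₁, h1⟩ : K.Path ⟨a, ha⟩ ⟨a', ha'⟩) = ⟨P₂, h2⟩ :=
    (hC.subsingleton_path _ _).elim _ _
  have h4 := congrArg Walk.support (Subtype.mk.inj h3)
  simp only [P₁, P₂, Walk.support_cons, Walk.support_nil, List.cons.injEq, Subtype.mk.injEq,
    true_and, and_true] at h4
  exact h4

/-- `A(n; L) → ∞` for every complete `(r+1)`-partite graph, `r ≥ 2`, with a part of size one: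
`L = K_{1, t_1, …, t_r}`. Here `p` is the map to the parts. -/
theorem tendsto_multipartite {W : Type} [Fintype W] [DecidableEq W] (r : ℕ) (hr : 2 ≤ r)
    (p : W → Fin (r + 1)) (hp : Function.Surjective p) (h0 : #{w | p w = 0} = 1) :
    Tendsto (fun n => minCopies n ((⊤ : SimpleGraph (Fin (r + 1))).comap p)) atTop atTop := by
  classical
  set L := (⊤ : SimpleGraph (Fin (r + 1))).comap p with hL
  have hadj : ∀ a b, L.Adj a b ↔ p a ≠ p b := fun a b => Iff.rfl
  obtain ⟨u, hu⟩ : ∃ u, p u = 0 := hp 0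
  have huniq : ∀ w, p w = 0 → w = u := by
    intro w hw
    rw [card_eq_one] at h0
    obtain ⟨x, hx⟩ := h0
    have e1 : w ∈ ({w | p w = 0} : Finset W) := by rw [mem_filter]; exact ⟨mem_univ _, hw⟩
    have e2 : u ∈ ({w | p w = 0} : Finset W) := by rw [mem_filter]; exact ⟨mem_univ _, hu⟩
    rw [hx, mem_singleton] at e1 e2
    rw [e1, e2]
  -- the smallest part
  obtain ⟨q₁, -, hq₁⟩ := exists_min_image (univ : Finset (Fin r))
    (fun q => #{w | p w = q.succ}) ⟨⟨0, by omega⟩, mem_univ _⟩
  set t := #{w | p w = q₁.succ} with ht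
  have ht1 : 1 ≤ t := by
    rw [ht, Nat.one_le_iff_ne_zero, Ne, card_eq_zero, filter_eq_empty_iff]
    push Not
    obtain ⟨w, hw⟩ := hp q₁.succ
    exact ⟨w, mem_univ _, hw⟩
  have hpart : ∀ q : Fin (r + 1), q ≠ 0 → t ≤ #{w | p w = q} := by
    intro q hq
    obtain ⟨q', rfl⟩ := Fin.exists_succ_eq.2 hq
    exact hq₁ q' (mem_univ _)
  -- `L` is not `r`-colourable
  have hnc : ¬ L.Colorable r := by
    rintro ⟨C⟩
    choose s hs using hp
    have hinj : Function.Injective (fun q => C (s q)) := by
      intro q q' hqq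
      by_contra hne
      exact C.valid ((hadj (s q) (s q')).2 (by rw [hs, hs]; exact hne)) hqq
    have := Fintype.card_le_of_injective _ hinj
    rw [Fintype.card_fin, Fintype.card_fin] at this
    omega
  let c₀ : W → Fin r := fun w => if h : p w = 0 then q₁ else (p w).pred h
  have hc₀ : ∀ a b, L.Adj a b → a ≠ u → b ≠ u → c₀ a ≠ c₀ b := by
    intro a b hab ha hb
    have ha' : p a ≠ 0 := fun h => ha (huniq a h)
    have hb' : p b ≠ 0 := fun h => hb (huniq b h)
    simp only [c₀, dif_neg ha', dif_neg hb']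
    exact fun h => (hadj a b).1 hab (Fin.pred_inj.1 h)
  have hs : #{v | L.Adj u v ∧ c₀ v = c₀ u} = t := by
    rw [ht]
    congr 1
    ext v
    simp only [mem_filter, mem_univ, true_and, hadj, hu, c₀, dif_pos]
    constructor
    · rintro ⟨h1, h2⟩
      have h1' : p v ≠ 0 := h1.symm
      rw [dif_neg h1'] at h2
      rw [← h2, Fin.succ_pred]
    · intro h
      have h1' : p v ≠ 0 := by rw [h]; exact Fin.succ_ne_zero _
      refine ⟨h1'.symm, ?_⟩
      rw [dif_neg h1']
      exact Fin.succ_injective _ (by rw [Fin.succ_pred]; exact h)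
  refine tendsto_forest L r hr hnc u c₀ hc₀ ?_
  intro c hc
  rw [hs]
  by_contra hcon
  push Not at hcon
  -- the classes which meet at least two parts
  set S : Finset (Fin r) := {i | ∃ a b, c a = i ∧ c b = i ∧ p a ≠ p b} with hS
  have hSsmall : ∀ i ∈ S, #{w | c w = i} ≤ t := by
    intro i hi
    rw [hS, mem_filter] at hi
    obtain ⟨-, a, b, ha, hb, hab⟩ := hi
    have key : ∃ x, c x = i ∧ ∀ y, c y = i → p y = p x → y = x := by
      by_contra h
      push Not at h
      obtain ⟨a', ha', hpa', hne⟩ := h a ha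
      obtain ⟨b', hb', hpb', hne'⟩ := h b hb
      exact hne' (star_of_acyclic p {w | c w = i} (hc i) a a' b b' ha ha' hb hb' hpa'.symm
        hpb'.symm hab hne.symm).symm
    obtain ⟨x, hx, hx'⟩ := key
    have h1 := hcon x
    have h2 : ({w | c w = i} : Finset W) ⊆
        insert x (univ.filter (fun v => L.Adj x v ∧ c v = c x)) := by
      intro y hy
      rw [mem_filter] at hy
      rw [mem_insert, mem_filter]
      by_cases hyx : y = x
      · exact Or.inl hyx
      · exact Or.inr ⟨mem_univ _, (hadj x y).2 (fun h => hyx (hx' y hy.2 h.symm)),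
          hy.2.trans hx.symm⟩
    have h3 := (card_le_card h2).trans (card_insert_le _ _)
    omega
  -- parts met by the other classes
  let tch : Fin r → Fin (r + 1) := fun i => if h : ∃ w, c w = i then p h.choose else 0
  set Q : Finset (Fin (r + 1)) := univ \ (univ \ S).image tch with hQ
  have hQcard : #S + 1 ≤ #Q := by
    have h1 : #((univ \ S).image tch) ≤ r - #S := by
      refine card_image_le.trans ?_
      rw [Finset.card_sdiff_of_subset (subset_univ _), Finset.card_univ, Fintype.card_fin]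
    have h2 : #Q + #((univ \ S).image tch) = r + 1 := by
      rw [hQ, Finset.card_sdiff_add_card_eq_card (subset_univ _), Finset.card_univ,
        Fintype.card_fin]
    have h3 : #S ≤ r := by
      have := card_le_univ S
      rwa [Fintype.card_fin] at this
    omega
  have hcov : ∀ w, p w ∈ Q → c w ∈ S := by
    intro w hw
    by_contra h
    rw [hQ, Finset.mem_sdiff] at hw
    apply hw.2
    rw [mem_image]
    refine ⟨c w, by rw [Finset.mem_sdiff]; exact ⟨mem_univ _, h⟩, ?_⟩
    have hex : ∃ w', c w' = c w := ⟨w, rfl⟩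
    simp only [tch, dif_pos hex]
    by_contra hne
    apply h
    rw [hS, mem_filter]
    exact ⟨mem_univ _, hex.choose, w, hex.choose_spec, rfl, hne⟩
  have hsum1 : ∑ q ∈ Q, #{w | p w = q} ≤ ∑ i ∈ S, #{w | c w = i} := by
    rw [← Finset.card_biUnion, ← Finset.card_biUnion]
    · apply card_le_card
      intro w hw
      rw [mem_biUnion] at hw ⊢
      obtain ⟨q, hq, hwq⟩ := hw
      rw [mem_filter] at hwq
      refine ⟨c w, hcov w (by rw [hwq.2]; exact hq), by rw [mem_filter]; exact ⟨mem_univ _, rfl⟩⟩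
    · intro i _ l _ hil
      rw [Function.onFun, Finset.disjoint_left]
      intro w hw hw'
      rw [mem_filter] at hw hw'
      exact hil (hw.2.symm.trans hw'.2)
    · intro i _ l _ hil
      rw [Function.onFun, Finset.disjoint_left]
      intro w hw hw'
      rw [mem_filter] at hw hw'
      exact hil (hw.2.symm.trans hw'.2)
  have hsum2 : ∑ i ∈ S, #{w | c w = i} ≤ #S * t := by
    rw [← smul_eq_mul]
    exact Finset.sum_le_card_nsmul _ _ _ hSsmall
  have hsum3 : #S * t + 1 ≤ ∑ q ∈ Q, #{w | p w = q} := by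
    by_cases h0Q : (0 : Fin (r + 1)) ∈ Q
    · rw [← Finset.add_sum_erase _ _ h0Q, h0]
      have h1 : #(Q.erase 0) * t ≤ ∑ q ∈ Q.erase 0, #{w | p w = q} := by
        rw [← smul_eq_mul]
        apply Finset.card_nsmul_le_sum
        intro q hq
        rw [mem_erase] at hq
        exact hpart q hq.1
      rw [card_erase_of_mem h0Q] at h1
      have h2 : #S * t ≤ (#Q - 1) * t := Nat.mul_le_mul_right _ (by omega)
      omega
    · have h1 : #Q * t ≤ ∑ q ∈ Q, #{w | p w = q} := by
        rw [← smul_eq_mul]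
        apply Finset.card_nsmul_le_sum
        intro q hq
        exact hpart q (fun h => h0Q (h ▸ hq))
      have h2 : (#S + 1) * t ≤ #Q * t := Nat.mul_le_mul_right _ hQcard
      have h3 : (#S + 1) * t = #S * t + t := by ring
      omega
  omega

end Pool.Agent.Helper20.Tur
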