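import Pool.Agent.Helper20.Tur.Inc

/-!
# Embedding lemmas
-/

open Finset Fintype Filter

namespace Pool.Agent.Helper20.Tur

open SimpleGraph Pool.Agent.Helper49.Copies

/-- Embedding with some vertices prescribed and the others in a complete multipartite graph. -/
theorem embed {V W κ : Type} [Fintype W] [DecidableEq V] [DecidableEq κ] (L : SimpleGraph W)
    (G : SimpleGraph V) (c : W → κ) (P : Set W) (g : W → V) (A : κ → Finset V)
    (hA : ∀ i j, i ≠ j → ∀ a ∈ A i, ∀ b ∈ A j, G.Adj a b) (hcard : ∀ i, card W ≤ #(A i))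
    (ginj : ∀ a b, a ∈ P → b ∈ P → g a = g b → a = b) (gdisj : ∀ a ∈ P, ∀ i, g a ∉ A i)
    (hPP : ∀ a b, a ∈ P → b ∈ P → L.Adj a b → G.Adj (g a) (g b))
    (hPo : ∀ a b, a ∈ P → b ∉ P → L.Adj a b → ∀ y ∈ A (c b), G.Adj (g a) y)
    (hoo : ∀ a b, a ∉ P → b ∉ P → L.Adj a b → c a ≠ c b) :
    ∃ f : Copy L G, (∀ a ∈ P, f a = g a) ∧ ∀ a ∉ P, f a ∈ A (c a) := by
  classical
  set J : SimpleGraph W :=
    { Adj := fun a b => L.Adj a b ∧ a ∉ P ∧ b ∉ P
      symm := ⟨fun a b h => ⟨h.1.symm, h.2.2, h.2.1⟩⟩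
      loopless := ⟨fun a h => h.1.ne rfl⟩ } with hJ
  obtain ⟨f₁, hf₁⟩ := multipartite_copy J G c (fun a b h => hoo a b h.2.1 h.2.2 h.1) A hA
    (fun i => (card_le_univ _).trans (hcard i))
  refine ⟨⟨⟨fun w => if w ∈ P then g w else f₁ w, ?_⟩, ?_⟩, ?_, ?_⟩
  · intro a b hab
    by_cases ha : a ∈ P
    · by_cases hb : b ∈ P
      · rw [if_pos ha, if_pos hb]
        exact hPP a b ha hb hab
      · rw [if_pos ha, if_neg hb]
        exact hPo a b ha hb hab _ (hf₁ b)
    · by_cases hb : b ∈ P
      · rw [if_neg ha, if_pos hb]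
        exact (hPo b a hb ha hab.symm _ (hf₁ a)).symm
      · rw [if_neg ha, if_neg hb]
        exact f₁.toHom.map_rel' (show J.Adj a b from ⟨hab, ha, hb⟩)
  · intro a b hab
    simp only [RelHom.coeFn_mk] at hab
    by_cases ha : a ∈ P
    · by_cases hb : b ∈ P
      · rw [if_pos ha, if_pos hb] at hab
        exact ginj a b ha hb hab
      · rw [if_pos ha, if_neg hb] at hab
        exact absurd (hab ▸ hf₁ b) (gdisj a ha _)
    · by_cases hb : b ∈ P
      · rw [if_neg ha, if_pos hb] at hab
        exact absurd (hab ▸ hf₁ a) (gdisj b hb _)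
      · rw [if_neg ha, if_neg hb] at hab
        exact f₁.injective hab
  · intro a ha
    show (if a ∈ P then g a else f₁ a) = g a
    rw [if_pos ha]
  · intro a ha
    show (if a ∈ P then g a else f₁ a) ∈ A (c a)
    rw [if_neg ha]
    exact hf₁ a

/-- Erdős–Stone in a subset of large relative minimum degree. -/
theorem exists_tile_in (q t : ℕ) (hq : 1 ≤ q) : ∃ N₀ : ℕ, ∀ {V : Type} [Fintype V]
    [DecidableEq V] (G : SimpleGraph V) [DecidableRel G.Adj] (U : Finset V), N₀ ≤ #U →
    (∀ x ∈ U, (#{y ∈ U | ¬ G.Adj x y} : ℝ) ≤ (1 / q + 1 / (2 * (q : ℝ) ^ 2)) * #U) →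
    ∃ T, IsTile G q t T ∧ tileSet T ⊆ U := by
  classical
  rcases Nat.lt_or_ge q 2 with hq2 | hq2
  · obtain rfl : q = 1 := by omega
    refine ⟨t, ?_⟩
    intro V _ _ G _ U hU _
    obtain ⟨T, hTU, hT⟩ := exists_subset_card_eq hU
    refine ⟨fun _ => T, ⟨fun _ => hT, ?_⟩, ?_⟩
    · intro i j hij
      exact absurd (Subsingleton.elim i j) hij
    · intro v hv
      rw [mem_tileSet] at hv
      obtain ⟨_, hv⟩ := hv
      exact hTU hv
  · have hqR : (2 : ℝ) ≤ q := by exact_mod_cast hq2
    set ε : ℝ := 1 / (2 * (q : ℝ) * (q - 1)) with hε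
    have hε0 : 0 < ε := by
      rw [hε]
      have : 0 < (q : ℝ) - 1 := by linarith
      positivity
    obtain ⟨N, hN⟩ := eventually_atTop.1
      (eventually_completeEquipartiteGraph_isContained_of_minDegree hε0 (q - 1) t)
    refine ⟨max N 1, ?_⟩
    intro V _ _ G _ U hU hdeg
    have hUN : N ≤ #U := (le_max_left _ _).trans hU
    have hU1 : 1 ≤ #U := (le_max_right _ _).trans hU
    have hcardU : card (U : Set V) = #U := by simp
    apply isTile_of_copy
    have hiso := (G.induce (U : Set V)).overFinIso hcardU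
    have hne : Nonempty (Fin (#U)) := ⟨⟨0, hU1⟩⟩
    have h1 := hN (#U) hUN (G := (G.induce (U : Set V)).overFin hcardU) (by
      obtain ⟨x, hx⟩ := ((G.induce (U : Set V)).overFin hcardU).exists_minimal_degree_vertex
      rw [hx]
      have h2 : ((G.induce (U : Set V)).overFin hcardU).degree x =
          (G.induce (U : Set V)).degree (hiso.symm x) := by
        rw [← card_neighborFinset_eq_degree, ← card_neighborFinset_eq_degree]
        refine Finset.card_bij' (fun y _ => hiso.symm y) (fun y _ => hiso y) ?_ ?_ ?_ ?_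
        · intro y hy
          rw [mem_neighborFinset] at hy ⊢
          rw [hiso.symm.map_adj_iff]
          exact hy
        · intro y hy
          rw [mem_neighborFinset] at hy ⊢
          rw [← hiso.map_adj_iff] at hy
          simpa using hy
        · intro y _
          simp
        · intro y _
          simp
      rw [h2]
      set z : (U : Set V) := hiso.symm x with hz
      have hzU : (z : V) ∈ U := by exact_mod_cast z.2
      have h3 : (G.induce (U : Set V)).degree z = #{y ∈ U | G.Adj z y} := by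
        rw [← card_neighborFinset_eq_degree]
        refine Finset.card_bij' (fun y _ => (y : V)) (fun y hy => (⟨y, by
          rw [mem_filter] at hy; exact_mod_cast hy.1⟩ : (U : Set V))) ?_ ?_ ?_ ?_
        · intro y hy
          rw [mem_neighborFinset] at hy
          rw [mem_filter]
          exact ⟨by exact_mod_cast y.2, hy⟩
        · intro y hy
          rw [mem_filter] at hy
          rw [mem_neighborFinset]
          exact hy.2
        · intro y _; rfl
        · intro y _; rfl
      rw [h3]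
      have h4 := hdeg z hzU
      have h5 : #{y ∈ U | G.Adj z y} + #{y ∈ U | ¬ G.Adj z y} = #U :=
        Finset.card_filter_add_card_filter_not _
      have h6 : (#{y ∈ U | G.Adj z y} : ℝ) + #{y ∈ U | ¬ G.Adj z y} = #U := by exact_mod_cast h5
      have h7 : (((q - 1 : ℕ) : ℝ)) = q - 1 := by
        rw [Nat.cast_sub hq]
        simp
      rw [h7]
      have h8 : 1 - 1 / ((q : ℝ) - 1) + ε ≤ 1 - (1 / q + 1 / (2 * (q : ℝ) ^ 2)) := by
        have hq0 : 0 < (q : ℝ) := by linarith
        have hq1 : 0 < (q : ℝ) - 1 := by linarith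
        have h9 : 1 / ((q : ℝ) - 1) - 1 / q = 2 * ε := by
          rw [hε]
          field_simp
          ring
        have h10 : 1 / (2 * (q : ℝ) ^ 2) ≤ ε := by
          rw [hε]
          apply one_div_le_one_div_of_le (by positivity)
          nlinarith
        linarith
      have h9 : (1 - 1 / ((q : ℝ) - 1) + ε) * #U ≤ (1 - (1 / q + 1 / (2 * (q : ℝ) ^ 2))) * #U :=
        mul_le_mul_of_nonneg_right h8 (Nat.cast_nonneg _)
      have h10 : (1 - (1 / (q : ℝ) + 1 / (2 * (q : ℝ) ^ 2))) * #U =
        #U - (1 / q + 1 / (2 * (q : ℝ) ^ 2)) * #U := by ring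
      linarith)
    have h2 : q - 1 + 1 = q := by omega
    rw [h2] at h1
    exact h1.trans ⟨hiso.symm.toCopy⟩

/-- Many vertices with many neighbours in every class of a tile. -/
theorem rich_of_degree {V : Type} [Fintype V] [DecidableEq V] (G : SimpleGraph V)
    [DecidableRel G.Adj] (q t m : ℕ) (hq : 1 ≤ q) (T : Fin q → Finset V) (hT : IsTile G q t T)
    (X : Finset V) (β : ℕ) (hβ : ∀ x ∈ tileSet T, #{y ∈ X | ¬ G.Adj x y} ≤ β) :
    q * t * #X ≤ #{w ∈ X | ∀ j, m ≤ #{v ∈ T j | G.Adj w v}} * (q * t) + #X * ((q - 1) * t + m) +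
      q * t * β := by
  classical
  set R := {w ∈ X | ∀ j, m ≤ #{v ∈ T j | G.Adj w v}} with hR
  have h1 : q * t * #X ≤ dsum G (tileSet T) X + q * t * β := by
    have h2 : ∀ x ∈ tileSet T, #X ≤ #{w ∈ X | G.Adj x w} + β := by
      intro x hx
      have h3 := hβ x hx
      have h4 : #{y ∈ X | G.Adj x y} + #{y ∈ X | ¬ G.Adj x y} = #X :=
        Finset.card_filter_add_card_filter_not _
      omega
    have h3 := Finset.sum_le_sum h2
    rw [Finset.sum_const, hT.card, smul_eq_mul, Finset.sum_add_distrib, Finset.sum_const, hT.card,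
      smul_eq_mul] at h3
    exact h3
  have h2 : dsum G (tileSet T) X ≤ #R * (q * t) + #X * ((q - 1) * t + m) := by
    rw [dsum_comm]
    unfold dsum
    have h3 : ∀ w ∈ X, #{v ∈ tileSet T | G.Adj w v} ≤ (if w ∈ R then q * t else 0) +
        ((q - 1) * t + m) := by
      intro w hw
      by_cases hwR : w ∈ R
      · rw [if_pos hwR]
        have h4 : #{v ∈ tileSet T | G.Adj w v} ≤ q * t := by
          rw [← hT.card]
          exact card_filter_le _ _
        omega
      · rw [if_neg hwR, zero_add]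
        rw [hR, mem_filter, not_and] at hwR
        have h4 := hwR hw
        push Not at h4
        obtain ⟨j, hj⟩ := h4
        rw [hT.card_filter, ← Finset.add_sum_erase _ _ (mem_univ j)]
        have h5 : ∑ i ∈ univ.erase j, #{v ∈ T i | G.Adj w v} ≤ (q - 1) * t := by
          have h6 : #(univ.erase j) = q - 1 := by
            rw [card_erase_of_mem (mem_univ _), Finset.card_univ, Fintype.card_fin]
          rw [← h6, ← smul_eq_mul]
          apply Finset.sum_le_card_nsmul
          intro i _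
          refine (card_filter_le _ _).trans ?_
          rw [hT.1 i]
        omega
    refine (Finset.sum_le_sum h3).trans ?_
    rw [Finset.sum_add_distrib, Finset.sum_const, smul_eq_mul, ← Finset.sum_filter, Finset.sum_const,
      smul_eq_mul]
    gcongr
    intro w hw
    rw [mem_filter] at hw
    exact hw.2
  omega

/-- Pigeonhole: many rich vertices give a larger complete multipartite graph. -/
theorem extend_tile {V : Type} [DecidableEq V] (G : SimpleGraph V) [DecidableRel G.Adj]
    (q t m : ℕ) (T : Fin q → Finset V) (hT : IsTile G q t T) (X : Finset V)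
    (hX : m * 2 ^ (q * t) < #{w ∈ X | ∀ j, m ≤ #{v ∈ T j | G.Adj w v}}) :
    ∃ (Z : Finset V) (A : Fin q → Finset V), Z ⊆ X ∧ m ≤ #Z ∧ (∀ i, A i ⊆ T i) ∧
      (∀ i, m ≤ #(A i)) ∧ ∀ z ∈ Z, ∀ i, ∀ y ∈ A i, G.Adj z y := by
  classical
  set R := {w ∈ X | ∀ j, m ≤ #{v ∈ T j | G.Adj w v}} with hR
  obtain ⟨Q, -, hQ⟩ := exists_lt_card_fiber_of_mul_lt_card_of_maps_to (s := R)
    (t := (tileSet T).powerset) (f := fun w => {v ∈ tileSet T | G.Adj w v}) (n := m)
    (by intro w _; rw [mem_powerset]; exact filter_subset _ _)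
    (by rw [card_powerset, hT.card, mul_comm]; exact hX)
  refine ⟨{w ∈ R | {v ∈ tileSet T | G.Adj w v} = Q}, fun i => {v ∈ T i | v ∈ Q}, ?_, hQ.le, ?_, ?_, ?_⟩
  · intro w hw
    rw [mem_filter, hR, mem_filter] at hw
    exact hw.1.1
  · intro i
    exact filter_subset _ _
  · intro i
    obtain ⟨w, hw⟩ := Finset.card_pos.1 (lt_of_le_of_lt (Nat.zero_le _) hQ)
    rw [mem_filter, hR, mem_filter] at hw
    obtain ⟨⟨-, h1⟩, h2⟩ := hw
    refine (h1 i).trans (card_le_card ?_)
    intro v hv
    rw [mem_filter] at hv ⊢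
    refine ⟨hv.1, ?_⟩
    rw [← h2, mem_filter]
    exact ⟨(mem_tileSet T v).2 ⟨i, hv.1⟩, hv.2⟩
  · intro z hz i y hy
    rw [mem_filter] at hz hy
    have h1 := hy.2
    rw [← hz.2, mem_filter] at h1
    exact h1.2

end Pool.Agent.Helper20.Tur
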