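import Pool.Agent.Helper49.CopiesCommon
import Pool.Agent.Helper49.CopiesBound
import Pool.Agent.Helper49.CopiesMain

/-!
# Increments of the extremal number and the minimum degree of graphs with few copies
-/

open Finset Fintype Filter

namespace Pool.Agent.Helper20.Tur

open SimpleGraph Pool.Agent.Helper49.Copies

/-- `G` with one new vertex joined to `N`. -/
def addVertex {V : Type} (G : SimpleGraph V) (N : Finset V) : SimpleGraph (Option V) where
  Adj u v := match u, v with
    | some a, some b => G.Adj a b
    | none, some b => b ∈ N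
    | some a, none => a ∈ N
    | none, none => False
  symm := ⟨by
    intro u v h
    match u, v with
    | some a, some b => exact (show G.Adj a b from h).symm
    | none, some b => exact h
    | some a, none => exact h⟩
  loopless := ⟨by
    intro u h
    match u with
    | some a => exact (show G.Adj a a from h).ne rfl
    | none => exact h⟩

theorem addVertex_card {V : Type} [Fintype V] [DecidableEq V] (G : SimpleGraph V)
    [DecidableRel G.Adj] (N : Finset V) [DecidableRel (addVertex G N).Adj] :
    #G.edgeFinset + #N = #(addVertex G N).edgeFinset := by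
  classical
  have h1 := sum_degrees_eq_twice_card_edges (addVertex G N)
  have h2 := sum_degrees_eq_twice_card_edges G
  rw [Fintype.sum_option] at h1
  have h3 : (addVertex G N).degree none = #N := by
    rw [← card_neighborFinset_eq_degree]
    have : (addVertex G N).neighborFinset none = N.image some := by
      ext u
      rw [mem_neighborFinset, mem_image]
      match u with
      | some a => simp [addVertex]
      | none => simp [addVertex]
    rw [this, card_image_of_injective _ (Option.some_injective _)]
  have h4 : ∀ a : V, (addVertex G N).degree (some a) = G.degree a + if a ∈ N then 1 else 0 := by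
    intro a
    rw [← card_neighborFinset_eq_degree, ← card_neighborFinset_eq_degree]
    by_cases ha : a ∈ N
    · have : (addVertex G N).neighborFinset (some a) = insert none ((G.neighborFinset a).image some) := by
        ext u
        rw [mem_neighborFinset, mem_insert, mem_image]
        match u with
        | some b => simp [addVertex]
        | none => simp [addVertex, ha]
      rw [this, card_insert_of_notMem (by simp), card_image_of_injective _ (Option.some_injective _),
        if_pos ha]
    · have : (addVertex G N).neighborFinset (some a) = (G.neighborFinset a).image some := by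
        ext u
        rw [mem_neighborFinset, mem_image]
        match u with
        | some b => simp [addVertex]
        | none => simp [addVertex, ha]
      rw [this, card_image_of_injective _ (Option.some_injective _), if_neg ha, add_zero]
  rw [h3, Finset.sum_congr rfl (fun a _ => h4 a), Finset.sum_add_distrib, h2] at h1
  have h5 : (∑ a : V, if a ∈ N then 1 else 0) = #N := by
    rw [← Finset.card_filter]
    congr 1
    ext a
    simp
  rw [h5] at h1
  omega

theorem addVertex_free {V W : Type} [Fintype W] (L : SimpleGraph W) (G : SimpleGraph V)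
    (hfree : L.Free G) (N Z : Finset V) (hZ : card W ≤ #Z) (hZN : ∀ z ∈ Z, ∀ y ∈ N, G.Adj z y) :
    L.Free (addVertex G N) := by
  classical
  rintro ⟨f⟩
  by_cases hnone : ∃ w₀, f w₀ = none
  · obtain ⟨w₀, hw₀⟩ := hnone
    have hsome : ∀ w, w ≠ w₀ → ∃ a, f w = some a := by
      intro w hw
      rw [← Option.ne_none_iff_exists']
      intro h
      exact hw (f.injective (h.trans hw₀.symm))
    have hVne : Nonempty V := by
      have h3 : 0 < card W := Fintype.card_pos_iff.2 ⟨w₀⟩
      obtain ⟨z, _⟩ := Finset.card_pos.1 (lt_of_lt_of_le h3 hZ)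
      exact ⟨z⟩
    choose! g hg using hsome
    obtain ⟨z, hzZ, hz⟩ : ∃ z ∈ Z, z ∉ (univ.erase w₀).image g := by
      by_contra hcon
      push Not at hcon
      have h1 : Z ⊆ (univ.erase w₀).image g := fun z hz => hcon z hz
      have h2 := (card_le_card h1).trans card_image_le
      rw [card_erase_of_mem (mem_univ _), Finset.card_univ] at h2
      have h3 : 0 < card W := Fintype.card_pos_iff.2 ⟨w₀⟩
      omega
    have hinj : ∀ a b, a ≠ w₀ → b ≠ w₀ → g a = g b → a = b := by
      intro a b ha hb hab
      apply f.injective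
      show f a = f b
      rw [hg a ha, hg b hb, hab]
    apply hfree
    refine ⟨⟨⟨fun w => if w = w₀ then z else g w, ?_⟩, ?_⟩⟩
    · intro a b hab
      have h1 : (addVertex G N).Adj (f a) (f b) := f.toHom.map_rel' hab
      by_cases ha : a = w₀
      · have hb : b ≠ w₀ := fun hb => hab.ne (ha.trans hb.symm)
        rw [if_pos ha, if_neg hb]
        rw [ha, hw₀, hg b hb] at h1
        exact hZN z hzZ _ h1
      · by_cases hb : b = w₀
        · rw [if_neg ha, if_pos hb]
          rw [hb, hw₀, hg a ha] at h1
          exact (hZN z hzZ _ h1).symm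
        · rw [if_neg ha, if_neg hb]
          rw [hg a ha, hg b hb] at h1
          exact h1
    · intro a b hab
      simp only [RelHom.coeFn_mk] at hab
      by_cases ha : a = w₀
      · by_cases hb : b = w₀
        · rw [ha, hb]
        · rw [if_pos ha, if_neg hb] at hab
          exact absurd (mem_image.2 ⟨b, mem_erase.2 ⟨hb, mem_univ _⟩, hab.symm⟩) hz
      · by_cases hb : b = w₀
        · rw [if_neg ha, if_pos hb] at hab
          exact absurd (mem_image.2 ⟨a, mem_erase.2 ⟨ha, mem_univ _⟩, hab⟩) hz
        · rw [if_neg ha, if_neg hb] at hab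
          exact hinj a b ha hb hab
  · push Not at hnone
    have hsome : ∀ w, ∃ a, f w = some a := fun w => Option.ne_none_iff_exists'.1 (hnone w)
    choose g hg using hsome
    apply hfree
    refine ⟨⟨⟨g, ?_⟩, ?_⟩⟩
    · intro a b hab
      have h1 : (addVertex G N).Adj (f a) (f b) := f.toHom.map_rel' hab
      rw [hg a, hg b] at h1
      exact h1
    · intro a b hab
      apply f.injective
      show f a = f b
      rw [hg a, hg b]
      exact congrArg some hab

/-- The extremal number grows at the expected rate. -/
theorem ex_increment {W : Type} [Fintype W] (L : SimpleGraph W) (r : ℕ) (hr : 1 ≤ r)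
    (hcol : L.Colorable (r + 1)) (hnc : ¬ L.Colorable r) (η : ℝ) (hη : 0 < η) :
    ∀ᶠ n : ℕ in atTop, (extremalNumber n L : ℝ) + (1 - 1 / (r : ℝ) - η) * n ≤
      extremalNumber (n + 1) L := by
  classical
  have hLne : L ≠ ⊥ := by
    rintro rfl
    apply hnc
    exact ⟨Coloring.mk (fun _ => ⟨0, by omega⟩) (fun {a b} h => by simp at h)⟩
  obtain ⟨N₀, hN₀⟩ := exists_common r (card W) hr η hη (2 * (r : ℝ) ^ 2)
  filter_upwards [eventually_ge_atTop N₀, eventually_ge_atTop 1] with n hn hn1
  obtain ⟨G, _, hG⟩ := exists_isExtremal_free (V := Fin n) hLne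
  have hcard := card_edgeFinset_of_isExtremal_free hG
  rw [Fintype.card_fin] at hcard
  have hfree : L.Free G := hG.prop
  have hturan : #(turanGraph n r).edgeFinset ≤ extremalNumber n L := by
    have := card_edgeFinset_le_extremalNumber (turan_free L r hr hnc n)
    rwa [Fintype.card_fin] at this
  have hlow := turan_lower n r hr
  obtain ⟨Z', N', -, -, hZ', hZN, hN'⟩ := hN₀ G L hcol le_rfl univ
    (fun f => absurd ⟨f⟩ hfree) (by rw [Finset.card_univ, Fintype.card_fin]; exact hn) (by
      rw [Finset.card_univ, Fintype.card_fin, ← two_mul_card_edges]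
      have h1 : (#(turanGraph n r).edgeFinset : ℝ) ≤ #G.edgeFinset := by
        rw [hcard]; exact_mod_cast hturan
      have h2 : (1 : ℝ) ≤ n := by exact_mod_cast hn1
      have h3 : 0 ≤ (r : ℝ) ^ 2 := by positivity
      push_cast
      nlinarith)
  rw [Finset.card_univ, Fintype.card_fin] at hN'
  have h4 := card_edgeFinset_le_extremalNumber (addVertex_free L G hfree N' Z' hZ' hZN)
  rw [Fintype.card_option, Fintype.card_fin, ← addVertex_card, hcard] at h4
  have h5 : (extremalNumber n L : ℝ) + #N' ≤ extremalNumber (n + 1) L := by exact_mod_cast h4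
  linarith

/-- A graph with `ex(n; L) + 1` edges all of whose copies of `L` lie in a bounded set has large
minimum degree. -/
theorem minDegree_of_core {W : Type} [Fintype W] (L : SimpleGraph W) (r : ℕ) (hr : 1 ≤ r)
    (hcol : L.Colorable (r + 1)) (hnc : ¬ L.Colorable r) (η : ℝ) (hη : 0 < η) (d : ℕ) :
    ∀ᶠ n : ℕ in atTop, ∀ (G : SimpleGraph (Fin n)) [DecidableRel G.Adj],
      #G.edgeFinset = extremalNumber n L + 1 → ∀ D : Finset (Fin n), #D ≤ d →
      (∀ (f : Copy L G) (w : W), f w ∈ D) → ∀ x, (1 - 1 / (r : ℝ) - η) * n ≤ G.degree x := by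
  classical
  obtain ⟨N₁, hN₁⟩ := eventually_atTop.1 (ex_increment L r hr hcol hnc (η / 2) (by positivity))
  filter_upwards [eventually_ge_atTop (N₁ + 1), eventually_ge_atTop ⌈((d : ℝ) ^ 2 + 1) / (η / 2)⌉₊]
    with n hn hn2 G _ hG D hD hcore x
  by_contra hcon
  push Not at hcon
  obtain ⟨k, rfl⟩ : ∃ k, n = k + 1 := ⟨n - 1, by omega⟩
  have hinc := hN₁ k (by omega)
  -- the graph without the edges inside `D`
  set G' : SimpleGraph (Fin (k + 1)) :=
    { Adj := fun a b => G.Adj a b ∧ ¬ (a ∈ D ∧ b ∈ D)
      symm := ⟨fun a b h => ⟨h.1.symm, fun h' => h.2 ⟨h'.2, h'.1⟩⟩⟩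
      loopless := ⟨fun a h => h.1.ne rfl⟩ } with hG'
  have hG'free : L.Free G' := by
    rintro ⟨f⟩
    have hne : ∃ a b, L.Adj a b := by
      by_contra hno
      push Not at hno
      exact hnc ⟨Coloring.mk (fun _ => ⟨0, by omega⟩) (fun {a b} h => absurd h (hno a b))⟩
    obtain ⟨a, b, hab⟩ := hne
    have hle : G' ≤ G := fun a b h => h.1
    let f' : Copy L G := (Copy.ofLE _ _ hle).comp f
    have h1 : G'.Adj (f a) (f b) := f.toHom.map_rel' hab
    exact h1.2 ⟨hcore f' a, hcore f' b⟩
  have h1 : #G.edgeFinset ≤ #G'.edgeFinset + #D ^ 2 := by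
    have hsub : G.edgeFinset ⊆ G'.edgeFinset ∪ (D ×ˢ D).image (fun p => s(p.1, p.2)) := by
      intro e
      induction e using Sym2.inductionOn with | hf a b =>
      intro he
      rw [mem_edgeFinset, mem_edgeSet] at he
      rw [mem_union]
      by_cases hab : a ∈ D ∧ b ∈ D
      · right
        exact mem_image.2 ⟨(a, b), mem_product.2 hab, rfl⟩
      · left
        rw [mem_edgeFinset, mem_edgeSet]
        exact ⟨he, hab⟩
    refine (card_le_card hsub).trans ((card_union_le _ _).trans ?_)
    gcongr
    refine card_image_le.trans ?_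
    rw [card_product, pow_two]
  have h2 := card_edges_le G' {x}
  rw [Finset.sum_singleton] at h2
  have h3 : G'.degree x ≤ G.degree x := by
    rw [← card_neighborFinset_eq_degree, ← card_neighborFinset_eq_degree]
    apply card_le_card
    intro y hy
    rw [mem_neighborFinset] at hy ⊢
    exact hy.1
  have h4 : #(G'.induce ((({x} : Finset (Fin (k + 1))) : Set (Fin (k + 1)))ᶜ)).edgeFinset ≤
      extremalNumber k L := by
    have hf : L.Free (G'.induce ((({x} : Finset (Fin (k + 1))) : Set (Fin (k + 1)))ᶜ)) := by
      rintro ⟨f⟩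
      exact hG'free ⟨(Copy.induce G' _).comp f⟩
    have h5 := card_edgeFinset_le_extremalNumber hf
    have h6 : card ((((({x} : Finset (Fin (k + 1))) : Set (Fin (k + 1)))ᶜ : Set (Fin (k + 1))))) = k := by
      rw [Fintype.card_compl_set, Fintype.card_fin]
      simp
    rw [h6] at h5
    exact h5
  have h7 : extremalNumber (k + 1) L + 1 ≤ G.degree x + extremalNumber k L + d ^ 2 := by
    have : #D ^ 2 ≤ d ^ 2 := Nat.pow_le_pow_left hD 2
    omega
  have h8 : (extremalNumber (k + 1) L : ℝ) + 1 ≤ G.degree x + extremalNumber k L + d ^ 2 := by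
    exact_mod_cast h7
  have h9 : ((d : ℝ) ^ 2 + 1) ≤ (k + 1 : ℕ) * (η / 2) := by
    have : ((d : ℝ) ^ 2 + 1) / (η / 2) ≤ (k + 1 : ℕ) := (Nat.le_ceil _).trans (by exact_mod_cast hn2)
    rwa [div_le_iff₀ (by positivity)] at this
  have hr0 : (1 : ℝ) ≤ r := by exact_mod_cast hr
  have h10 : 0 ≤ 1 / (r : ℝ) := by positivity
  push_cast at h9 hcon
  nlinarith

end Pool.Agent.Helper20.Tur
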