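import Pool.Agent.Helper20.Tur.Weak
import Pool.Agent.Helper20.Tur.Inc

/-!
# The fractional free copy criterion
-/

open Finset Fintype Filter SimpleGraph Pool.Agent.Helper49.Copies

namespace Pool.Agent.Helper20.Tur

/-- Greedy choice of distinct representatives which are pairwise adjacent where required. -/
theorem greedy_choice {V W : Type} [DecidableEq V] [DecidableEq W] (G : SimpleGraph V)
    [DecidableRel G.Adj] (X : W → Finset V) (P : W → W → Prop) (hP : ∀ v w, P v w → P w v) (M : ℕ)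
    (hM : ∀ v w, P v w → ∀ x ∈ X v, #{y ∈ X w | ¬ G.Adj x y} ≤ M) (T : Finset W)
    (v₀ : V) : (∀ v ∈ T, #T * M + #T ≤ #(X v)) →
    ∃ g : W → V, (∀ v ∈ T, g v ∈ X v) ∧ (∀ v ∈ T, ∀ w ∈ T, g v = g w → v = w) ∧
      ∀ v ∈ T, ∀ w ∈ T, P v w → v ≠ w → G.Adj (g v) (g w) := by
  classical
  induction T using Finset.induction with
  | empty =>
    intro _
    exact ⟨fun _ => v₀, by simp, by simp, by simp⟩
  | insert a T ha ih =>
    intro hX
    rw [card_insert_of_notMem ha] at hX
    obtain ⟨g, hg1, hg2, hg3⟩ := ih (by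
      intro v hv
      refine le_trans ?_ (hX v (mem_insert_of_mem hv))
      have : (#T + 1) * M = #T * M + M := by ring
      omega)
    set Bad : Finset V := (T.filter (fun w => P w a)).biUnion
      (fun w => {y ∈ X a | ¬ G.Adj (g w) y}) ∪ T.image g with hBad
    have hBadcard : #Bad ≤ #T * M + #T := by
      refine (card_union_le _ _).trans (Nat.add_le_add ?_ card_image_le)
      refine (card_biUnion_le_card_mul _ _ M ?_).trans (Nat.mul_le_mul_right _ (card_filter_le _ _))
      intro w hw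
      rw [mem_filter] at hw
      exact hM w a hw.2 _ (hg1 w hw.1)
    obtain ⟨y, hy, hyBad⟩ : ∃ y ∈ X a, y ∉ Bad := by
      by_contra hcon
      push Not at hcon
      have h1 := card_le_card (show X a ⊆ Bad from hcon)
      have h2 := hX a (mem_insert_self _ _)
      have h3 : (#T + 1) * M = #T * M + M := by ring
      omega
    rw [hBad, mem_union, not_or, mem_biUnion, mem_image] at hyBad
    obtain ⟨hy1, hy2⟩ := hyBad
    push Not at hy1 hy2
    have hadj : ∀ w ∈ T, P w a → G.Adj (g w) y := by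
      intro w hw hwa
      by_contra hcon
      exact hy1 w (by rw [mem_filter]; exact ⟨hw, hwa⟩) (by rw [mem_filter]; exact ⟨hy, hcon⟩)
    have hne : ∀ w ∈ T, w ≠ a := fun w hw h => ha (h ▸ hw)
    refine ⟨fun w => if w = a then y else g w, ?_, ?_, ?_⟩
    · intro v hv
      rw [mem_insert] at hv
      rcases hv with rfl | hv
      · simp only [if_pos rfl]
        exact hy
      · simp only [if_neg (hne v hv)]
        exact hg1 v hv
    · intro v hv w hw hvw
      rw [mem_insert] at hv hw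
      rcases hv with rfl | hv
      · rcases hw with rfl | hw
        · rfl
        · simp only [if_pos rfl, if_neg (hne w hw)] at hvw
          exact absurd hvw.symm (hy2 w hw)
      · rcases hw with rfl | hw
        · simp only [if_pos rfl, if_neg (hne v hv)] at hvw
          exact absurd hvw (hy2 v hv)
        · simp only [if_neg (hne v hv), if_neg (hne w hw)] at hvw
          exact hg2 v hv w hw hvw
    · intro v hv w hw hvw hne'
      rw [mem_insert] at hv hw
      rcases hv with rfl | hv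
      · rcases hw with rfl | hw
        · exact absurd rfl hne'
        · simp only [if_pos rfl, if_neg (hne w hw)]
          exact (hadj w hw (hP _ _ hvw)).symm
      · rcases hw with rfl | hw
        · simp only [if_pos rfl, if_neg (hne v hv)]
          exact hadj v hv hvw
        · simp only [if_neg (hne v hv), if_neg (hne w hw)]
          exact hg3 v hv w hw hvw hne'

/-- The polytope of families of distributions. -/
def Poly (W : Type) [Fintype W] [DecidableEq W] (r : ℕ) (τ : ℝ) : Set (Fin r → Finset W → ℝ) :=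
  {μ | (∀ i M, 0 ≤ μ i M) ∧ (∀ i, ∑ M, μ i M = 1) ∧
    ∀ v, ∑ i, ∑ M with v ∈ M, μ i M ≤ 1 + τ}

/-- A way to move a part of `L`. -/
def Move {W : Type} (L : SimpleGraph W) {r : ℕ} (T : Finset W) (σ : W → W) (Y : W → Fin r) : Prop :=
  T.Nonempty ∧ Set.InjOn σ ((T : Set W)ᶜ) ∧
    (∀ v w, L.Adj v w → v ∉ T → w ∉ T → L.Adj (σ v) (σ w)) ∧
    (∀ v w, L.Adj v w → v ∈ T → w ∈ T → Y v ≠ Y w)

/-- The sets of special vertices which do not disturb the new place of `v`. -/
noncomputable def okSets {W : Type} [Fintype W] [DecidableEq W] (L : SimpleGraph W) (T : Finset W)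
    (σ : W → W) (v : W) : Finset (Finset W) := by
  classical
  exact {M | ∀ w, L.Adj v w → w ∉ T → σ w ∉ M}

theorem mem_okSets {W : Type} [Fintype W] [DecidableEq W] (L : SimpleGraph W) (T : Finset W)
    (σ : W → W) (v : W) (M : Finset W) :
    M ∈ okSets L T σ v ↔ ∀ w, L.Adj v w → w ∉ T → σ w ∉ M := by
  classical
  unfold okSets
  simp only [mem_filter, mem_univ, true_and]

theorem isCompact_poly (W : Type) [Fintype W] [DecidableEq W] (r : ℕ) (τ : ℝ) :
    IsCompact (Poly W r τ) := by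
  classical
  have hsub : Poly W r τ ⊆ Set.Icc 0 1 := by
    rintro μ ⟨h1, h2, -⟩
    refine ⟨fun i M => h1 i M, fun i M => ?_⟩
    have h3 := Finset.single_le_sum (f := fun M => μ i M) (fun M _ => h1 i M) (mem_univ M)
    rw [h2 i] at h3
    exact h3
  refine IsCompact.of_isClosed_subset isCompact_Icc ?_ hsub
  have e1 : IsClosed {μ : Fin r → Finset W → ℝ | ∀ i M, 0 ≤ μ i M} := by
    simp only [Set.setOf_forall]
    refine isClosed_iInter fun i => isClosed_iInter fun M => ?_
    exact isClosed_le continuous_const (by fun_prop)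
  have e2 : IsClosed {μ : Fin r → Finset W → ℝ | ∀ i, ∑ M, μ i M = 1} := by
    simp only [Set.setOf_forall]
    refine isClosed_iInter fun i => ?_
    exact isClosed_eq (by fun_prop) continuous_const
  have e3 : IsClosed {μ : Fin r → Finset W → ℝ | ∀ v, ∑ i, ∑ M with v ∈ M, μ i M ≤ 1 + τ} := by
    simp only [Set.setOf_forall]
    refine isClosed_iInter fun v => ?_
    exact isClosed_le (by fun_prop) continuous_const
  exact e1.inter (e2.inter e3)

/-- Compactness: the hypothesis holds with a uniform constant. -/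
theorem exists_delta {W : Type} [Fintype W] [DecidableEq W] (L : SimpleGraph W) (r : ℕ)
    (h : ∀ μ ∈ Poly W r 0, ∃ (T : Finset W) (σ : W → W) (Y : W → Fin r), Move L T σ Y ∧
      ∀ v ∈ T, ∃ M ∈ okSets L T σ v, 0 < μ (Y v) M) :
    ∃ δ : ℝ, 0 < δ ∧ ∀ μ ∈ Poly W r 0, ∃ (T : Finset W) (σ : W → W) (Y : W → Fin r),
      Move L T σ Y ∧ ∀ v ∈ T, δ < ∑ M ∈ okSets L T σ v, μ (Y v) M := by
  classical
  let U : ℕ → Set (Fin r → Finset W → ℝ) := fun k =>
    ⋃ (o : Finset W × (W → W) × (W → Fin r)) (_ : Move L o.1 o.2.1 o.2.2), ⋂ (v : W) (_ : v ∈ o.1),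
      {μ | 1 / ((k : ℝ) + 1) < ∑ M ∈ okSets L o.1 o.2.1 v, μ (o.2.2 v) M}
  have hmem : ∀ k μ, μ ∈ U k ↔ ∃ (T : Finset W) (σ : W → W) (Y : W → Fin r), Move L T σ Y ∧
      ∀ v ∈ T, 1 / ((k : ℝ) + 1) < ∑ M ∈ okSets L T σ v, μ (Y v) M := by
    intro k μ
    simp only [U, Set.mem_iUnion, Set.mem_iInter, Set.mem_setOf_eq, exists_prop, Prod.exists]
  have hopen : ∀ k, IsOpen (U k) := by
    intro k
    refine isOpen_iUnion fun o => isOpen_iUnion fun _ => ?_
    refine isOpen_iInter_of_finite fun v => isOpen_iInter_of_finite fun _ => ?_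
    exact isOpen_lt continuous_const (by fun_prop)
  have hcover : Poly W r 0 ⊆ ⋃ k, U k := by
    intro μ hμ
    obtain ⟨T, σ, Y, hmove, hpos⟩ := h μ hμ
    have hpos' : ∀ v ∈ T, 0 < ∑ M ∈ okSets L T σ v, μ (Y v) M := by
      intro v hv
      obtain ⟨M, hM, hM0⟩ := hpos v hv
      exact Finset.sum_pos' (fun M _ => hμ.1 _ _) ⟨M, hM, hM0⟩
    obtain ⟨ε, hε, hε'⟩ : ∃ ε : ℝ, 0 < ε ∧ ∀ v ∈ T, ε < ∑ M ∈ okSets L T σ v, μ (Y v) M := by
      obtain ⟨v, hv, hmin⟩ := exists_min_image T (fun v => ∑ M ∈ okSets L T σ v, μ (Y v) M) hmove.1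
      refine ⟨(∑ M ∈ okSets L T σ v, μ (Y v) M) / 2, half_pos (hpos' v hv), ?_⟩
      intro w hw
      exact (half_lt_self (hpos' v hv)).trans_le (hmin w hw)
    obtain ⟨k, hk⟩ := exists_nat_one_div_lt hε
    rw [Set.mem_iUnion]
    refine ⟨k, ?_⟩
    rw [hmem]
    exact ⟨T, σ, Y, hmove, fun v hv => hk.trans (hε' v hv)⟩
  have hdir : Directed (· ⊆ ·) U := by
    apply Monotone.directed_le
    intro k l hkl μ hμ
    rw [hmem] at hμ ⊢
    obtain ⟨T, σ, Y, hmove, hpos⟩ := hμ
    refine ⟨T, σ, Y, hmove, fun v hv => lt_of_le_of_lt ?_ (hpos v hv)⟩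
    apply one_div_le_one_div_of_le (by positivity)
    have : (k : ℝ) ≤ l := by exact_mod_cast hkl
    linarith
  obtain ⟨k, hk⟩ := (isCompact_poly W r 0).elim_directed_cover U hopen hcover hdir
  refine ⟨1 / ((k : ℝ) + 1), by positivity, ?_⟩
  intro μ hμ
  exact (hmem k μ).1 (hk hμ)

/-- The same for nearly admissible families. -/
theorem exists_delta_robust {W : Type} [Fintype W] [DecidableEq W] (L : SimpleGraph W) (r : ℕ)
    (h : ∀ μ ∈ Poly W r 0, ∃ (T : Finset W) (σ : W → W) (Y : W → Fin r), Move L T σ Y ∧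
      ∀ v ∈ T, ∃ M ∈ okSets L T σ v, 0 < μ (Y v) M) :
    ∃ δ : ℝ, 0 < δ ∧ δ ≤ 1 ∧ ∀ μ ∈ Poly W r δ, ∃ (T : Finset W) (σ : W → W) (Y : W → Fin r),
      Move L T σ Y ∧ ∀ v ∈ T, δ < ∑ M ∈ okSets L T σ v, μ (Y v) M := by
  classical
  obtain ⟨δ₀, hδ₀, hδ⟩ := exists_delta L r h
  set δ : ℝ := min (δ₀ / 2) 1 with hδdef
  have hδpos : 0 < δ := lt_min (by linarith) one_pos
  have hδ1 : δ ≤ 1 := min_le_right _ _
  have hδ2 : δ ≤ δ₀ / 2 := min_le_left _ _
  refine ⟨δ, hδpos, hδ1, ?_⟩
  rintro μ ⟨h1, h2, h3⟩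
  let ν : Fin r → Finset W → ℝ := fun i M => (1 - δ) * μ i M + if M = ∅ then δ else 0
  have hν : ν ∈ Poly W r 0 := by
    refine ⟨?_, ?_, ?_⟩
    · intro i M
      have h4 := mul_nonneg (sub_nonneg.2 hδ1) (h1 i M)
      show 0 ≤ (1 - δ) * μ i M + if M = ∅ then δ else 0
      split_ifs <;> linarith
    · intro i
      show ∑ M, ((1 - δ) * μ i M + if M = ∅ then δ else 0) = 1
      rw [Finset.sum_add_distrib, ← Finset.mul_sum, h2 i, Finset.sum_ite_eq' univ ∅ (fun _ => δ),
        if_pos (mem_univ _)]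
      ring
    · intro v
      have h4 : ∀ i, ∑ M with v ∈ M, ν i M = (1 - δ) * ∑ M with v ∈ M, μ i M := by
        intro i
        rw [Finset.mul_sum]
        apply Finset.sum_congr rfl
        intro M hM
        rw [mem_filter] at hM
        have hne : M ≠ ∅ := by
          rintro rfl
          exact absurd hM.2 (notMem_empty _)
        show (1 - δ) * μ i M + (if M = ∅ then δ else 0) = _
        rw [if_neg hne, add_zero]
      rw [Finset.sum_congr rfl (fun i _ => h4 i), ← Finset.mul_sum]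
      have h5 := mul_le_mul_of_nonneg_left (h3 v) (sub_nonneg.2 hδ1)
      have h6 : (1 - δ) * (1 + δ) ≤ 1 := by nlinarith
      linarith
  obtain ⟨T, σ, Y, hmove, hT⟩ := hδ ν hν
  refine ⟨T, σ, Y, hmove, ?_⟩
  intro v hv
  have h4 := hT v hv
  have h5 : ∑ M ∈ okSets L T σ v, ν (Y v) M ≤ ∑ M ∈ okSets L T σ v, μ (Y v) M + δ := by
    have h6 : ∑ M ∈ okSets L T σ v, ν (Y v) M = (1 - δ) * ∑ M ∈ okSets L T σ v, μ (Y v) M +
        ∑ M ∈ okSets L T σ v, if M = ∅ then δ else 0 := by
      show ∑ M ∈ okSets L T σ v, ((1 - δ) * μ (Y v) M + if M = ∅ then δ else 0) = _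
      rw [Finset.sum_add_distrib, ← Finset.mul_sum]
    have h7 : ∑ M ∈ okSets L T σ v, (if M = ∅ then δ else 0) ≤ δ := by
      rw [Finset.sum_ite_eq' (okSets L T σ v) ∅ (fun _ => δ)]
      split_ifs <;> linarith
    have h8 : 0 ≤ ∑ M ∈ okSets L T σ v, μ (Y v) M := Finset.sum_nonneg (fun M _ => h1 _ _)
    rw [h6]
    nlinarith
  linarith

theorem card_fiber_mem {V W : Type} [Fintype V] [DecidableEq V] [Fintype W] [DecidableEq W]
    (X : Finset V) (N : V → Finset W) (S : Finset (Finset W)) :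
    ∑ M ∈ S, #{y ∈ X | N y = M} = #{y ∈ X | N y ∈ S} := by
  classical
  rw [Finset.card_eq_sum_card_fiberwise (s := {y ∈ X | N y ∈ S}) (t := S) (f := N) (by
    intro y hy
    rw [mem_coe, mem_filter] at hy
    exact hy.2)]
  apply Finset.sum_congr rfl
  intro M hM
  congr 1
  ext y
  rw [mem_filter, mem_filter, mem_filter]
  constructor
  · rintro ⟨h1, h2⟩
    exact ⟨⟨h1, h2 ▸ hM⟩, h2⟩
  · rintro ⟨⟨h1, -⟩, h2⟩
    exact ⟨h1, h2⟩

/-- The fractional free copy criterion. -/
theorem tendsto_frac {W : Type} [Fintype W] [DecidableEq W] (L : SimpleGraph W) (r : ℕ)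
    (hr : 2 ≤ r) (hcol : L.Colorable (r + 1)) (hnc : ¬ L.Colorable r)
    (h : ∀ μ ∈ Poly W r 0, ∃ (T : Finset W) (σ : W → W) (Y : W → Fin r), Move L T σ Y ∧
      ∀ v ∈ T, ∃ M ∈ okSets L T σ v, 0 < μ (Y v) M) :
    Tendsto (fun n => minCopies n L) atTop atTop := by
  classical
  have hr1 : 1 ≤ r := by omega
  have hrR : (1 : ℝ) ≤ r := by exact_mod_cast hr1
  have hneW : Nonempty W := by
    by_contra hcon
    rw [not_nonempty_iff] at hcon
    apply hnc
    exact ⟨Coloring.mk (fun w => (hcon.false w).elim) (fun {a} => (hcon.false a).elim)⟩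
  have hLne : L ≠ ⊥ := by
    rintro rfl
    apply hnc
    exact ⟨Coloring.mk (fun _ => ⟨0, by omega⟩) (fun {a b} h => by simp at h)⟩
  obtain ⟨δ, hδ0, hδ1, hδ⟩ := exists_delta_robust L r h
  apply tendsto_minCopies_of L hLne
  intro d
  set m := card W with hm
  have hm1 : 0 < m := Fintype.card_pos
  have hmR : (1 : ℝ) ≤ m := by exact_mod_cast hm1
  set lam : ℝ := δ / (8 * r * m) with hlam
  have hlam0 : 0 < lam := by positivity
  have hlamr : 8 * (r * m) * lam = δ := by
    rw [hlam]; field_simp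
  have hlam1 : 8 * r * lam ≤ δ := by
    have h1 : 8 * (r : ℝ) * lam ≤ 8 * (r * m) * lam := by
      apply mul_le_mul_of_nonneg_right _ hlam0.le
      nlinarith
    linarith
  have hlam2 : 8 * lam ≤ 1 / r := by
    rw [le_div_iff₀ (by linarith)]
    nlinarith
  obtain ⟨η₁, hη₁, hstr⟩ := weak_structure L r hr1 hcol lam hlam0
  set η : ℝ := min η₁ lam with hη
  have hη0 : 0 < η := lt_min hη₁ hlam0
  have hηη₁ : η ≤ η₁ := min_le_left _ _
  have hηlam : η ≤ lam := min_le_right _ _
  filter_upwards [minDegree_of_core L r hr1 hcol hnc η hη0 d, hstr d,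
    eventually_ge_atTop ⌈8 * (r : ℝ) * m / δ⌉₊, eventually_gt_atTop 0]
    with n hdeg hstr' hn hnpos G _ hG D hD hcore
  have hdeg' := hdeg G hG D hD hcore
  have hn0 : (0 : ℝ) < n := by exact_mod_cast hnpos
  obtain ⟨Vc, hV1, hV2, hV3, hV4⟩ := hstr' G (fun x => le_trans (by
    have : (1 - 1 / (r : ℝ) - η₁) ≤ (1 - 1 / (r : ℝ) - η) := by linarith
    exact mul_le_mul_of_nonneg_right this hn0.le) (hdeg' x)) D hD hcore
  obtain ⟨f₀⟩ := copy_of_extremal hG
  -- sizes
  have hVpos : ∀ i, (0 : ℝ) < #(Vc i) := by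
    intro i
    have h1 := hV3 i
    have h2 : 0 < (1 / (r : ℝ) - lam) * n := by
      apply mul_pos _ hn0
      have : 0 < 1 / (r : ℝ) := by positivity
      linarith
    linarith
  -- the special vertices missed by a typical vertex
  let N : Fin n → Finset W := fun y => {w | ¬ G.Adj (f₀ w) y}
  let μ : Fin r → Finset W → ℝ := fun i M => (#{y ∈ Vc i | N y = M} : ℝ) / #(Vc i)
  have hμsum : ∀ i (S : Finset (Finset W)), ∑ M ∈ S, μ i M = (#{y ∈ Vc i | N y ∈ S} : ℝ) / #(Vc i) := by
    intro i S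
    show ∑ M ∈ S, (#{y ∈ Vc i | N y = M} : ℝ) / #(Vc i) = _
    rw [← Finset.sum_div, ← card_fiber_mem (Vc i) N S]
    push_cast
    rfl
  have hμ : μ ∈ Poly W r δ := by
    refine ⟨fun i M => div_nonneg (Nat.cast_nonneg _) (Nat.cast_nonneg _), ?_, ?_⟩
    · intro i
      rw [hμsum i univ]
      have : ({y ∈ Vc i | N y ∈ (univ : Finset (Finset W))} : Finset (Fin n)) = Vc i := by
        ext y
        simp
      rw [this]
      exact div_self (hVpos i).ne'
    · intro v
      have h1 : ∀ i, ∑ M with v ∈ M, μ i M ≤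
          (#{y ∈ Vc i | ¬ G.Adj (f₀ v) y} : ℝ) / ((1 / (r : ℝ) - lam) * n) := by
        intro i
        rw [hμsum]
        have h2 : ({y ∈ Vc i | N y ∈ ({M | v ∈ M} : Finset (Finset W))} : Finset (Fin n)) =
            {y ∈ Vc i | ¬ G.Adj (f₀ v) y} := by
          ext y
          simp [N]
        rw [h2]
        apply div_le_div_of_nonneg_left (Nat.cast_nonneg _) _ (hV3 i)
        apply mul_pos _ hn0
        have : 0 < 1 / (r : ℝ) := by positivity
        linarith
      refine (Finset.sum_le_sum (fun i _ => h1 i)).trans ?_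
      rw [← Finset.sum_div, div_le_iff₀ (by
        apply mul_pos _ hn0
        have : 0 < 1 / (r : ℝ) := by positivity
        linarith)]
      have h3 : ∑ i, #{y ∈ Vc i | ¬ G.Adj (f₀ v) y} + G.degree (f₀ v) ≤ n := by
        rw [← card_neighborFinset_eq_degree, ← Finset.card_biUnion, ← card_union_of_disjoint]
        · refine (card_le_univ _).trans ?_
          rw [Fintype.card_fin]
        · rw [Finset.disjoint_left]
          intro y hy hy'
          rw [mem_biUnion] at hy
          obtain ⟨i, -, hi⟩ := hy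
          rw [mem_filter] at hi
          rw [mem_neighborFinset] at hy'
          exact hi.2 hy'
        · intro i _ l _ hil
          rw [Function.onFun, Finset.disjoint_left]
          intro y hy hy'
          rw [mem_filter] at hy hy'
          exact (Finset.disjoint_left.1 (hV1 i l hil)) hy.1 hy'.1
      have h4 : (∑ i, (#{y ∈ Vc i | ¬ G.Adj (f₀ v) y} : ℝ)) + G.degree (f₀ v) ≤ n := by
        exact_mod_cast h3
      have h5 := hdeg' (f₀ v)
      have h6 : (1 - 1 / (r : ℝ) - η) * n = n - (1 / r + η) * n := by ring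
      rw [h6] at h5
      have h7 : (1 / (r : ℝ) + η) ≤ (1 + δ) * (1 / (r : ℝ) - lam) := by
        have e1 : 8 * lam ≤ δ * (1 / r) := by
          have e2 : 8 * lam = (8 * r * lam) * (1 / r) := by field_simp
          rw [e2]
          exact mul_le_mul_of_nonneg_right hlam1 (by positivity)
        have e3 : δ * lam ≤ lam := mul_le_of_le_one_left hlam0.le hδ1
        nlinarith
      have h8 := mul_le_mul_of_nonneg_right h7 hn0.le
      linarith
  obtain ⟨T, σ, Y, ⟨hT0, hT1, hT2, hT3⟩, hT⟩ := hδ μ hμ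
  -- the places for the moved vertices
  let X : W → Finset (Fin n) := fun v => {y ∈ Vc (Y v) | N y ∈ okSets L T σ v}
  have hXok : ∀ v y, y ∈ X v → ∀ w, L.Adj v w → w ∉ T → G.Adj (f₀ (σ w)) y := by
    intro v y hy w hvw hw
    simp only [X, okSets, mem_filter] at hy
    have h1 := hy.2.2 w hvw hw
    simp only [N, mem_filter] at h1
    by_contra hcon
    exact h1 ⟨mem_univ _, hcon⟩
  have hXcard : ∀ v ∈ T, #T * ⌊lam * n⌋₊ + #T ≤ #(X v) := by
    intro v hv
    have h1 := hT v hv
    rw [hμsum, lt_div_iff₀ (hVpos _)] at h1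
    have h2 : δ * ((1 / (r : ℝ) - lam) * n) ≤ #(X v) :=
      (mul_le_mul_of_nonneg_left (hV3 (Y v)) hδ0.le).trans h1.le
    have h3 : ((#T * ⌊lam * n⌋₊ + #T : ℕ) : ℝ) ≤ #(X v) := by
      refine le_trans ?_ h2
      push_cast
      have hTm : (#T : ℝ) ≤ m := by
        have := card_le_univ T
        exact_mod_cast this
      have h4 : (⌊lam * n⌋₊ : ℝ) ≤ lam * n := Nat.floor_le (by positivity)
      have h5 : (#T : ℝ) * ⌊lam * n⌋₊ ≤ m * (lam * n) :=
        mul_le_mul hTm h4 (Nat.cast_nonneg _) (Nat.cast_nonneg _)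
      have h6 : 8 * (r : ℝ) * m ≤ n * δ := by
        have : 8 * (r : ℝ) * m / δ ≤ n := (Nat.le_ceil _).trans (by exact_mod_cast hn)
        rwa [div_le_iff₀ hδ0] at this
      have h7 : (m : ℝ) ≤ δ * (1 / (8 * r)) * n := by
        have e1 : δ * (1 / (8 * r)) * n = (n * δ) / (8 * r) := by ring
        rw [e1, le_div_iff₀ (by positivity)]
        linarith
      have h8 : (m : ℝ) * (lam * n) = δ * (1 / (8 * r)) * n := by
        have e1 : (m : ℝ) * lam = δ * (1 / (8 * r)) := by
          rw [hlam]; field_simp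
        calc (m : ℝ) * (lam * n) = (m * lam) * n := by ring
          _ = _ := by rw [e1]
      have h9 : δ * (1 / (8 * r)) * n + δ * (1 / (8 * r)) * n ≤ δ * ((1 / (r : ℝ) - lam) * n) := by
        have e1 : 1 / (8 * (r : ℝ)) = (1 / r) / 8 := by field_simp
        have e2 : δ * (1 / (8 * (r : ℝ))) * n + δ * (1 / (8 * r)) * n = δ * (((1 / r) / 4) * n) := by
          rw [e1]; ring
        rw [e2]
        apply mul_le_mul_of_nonneg_left _ hδ0.le
        apply mul_le_mul_of_nonneg_right _ hn0.le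
        have : 0 < 1 / (r : ℝ) := by positivity
        linarith
      linarith
    exact_mod_cast h3
  obtain ⟨g, hg1, hg2, hg3⟩ := greedy_choice G X (fun v w => Y v ≠ Y w) (fun v w h => h.symm)
    ⌊lam * n⌋₊ (by
      intro v w hvw x hx
      simp only [X, mem_filter] at hx
      apply Nat.le_floor
      refine le_trans ?_ (hV4 (Y v) (Y w) hvw x hx.1)
      have : #{y ∈ X w | ¬ G.Adj x y} ≤ #{y ∈ Vc (Y w) | ¬ G.Adj x y} := by
        apply card_le_card
        intro y hy
        simp only [X, mem_filter] at hy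
        rw [mem_filter]
        exact ⟨hy.1.1, hy.2⟩
      exact_mod_cast this) T ⟨0, hnpos⟩ hXcard
  have hgD : ∀ v ∈ T, g v ∉ D := by
    intro v hv
    have := hg1 v hv
    simp only [X, mem_filter] at this
    exact hV2 _ _ this.1
  -- the new copy
  obtain ⟨t, ht⟩ := hT0
  have hcopy : ∃ f : Copy L G, f t = g t := by
    refine ⟨⟨⟨fun v => if v ∈ T then g v else f₀ (σ v), ?_⟩, ?_⟩, ?_⟩
    · intro v w hvw
      by_cases hv : v ∈ T
      · by_cases hw : w ∈ T
        · simp only [if_pos hv, if_pos hw]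
          exact hg3 v hv w hw (hT3 v w hvw hv hw) hvw.ne
        · simp only [if_pos hv, if_neg hw]
          exact (hXok v (g v) (hg1 v hv) w hvw hw).symm
      · by_cases hw : w ∈ T
        · simp only [if_neg hv, if_pos hw]
          exact hXok w (g w) (hg1 w hw) v hvw.symm hv
        · simp only [if_neg hv, if_neg hw]
          exact f₀.toHom.map_rel' (hT2 v w hvw hv hw)
    · intro v w hvw
      have hvw' : (if v ∈ T then g v else f₀ (σ v)) = if w ∈ T then g w else f₀ (σ w) := hvw
      by_cases hv : v ∈ T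
      · by_cases hw : w ∈ T
        · rw [if_pos hv, if_pos hw] at hvw'
          exact hg2 v hv w hw hvw'
        · rw [if_pos hv, if_neg hw] at hvw'
          exact absurd (hvw' ▸ hcore f₀ (σ w)) (hgD v hv)
      · by_cases hw : w ∈ T
        · rw [if_neg hv, if_pos hw] at hvw'
          exact absurd (hvw'.symm ▸ hcore f₀ (σ v)) (hgD w hw)
        · rw [if_neg hv, if_neg hw] at hvw'
          exact hT1 (by simpa using hv) (by simpa using hw) (f₀.injective hvw')
    · show (if t ∈ T then g t else f₀ (σ t)) = g t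
      rw [if_pos ht]
  obtain ⟨f, hf⟩ := hcopy
  have h1 := hcore f t
  rw [hf] at h1
  exact hgD t ht h1

end Pool.Agent.Helper20.Tur
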