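import Pool.Agent.Helper20.Tur.Config

/-!
# Inner degrees are smaller than the number of monochromatic edges of an apex colouring
-/

open Finset Fintype Filter SimpleGraph Pool.Agent.Helper49.Copies

namespace Pool.Agent.Helper20.Tur

/-- If `c₀` is proper on `L - u` with `s` monochromatic edges at `u`, and `G` is nearly complete
multipartite with respect to `j` and all its copies of `L` lie in a small set `D`, then every
vertex has fewer than `s` neighbours in its own class. -/
theorem inner_lt {n r : ℕ} {W : Type} [Fintype W] [DecidableEq W] (L : SimpleGraph W)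
    [DecidableRel L.Adj] (hr : 2 ≤ r) (hnc : ¬ L.Colorable r) (u : W) (c₀ : W → Fin r)
    (hc₀ : ∀ a b, L.Adj a b → a ≠ u → b ≠ u → c₀ a ≠ c₀ b)
    (G : SimpleGraph (Fin n)) [DecidableRel G.Adj] (j : Fin n → Fin r) (M : ℕ)
    (hmiss : ∀ x l, l ≠ j x → #{y | j y = l ∧ ¬ G.Adj x y} ≤ M) (D : Finset (Fin n))
    (hcore : ∀ (f : Copy L G) (w : W), f w ∈ D)
    (hsize : ∀ l, r * card W * M + card W + card W * M + (#D + card W) ≤ #{y | j y = l})
    (x : Fin n) : #{y | j y = j x ∧ G.Adj x y} < #{v | L.Adj u v ∧ c₀ v = c₀ u} := by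
  classical
  by_contra hcon
  push Not at hcon
  set T : Finset W := {v | L.Adj u v ∧ c₀ v = c₀ u} with hT
  obtain ⟨Y, hYsub, hYcard⟩ := exists_subset_card_eq hcon
  have e : T ≃ Y := Fintype.equivOfCardEq (by rw [Fintype.card_coe, Fintype.card_coe, hYcard])
  have huT : u ∉ T := by
    rw [hT, mem_filter]
    rintro ⟨-, h, -⟩
    exact h.ne rfl
  have hxY : x ∉ Y := by
    intro h
    have := hYsub h
    rw [mem_filter] at this
    exact this.2.2.ne rfl
  let P : Set W := {w | w = u ∨ w ∈ T}
  have hnot : ∃ w, w ∉ P := by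
    by_contra h
    push Not at h
    apply hnc
    refine ⟨Coloring.mk (fun w => if w = u then ⟨0, by omega⟩ else ⟨1, by omega⟩) ?_⟩
    intro a b hab hcol
    by_cases ha : a = u
    · have hb : b ≠ u := fun hb => hab.ne (ha.trans hb.symm)
      simp [ha, hb] at hcol
    · by_cases hb : b = u
      · simp [ha, hb] at hcol
      · have ha' := (h a).resolve_left ha
        have hb' := (h b).resolve_left hb
        rw [hT, mem_filter] at ha' hb'
        exact hc₀ a b hab ha hb (ha'.2.2.trans hb'.2.2.symm)
  obtain ⟨w₀, hw₀⟩ := hnot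
  let g : P → Fin n := fun w => if h : (w : W) ∈ T then (e ⟨w, h⟩ : Fin n) else x
  have hg1 : ∀ (w : P) (h : (w : W) ∈ T), g w = (e ⟨w, h⟩ : Fin n) := fun w h => dif_pos h
  have hg2 : ∀ (w : P), (w : W) ∉ T → g w = x := fun w h => dif_neg h
  have hPu : ∀ w : P, (w : W) ∉ T → (w : W) = u := fun w h => w.2.resolve_right h
  set F : Finset (Fin n) := D ∪ univ.image g with hF
  have hFcard : #F ≤ #D + card W := by
    refine (card_union_le _ _).trans ?_
    have h1 : #(univ.image g) ≤ card W := by
      refine card_image_le.trans ?_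
      rw [Finset.card_univ]
      exact Fintype.card_subtype_le _
    omega
  have hPcard : card P ≤ card W := Fintype.card_subtype_le _
  obtain ⟨h, -, hh⟩ := transfer (L.induce P) (fun _ => j x) (card W) G j M hmiss F g
    (fun a => mem_union_right _ (mem_image_of_mem _ (mem_univ a))) (by
      intro l
      have h1 := hsize l
      have h2 : card P * M ≤ card W * M := Nat.mul_le_mul_right _ hPcard
      omega) (by
      intro a b hab
      by_cases ha : (a : W) ∈ T
      · by_cases hb : (b : W) ∈ T
        · rw [hg1 a ha, hg1 b hb] at hab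
          have := e.injective (Subtype.ext hab)
          exact Subtype.ext (Subtype.mk.inj this)
        · rw [hg1 a ha, hg2 b hb] at hab
          exact absurd (hab ▸ (e ⟨a, ha⟩).2) hxY
      · by_cases hb : (b : W) ∈ T
        · rw [hg2 a ha, hg1 b hb] at hab
          exact absurd (hab.symm ▸ (e ⟨b, hb⟩).2) hxY
        · exact Subtype.ext ((hPu a ha).trans (hPu b hb).symm)) (by
      intro a b hab
      have hab' : L.Adj (a : W) (b : W) := hab
      have hY : ∀ (v : W) (hv : v ∈ T), G.Adj x (e ⟨v, hv⟩ : Fin n) := by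
        intro v hv
        have := hYsub (e ⟨v, hv⟩).2
        rw [mem_filter] at this
        exact this.2.2
      by_cases ha : (a : W) ∈ T
      · by_cases hb : (b : W) ∈ T
        · exfalso
          have ha1 := ha
          have hb1 := hb
          rw [hT, mem_filter] at ha1 hb1
          exact hc₀ a b hab' ha1.2.1.ne.symm hb1.2.1.ne.symm (ha1.2.2.trans hb1.2.2.symm)
        · rw [hg1 a ha, hg2 b hb]
          exact (hY _ ha).symm
      · by_cases hb : (b : W) ∈ T
        · rw [hg2 a ha, hg1 b hb]
          exact hY _ hb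
        · exfalso
          exact hab'.ne ((hPu a ha).trans (hPu b hb).symm)) (by
      intro a
      by_cases ha : (a : W) ∈ T
      · rw [hg1 a ha]
        have := hYsub (e ⟨a, ha⟩).2
        rw [mem_filter] at this
        exact this.2.1
      · rw [hg2 a ha])
  -- the copy of `L` in the extension
  let π := Equiv.swap (c₀ u) (j x)
  have hπ : ∀ w, c₀ w ≠ c₀ u → j x ≠ π (c₀ w) := by
    intro w hw heq
    apply hw
    have h1 : π (c₀ u) = j x := Equiv.swap_apply_left _ _
    exact π.injective (heq.symm.trans h1.symm)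
  have ew := Fintype.equivFin W
  have hcopy : ∃ f : Copy L (extend (L.induce P) (fun _ => j x) (card W)),
      (f w₀) = Sum.inr (π (c₀ w₀), ew w₀) := by
    refine ⟨⟨⟨fun w => if hw : w ∈ P then Sum.inl ⟨w, hw⟩ else Sum.inr (π (c₀ w), ew w), ?_⟩, ?_⟩, ?_⟩
    · intro a b hab
      have hne : ∀ a b, L.Adj a b → a ∈ P → b ∉ P → c₀ b ≠ c₀ a ∧ c₀ a = c₀ u := by
        intro a b hab ha hb
        rcases ha with ha | ha
        · subst ha
          refine ⟨?_, rfl⟩
          intro h
          apply hb
          right
          rw [hT, mem_filter]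
          exact ⟨mem_univ _, hab, h⟩
        · rw [hT, mem_filter] at ha
          refine ⟨?_, ha.2.2⟩
          exact (hc₀ a b hab ha.2.1.ne.symm (fun h => hb (Or.inl h))).symm
      by_cases ha : a ∈ P
      · by_cases hb : b ∈ P
        · simp only [dif_pos ha, dif_pos hb]
          exact hab
        · simp only [dif_pos ha, dif_neg hb]
          obtain ⟨h1, h2⟩ := hne a b hab ha hb
          exact hπ b (by rw [← h2]; exact h1)
      · by_cases hb : b ∈ P
        · simp only [dif_neg ha, dif_pos hb]
          obtain ⟨h1, h2⟩ := hne b a hab.symm hb ha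
          exact hπ a (by rw [← h2]; exact h1)
        · simp only [dif_neg ha, dif_neg hb]
          have h1 := hc₀ a b hab (fun h => ha (Or.inl h)) (fun h => hb (Or.inl h))
          exact fun h => h1 (π.injective h)
    · intro a b hab
      have hab' : (if hw : a ∈ P then (Sum.inl ⟨a, hw⟩ : P ⊕ (Fin r × Fin (card W))) else
        Sum.inr (π (c₀ a), ew a)) = if hw : b ∈ P then Sum.inl ⟨b, hw⟩ else
        Sum.inr (π (c₀ b), ew b) := hab
      by_cases ha : a ∈ P
      · by_cases hb : b ∈ P
        · rw [dif_pos ha, dif_pos hb] at hab'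
          exact congrArg Subtype.val (Sum.inl_injective hab')
        · rw [dif_pos ha, dif_neg hb] at hab'
          exact absurd hab' (by simp)
      · by_cases hb : b ∈ P
        · rw [dif_neg ha, dif_pos hb] at hab'
          exact absurd hab' (by simp)
        · rw [dif_neg ha, dif_neg hb] at hab'
          exact ew.injective (Prod.ext_iff.1 (Sum.inr_injective hab')).2
    · show (if hw : w₀ ∈ P then (Sum.inl ⟨w₀, hw⟩ : P ⊕ (Fin r × Fin (card W))) else
        Sum.inr (π (c₀ w₀), ew w₀)) = _
      rw [dif_neg hw₀]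
  obtain ⟨f, hf⟩ := hcopy
  have h1 := hcore (h.comp f) w₀
  have h2 : (h.comp f) w₀ = h (Sum.inr (π (c₀ w₀), ew w₀)) := by
    show h (f w₀) = _
    rw [hf]
  rw [h2] at h1
  exact hh _ (mem_union_left _ h1)

end Pool.Agent.Helper20.Tur
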