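import Pool.Agent.Helper20.Tur.Embed

/-!
# A piece attached to few vertices can be moved
-/

open Finset Fintype Filter

namespace Pool.Agent.Helper20.Tur

open SimpleGraph Pool.Agent.Helper49.Copies

theorem card_nonadj_le {V : Type} [Fintype V] [DecidableEq V] (G : SimpleGraph V)
    [DecidableRel G.Adj] (x : V) (X : Finset V) : #{y ∈ X | ¬ G.Adj x y} + G.degree x ≤ card V := by
  classical
  rw [← card_neighborFinset_eq_degree, ← card_union_of_disjoint]
  · exact card_le_univ _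
  · rw [Finset.disjoint_left]
    intro y hy hy'
    rw [mem_filter] at hy
    rw [mem_neighborFinset] at hy'
    exact hy.2 hy'

theorem piece_real1 {r q n a b c x : ℝ} (hr : 1 ≤ r) (hq : 1 ≤ q) (hqr : q ≤ r) (hn : 0 ≤ n)
    (hb : b + 1 ≤ r - q) (hb0 : 0 ≤ b)
    (hx : x = (1 / r + 1 / (16 * r ^ 3)) * n) (hna : 32 * r ^ 2 * a ≤ n)
    (hc : n - a - b * x - x ≤ c) : x ≤ (1 / q + 1 / (2 * q ^ 2)) * c := by
  have hr0 : 0 < r := by linarith
  have hq0 : 0 < q := by linarith
  -- lower bound for c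
  have h1 : (b + 1) * x ≤ (r - q) * x := by
    apply mul_le_mul_of_nonneg_right hb
    rw [hx]
    positivity
  have h2 : n * (q / r - 1 / (16 * r ^ 2)) - a ≤ c := by
    have h3 : (r - q) * x ≤ n - n * (q / r - 1 / (16 * r ^ 2)) := by
      rw [hx]
      have h4 : (r - q) * ((1 / r + 1 / (16 * r ^ 3)) * n) =
          n - n * (q / r - 1 / (16 * r ^ 2)) - q * (1 / (16 * r ^ 3)) * n := by
        field_simp
        ring
      rw [h4]
      have : 0 ≤ q * (1 / (16 * r ^ 3)) * n := by positivity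
      linarith
    nlinarith
  have h5 : a ≤ n * (1 / (32 * r ^ 2)) := by
    rw [mul_one_div, le_div_iff₀ (by positivity)]
    linarith
  have h6 : n * (q / r - 3 / (32 * r ^ 2)) ≤ c := by
    have h7 : n * (q / r - 3 / (32 * r ^ 2)) = n * (q / r - 1 / (16 * r ^ 2)) -
        n * (1 / (32 * r ^ 2)) := by
      field_simp
      ring
    rw [h7]
    linarith
  have hq2 : 0 ≤ 1 / q + 1 / (2 * q ^ 2) := by positivity
  have h8 : (1 / q + 1 / (2 * q ^ 2)) * (n * (q / r - 3 / (32 * r ^ 2))) ≤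
      (1 / q + 1 / (2 * q ^ 2)) * c := mul_le_mul_of_nonneg_left h6 hq2
  refine le_trans ?_ h8
  rw [hx]
  have h9 : (1 / r + 1 / (16 * r ^ 3)) ≤ (1 / q + 1 / (2 * q ^ 2)) * (q / r - 3 / (32 * r ^ 2)) := by
    have e1 : (1 / q + 1 / (2 * q ^ 2)) * (q / r - 3 / (32 * r ^ 2)) =
        1 / r + 1 / (2 * q * r) - (1 / q + 1 / (2 * q ^ 2)) * (3 / (32 * r ^ 2)) := by
      field_simp
    rw [e1]
    have e2 : 1 / (2 * r * r) ≤ 1 / (2 * q * r) := by
      apply one_div_le_one_div_of_le (by positivity)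
      have : q * r ≤ r * r := mul_le_mul_of_nonneg_right hqr hr0.le
      nlinarith
    have e3 : 1 / q + 1 / (2 * q ^ 2) ≤ 3 / 2 := by
      have : 1 / q ≤ 1 := by rw [div_le_one hq0]; exact hq
      have h' : 1 / (2 * q ^ 2) ≤ 1 / 2 := by
        apply one_div_le_one_div_of_le (by norm_num)
        nlinarith
      linarith
    have e4 : (1 / q + 1 / (2 * q ^ 2)) * (3 / (32 * r ^ 2)) ≤ 3 / 2 * (3 / (32 * r ^ 2)) :=
      mul_le_mul_of_nonneg_right e3 (by positivity)
    have e5 : 1 / (16 * r ^ 3) ≤ 1 / (16 * r ^ 2) := by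
      apply one_div_le_one_div_of_le (by positivity)
      have : r ^ 2 ≤ r ^ 3 := pow_le_pow_right₀ hr (by norm_num)
      linarith
    have e6 : 1 / (2 * r * r) = 32 * (1 / (64 * r ^ 2)) := by
      field_simp
      norm_num
    have e7 : 3 / 2 * (3 / (32 * r ^ 2)) = 9 * (1 / (64 * r ^ 2)) := by
      field_simp
      norm_num
    have e8 : 1 / (16 * r ^ 2) = 4 * (1 / (64 * r ^ 2)) := by
      field_simp
      norm_num
    have e9 : 0 < 1 / (64 * r ^ 2) := by positivity
    linarith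
  calc (1 / r + 1 / (16 * r ^ 3)) * n ≤
      ((1 / q + 1 / (2 * q ^ 2)) * (q / r - 3 / (32 * r ^ 2))) * n :=
        mul_le_mul_of_nonneg_right h9 hn
    _ = _ := by ring

theorem piece_real2 {r q n a b c x m t R K : ℝ} (hr : 1 ≤ r) (hq : 1 ≤ q) (hqr : q + 1 ≤ r) (hn : 0 ≤ n)
    (hb : b + 1 ≤ r - q) (hb0 : 0 ≤ b)
    (hx : x = (1 / r + 1 / (16 * r ^ 3)) * n) (ha : 0 ≤ a) (hna : 32 * r ^ 2 * a ≤ n)
    (hc : n - a - b * x ≤ c) (hc' : c ≤ n) (hm : 0 ≤ m) (ht : 4 * r * m ≤ t) (ht0 : 0 < t) (hK : 0 ≤ K)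
    (hKn : 8 * r ^ 2 * K ≤ n)
    (hR : q * t * c ≤ R * (q * t) + c * ((q - 1) * t + m) + q * t * x) : K ≤ R := by
  have hr0 : 0 < r := by linarith
  have hq0 : 0 < q := by linarith
  have h1 : b * x ≤ (r - q - 1) * x := by
    apply mul_le_mul_of_nonneg_right (by linarith)
    rw [hx]
    positivity
  have h2 : n * ((q + 1) / r - 1 / (16 * r ^ 2)) - a ≤ c := by
    have h3 : (r - q - 1) * x ≤ n - n * ((q + 1) / r - 1 / (16 * r ^ 2)) := by
      rw [hx]
      have h4 : (r - q - 1) * ((1 / r + 1 / (16 * r ^ 3)) * n) =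
          n - n * ((q + 1) / r - 1 / (16 * r ^ 2)) - (q + 1) * (1 / (16 * r ^ 3)) * n := by
        field_simp
        ring
      rw [h4]
      have : 0 ≤ (q + 1) * (1 / (16 * r ^ 3)) * n := by positivity
      linarith
    linarith
  have h5 : a ≤ n * (1 / (32 * r ^ 2)) := by
    rw [mul_one_div, le_div_iff₀ (by positivity)]
    linarith
  -- divide by t
  have h6 : t * c ≤ R * (q * t) + c * m + q * t * x := by nlinarith
  have h7 : c * m ≤ n * (t / (4 * r)) := by
    have e1 : m ≤ t / (4 * r) := by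
      rw [le_div_iff₀ (by positivity)]
      linarith
    have e2 : c * m ≤ n * m := mul_le_mul_of_nonneg_right hc' hm
    have e3 : n * m ≤ n * (t / (4 * r)) := mul_le_mul_of_nonneg_left e1 hn
    linarith
  have h8 : t * c ≤ t * (R * q + n * (1 / (4 * r)) + q * x) := by
    have : n * (t / (4 * r)) = t * (n * (1 / (4 * r))) := by field_simp
    nlinarith
  have h9 : c ≤ R * q + n * (1 / (4 * r)) + q * x := le_of_mul_le_mul_left h8 ht0
  have h10 : q * x ≤ n * (q / r) + n * (1 / (16 * r ^ 2)) := by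
    rw [hx]
    have e1 : q * ((1 / r + 1 / (16 * r ^ 3)) * n) = n * (q / r) + n * (q * (1 / (16 * r ^ 3))) := by
      ring
    rw [e1]
    have e2 : q * (1 / (16 * r ^ 3)) ≤ 1 / (16 * r ^ 2) := by
      rw [mul_one_div, div_le_div_iff₀ (by positivity) (by positivity)]
      have : q * r ^ 2 ≤ r * r ^ 2 := mul_le_mul_of_nonneg_right (by linarith) (by positivity)
      nlinarith
    have := mul_le_mul_of_nonneg_left e2 hn
    linarith
  have h11 : n * (1 / (2 * r)) ≤ R * q := by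
    have e1 : n * ((q + 1) / r - 1 / (16 * r ^ 2)) = n * (q / r) + n * (1 / r) -
        n * (1 / (16 * r ^ 2)) := by
      field_simp
    have e2 : n * (1 / (16 * r ^ 2)) ≤ n * (1 / (16 * r)) := by
      apply mul_le_mul_of_nonneg_left _ hn
      apply one_div_le_one_div_of_le (by positivity)
      nlinarith
    have e3 : n * (1 / (32 * r ^ 2)) ≤ n * (1 / (32 * r)) := by
      apply mul_le_mul_of_nonneg_left _ hn
      apply one_div_le_one_div_of_le (by positivity)
      nlinarith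
    have e4 : n * (1 / r) = 32 * (n * (1 / (32 * r))) := by field_simp
    have e5 : n * (1 / (16 * r)) = 2 * (n * (1 / (32 * r))) := by field_simp; ring
    have e6 : n * (1 / (4 * r)) = 8 * (n * (1 / (32 * r))) := by field_simp; ring
    have e7 : n * (1 / (2 * r)) = 16 * (n * (1 / (32 * r))) := by field_simp; ring
    have e8 : 0 ≤ n * (1 / (32 * r)) := by positivity
    rw [e1] at h2
    linarith
  by_contra hlt
  push Not at hlt
  have h12 : R * q ≤ K * r := by
    rcases le_or_gt 0 R with h | h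
    · calc R * q ≤ R * r := mul_le_mul_of_nonneg_left (by linarith) h
        _ ≤ K * r := mul_le_mul_of_nonneg_right hlt.le hr0.le
    · have h13 : R * q ≤ 0 := by nlinarith
      have h14 : 0 ≤ K * r := by positivity
      linarith
  have h13 : n ≤ 2 * r * (K * r) := by
    have e1 : n = 2 * r * (n * (1 / (2 * r))) := by field_simp
    rw [e1]
    apply mul_le_mul_of_nonneg_left _ (by positivity)
    linarith
  have h14 : 8 * r ^ 2 * K ≤ 2 * r ^ 2 * K := by nlinarith
  have h15 : 0 ≤ r ^ 2 * K := by positivity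
  have h16 : r ^ 2 * K = 0 := by nlinarith
  have h17 : K = 0 := by
    rcases mul_eq_zero.1 h16 with h | h
    · exact absurd h (by positivity)
    · exact h
  rw [h17] at h13 hlt
  have h18 : n = 0 := by nlinarith
  rw [h18] at h11
  nlinarith

/-- A piece of `L` attached to few vertices makes `A(n; L)` unbounded. -/
theorem tendsto_piece {W : Type} [Fintype W] (L : SimpleGraph W) (r : ℕ)
    (hcol : L.Colorable (r + 1)) (hnc : ¬ L.Colorable r) (Z : Set W) (hZ : Z.Nonempty)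
    (B : Finset W) (b₀ : W) (hb₀ : b₀ ∉ Z)
    (hbd : ∀ z ∈ Z, ∀ b, b ∉ Z → L.Adj z b → b ∈ B ∨ b = b₀) (q : ℕ) (hq : 1 ≤ q)
    (hBq : #B + q + 1 ≤ r) (φ : W → Fin (q + 1))
    (hφ : ∀ a b, (a ∈ Z ∨ a = b₀) → (b ∈ Z ∨ b = b₀) → L.Adj a b → φ a ≠ φ b) :
    Tendsto (fun n => minCopies n L) atTop atTop := by
  classical
  have hr : 1 ≤ r := by omega
  have hrR : (1 : ℝ) ≤ r := by exact_mod_cast hr
  have hLne : L ≠ ⊥ := by
    rintro rfl
    apply hnc
    exact ⟨Coloring.mk (fun _ => ⟨0, by omega⟩) (fun {a b} h => by simp at h)⟩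
  apply tendsto_minCopies_of L hLne
  intro d
  set m := card W with hm
  set η : ℝ := 1 / (16 * (r : ℝ) ^ 3) with hη
  have hη0 : 0 < η := by positivity
  set t : ℕ := 4 * r * m + 1 with ht
  obtain ⟨N₀, hN₀⟩ := exists_tile_in q t hq
  set K : ℕ := m * 2 ^ (q * t) + 1 with hK
  filter_upwards [minDegree_of_core L r hr hcol hnc η hη0 d,
    eventually_ge_atTop (2 * r * N₀ + 1), eventually_ge_atTop (32 * r ^ 2 * (d + m)),
    eventually_ge_atTop (8 * r ^ 2 * K), eventually_ge_atTop 1] with n hdeg hn1 hn2 hn3 hn4 G _ hG D hD hcore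
  have hdeg' := hdeg G hG D hD hcore
  obtain ⟨f₀⟩ := copy_of_extremal hG
  have hn4R : (1 : ℝ) ≤ n := by exact_mod_cast hn4
  -- non-neighbours
  set x : ℝ := (1 / (r : ℝ) + 1 / (16 * (r : ℝ) ^ 3)) * n with hx
  have hmiss : ∀ (v : Fin n) (X : Finset (Fin n)), (#{y ∈ X | ¬ G.Adj v y} : ℝ) ≤ x := by
    intro v X
    have h1 := card_nonadj_le G v X
    rw [Fintype.card_fin] at h1
    have h2 : (#{y ∈ X | ¬ G.Adj v y} : ℝ) + G.degree v ≤ n := by exact_mod_cast h1
    have h3 := hdeg' v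
    have h4 : (1 - 1 / (r : ℝ) - η) * n = n - x := by rw [hx, hη]; ring
    linarith
  set F : Finset (Fin n) := D ∪ univ.image f₀ with hF
  have hFcard : #F ≤ d + m := by
    refine (card_union_le _ _).trans ?_
    have : #(univ.image f₀) ≤ m := by
      refine card_image_le.trans ?_
      rw [Finset.card_univ]
    omega
  set CB : Finset (Fin n) := {y | y ∉ F ∧ ∀ b ∈ B, G.Adj (f₀ b) y} with hCB
  have hCBcard : (n : ℝ) - (d + m) - #B * x ≤ #CB := by
    have h1 : (univ : Finset (Fin n)) ⊆ CB ∪ (F ∪ B.biUnion (fun b => {y ∈ univ | ¬ G.Adj (f₀ b) y})) := by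
      intro y _
      rw [mem_union, mem_union, mem_biUnion]
      by_cases hyF : y ∈ F
      · exact Or.inr (Or.inl hyF)
      · by_cases hyB : ∀ b ∈ B, G.Adj (f₀ b) y
        · left
          rw [hCB, mem_filter]
          exact ⟨mem_univ _, hyF, hyB⟩
        · push Not at hyB
          obtain ⟨b, hb, hb'⟩ := hyB
          exact Or.inr (Or.inr ⟨b, hb, by rw [mem_filter]; exact ⟨mem_univ _, hb'⟩⟩)
    have h2 := (card_le_card h1).trans ((card_union_le _ _).trans (Nat.add_le_add_left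
      ((card_union_le _ _).trans (Nat.add_le_add_left card_biUnion_le _)) _))
    rw [Finset.card_univ, Fintype.card_fin] at h2
    have h3 : ((∑ b ∈ B, #{y ∈ (univ : Finset (Fin n)) | ¬ G.Adj (f₀ b) y} : ℕ) : ℝ) ≤ #B * x := by
      push_cast
      rw [← nsmul_eq_mul]
      exact Finset.sum_le_card_nsmul _ _ _ (fun b _ => hmiss _ _)
    have h4 : (n : ℝ) ≤ #CB + (#F + ((∑ b ∈ B, #{y ∈ (univ : Finset (Fin n)) | ¬ G.Adj (f₀ b) y} : ℕ) : ℝ)) := by
      exact_mod_cast h2
    have h5 : (#F : ℝ) ≤ d + m := by exact_mod_cast hFcard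
    linarith
  have hCBn : (#CB : ℝ) ≤ n := by
    have : #CB ≤ n := by
      have := card_le_univ CB
      rwa [Fintype.card_fin] at this
    exact_mod_cast this
  set u : Fin n := f₀ b₀ with hu
  set C : Finset (Fin n) := {y ∈ CB | G.Adj u y} with hC
  have hCcard : (n : ℝ) - (d + m) - #B * x - x ≤ #C := by
    have h1 : #{y ∈ CB | G.Adj u y} + #{y ∈ CB | ¬ G.Adj u y} = #CB :=
      Finset.card_filter_add_card_filter_not _
    have h2 : (#C : ℝ) + #{y ∈ CB | ¬ G.Adj u y} = #CB := by exact_mod_cast h1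
    have h3 := hmiss u CB
    linarith
  have hBq' : ((#B : ℝ) + 1) ≤ r - q := by
    have : (#B : ℝ) + q + 1 ≤ r := by exact_mod_cast hBq
    linarith
  have hqR : (1 : ℝ) ≤ q := by exact_mod_cast hq
  have hqr : (q : ℝ) + 1 ≤ r := by
    have : q + 1 ≤ r := by omega
    exact_mod_cast this
  have hn2R : 32 * (r : ℝ) ^ 2 * ((d : ℝ) + m) ≤ n := by exact_mod_cast hn2
  have hsmall : x ≤ (1 / q + 1 / (2 * (q : ℝ) ^ 2)) * #C :=
    piece_real1 hrR hqR (by linarith) (by linarith) hBq' (Nat.cast_nonneg _) hx hn2R hCcard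
  -- a tile in C
  have hCN : N₀ ≤ #C := by
    by_contra hlt
    push Not at hlt
    have h1 : (#C : ℝ) ≤ N₀ := by exact_mod_cast hlt.le
    have h2 : (1 / q + 1 / (2 * (q : ℝ) ^ 2)) ≤ 2 := by
      have e1 : 1 / (q : ℝ) ≤ 1 := by rw [div_le_one (by linarith)]; exact hqR
      have e2 : 1 / (2 * (q : ℝ) ^ 2) ≤ 1 := by
        rw [div_le_one (by positivity)]
        nlinarith
      linarith
    have h3 : (1 / q + 1 / (2 * (q : ℝ) ^ 2)) * #C ≤ 2 * N₀ := by
      apply mul_le_mul h2 h1 (Nat.cast_nonneg _) (by norm_num)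
    have h4 : (n : ℝ) / r ≤ x := by
      rw [hx]
      have : 0 ≤ 1 / (16 * (r : ℝ) ^ 3) * n := by positivity
      have h5 : (n : ℝ) / r = 1 / r * n := by ring
      rw [h5]
      linarith
    have h5 : (n : ℝ) ≤ 2 * N₀ * r := by
      rw [← div_le_iff₀ (by linarith)]
      linarith
    have h6 : (2 * r * N₀ + 1 : ℝ) ≤ n := by exact_mod_cast hn1
    linarith
  obtain ⟨T, hT, hTC⟩ := hN₀ G C hCN (fun y _ => (hmiss y C).trans hsmall)
  -- rich vertices
  have hβ : ∀ y ∈ tileSet T, #{z ∈ CB | ¬ G.Adj y z} ≤ ⌊x⌋₊ := fun y _ =>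
    Nat.le_floor (hmiss y CB)
  have hrich := rich_of_degree G q t m hq T hT CB _ hβ
  have hx0 : 0 ≤ x := by positivity
  have hKR : K ≤ #{w ∈ CB | ∀ j, m ≤ #{v ∈ T j | G.Adj w v}} := by
    have h1 : (K : ℝ) ≤ #{w ∈ CB | ∀ j, m ≤ #{v ∈ T j | G.Adj w v}} := by
      apply piece_real2 (m := m) (t := t) (n := n) (r := r) (q := q) (a := (d : ℝ) + m) (b := #B)
        (c := #CB) (x := x) hrR hqR hqr (by linarith) hBq' (Nat.cast_nonneg _) hx (by positivity) hn2R
        hCBcard hCBn (Nat.cast_nonneg _) ?_ ?_ (Nat.cast_nonneg _) (by exact_mod_cast hn3)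
      · have h2 : ((q * t * #CB : ℕ) : ℝ) ≤ ((#{w ∈ CB | ∀ j, m ≤ #{v ∈ T j | G.Adj w v}} * (q * t) +
            #CB * ((q - 1) * t + m) + q * t * ⌊x⌋₊ : ℕ) : ℝ) := by exact_mod_cast hrich
        push_cast [Nat.cast_sub hq] at h2
        have h3 : (⌊x⌋₊ : ℝ) ≤ x := Nat.floor_le hx0
        have h4 : (q : ℝ) * t * (⌊x⌋₊ : ℝ) ≤ q * t * x :=
          mul_le_mul_of_nonneg_left h3 (by positivity)
        linarith
      · rw [ht]; push_cast; linarith
      · rw [ht]; push_cast; positivity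
    exact_mod_cast h1
  obtain ⟨Z₁, A₁, hZ₁CB, hZ₁m, hA₁T, hA₁m, hZA⟩ := extend_tile G q t m T hT CB (by omega)
  -- the classes
  set A : Fin (q + 1) → Finset (Fin n) := Fin.cons Z₁ A₁ with hA
  have hA0 : A 0 = Z₁ := rfl
  have hAs : ∀ i : Fin q, A i.succ = A₁ i := fun i => rfl
  have hACB : ∀ i, ∀ y ∈ A i, y ∈ CB := by
    intro i y hy
    refine Fin.cases (motive := fun i => y ∈ A i → y ∈ CB) ?_ ?_ i hy
    · intro h
      exact hZ₁CB h
    · intro j h
      have h1 := hTC ((mem_tileSet T y).2 ⟨j, hA₁T j h⟩)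
      rw [hC, mem_filter] at h1
      exact h1.1
  have hAu : ∀ i, i ≠ 0 → ∀ y ∈ A i, G.Adj u y := by
    intro i hi y hy
    obtain ⟨j, rfl⟩ := Fin.exists_succ_eq.2 hi
    have h1 := hTC ((mem_tileSet T y).2 ⟨j, hA₁T j hy⟩)
    rw [hC, mem_filter] at h1
    exact h1.2
  have hAA : ∀ i j, i ≠ j → ∀ a ∈ A i, ∀ b ∈ A j, G.Adj a b := by
    intro i j hij a ha b hb
    rcases Fin.eq_zero_or_eq_succ i with rfl | ⟨i', rfl⟩
    · rcases Fin.eq_zero_or_eq_succ j with rfl | ⟨j', rfl⟩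
      · exact absurd rfl hij
      · exact hZA a ha j' b hb
    · rcases Fin.eq_zero_or_eq_succ j with rfl | ⟨j', rfl⟩
      · exact (hZA b hb i' a ha).symm
      · exact hT.2 i' j' (fun h => hij (by rw [h])) a (hA₁T _ ha) b (hA₁T _ hb)
  -- permute the colours
  set c : W → Fin (q + 1) := fun w => Equiv.swap (φ b₀) 0 (φ w) with hc
  have hcb₀ : c b₀ = 0 := by simp [hc]
  have hcne : ∀ a b, (a ∈ Z ∨ a = b₀) → (b ∈ Z ∨ b = b₀) → L.Adj a b → c a ≠ c b := by
    intro a b ha hb hab h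
    exact hφ a b ha hb hab ((Equiv.swap (φ b₀) 0).injective h)
  obtain ⟨f, hf1, hf2⟩ := embed L G c Zᶜ f₀ A hAA (by
      intro i
      rcases Fin.eq_zero_or_eq_succ i with rfl | ⟨i', rfl⟩
      · exact hZ₁m
      · exact hA₁m i') (fun a b _ _ h => f₀.injective h) (by
      intro a _ i h
      have h1 := hACB i _ h
      rw [hCB, mem_filter] at h1
      exact h1.2.1 (mem_union_right _ (mem_image_of_mem _ (mem_univ a)))) (by
      intro a b _ _ hab
      exact f₀.toHom.map_rel' hab) (by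
      intro a b ha hb hab y hy
      rw [Set.notMem_compl_iff] at hb
      rcases hbd b hb a ha hab.symm with h | h
      · have h1 := hACB _ y hy
        rw [hCB, mem_filter] at h1
        exact h1.2.2 a h
      · subst h
        apply hAu (c b) ?_ y hy
        intro h0
        exact hcne b a (Or.inl hb) (Or.inr rfl) hab.symm (h0.trans hcb₀.symm)) (by
      intro a b ha hb hab
      rw [Set.notMem_compl_iff] at ha hb
      exact hcne a b (Or.inl ha) (Or.inl hb) hab)
  obtain ⟨z, hz⟩ := hZ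
  have h1 := hf2 z (by rw [Set.notMem_compl_iff]; exact hz)
  have h2 := hACB _ _ h1
  rw [hCB, mem_filter] at h2
  exact h2.2.1 (mem_union_left _ (hcore f z))

end Pool.Agent.Helper20.Tur
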