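import Pool.Agent.Helper20.Tur.Classes

/-!
# Structure of graphs of large minimum degree with few copies of `L`, `L - u₀` being `r`-colourable
-/

open Finset Fintype Filter

namespace Pool.Agent.Helper20.Tur

open SimpleGraph Pool.Agent.Helper49.Copies

/-- vertices which are good with respect to a tile and lie in the same class span no `K_{m,m}` -/
theorem no_bip {V W : Type} [Fintype W] [Nonempty W] [DecidableEq V] (G : SimpleGraph V)
    [DecidableRel G.Adj] (L : SimpleGraph W) (r t : ℕ) (hcol : L.Colorable (r + 1)) (D : Finset V)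
    (hcore : ∀ (f : Copy L G) (w : W), f w ∈ D) (T : Fin r → Finset V) (hT : IsTile G r t T)
    (hTD : ∀ v ∈ tileSet T, v ∉ D) (i : Fin r) (X : Finset V) (hXD : ∀ v ∈ X, v ∉ D)
    (m : ℕ) (hm : card W ≤ m)
    (hgood : ∀ x ∈ X, ∀ l, l ≠ i → 4 * m * #{v ∈ T l | ¬ G.Adj x v} ≤
      t + 4 * m * m) (ht : 4 * m * m + 2 * m ≤ t)
    (f : Copy (completeEquipartiteGraph 2 m) G) : ∃ w, f w ∉ X := by
  classical
  by_contra hcon
  push Not at hcon
  have hm1 : 0 < m := lt_of_lt_of_le Fintype.card_pos hm
  obtain ⟨C⟩ := hcol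
  set c : W → Option (Fin r) := fun w => finSuccEquiv r (C w) with hc
  set A : Option (Fin r) → Finset V := fun o => match o with
    | none => univ.image (fun x : Fin m => f (0, x))
    | some l => if l = i then univ.image (fun x : Fin m => f (1, x)) else
        {v ∈ T l | ∀ a, G.Adj (f a) v} with hA
  have hAn : A none = univ.image (fun x : Fin m => f (0, x)) := rfl
  have hAi : A (some i) = univ.image (fun x : Fin m => f (1, x)) := by simp [hA]
  have hAl : ∀ l, l ≠ i → A (some l) = {v ∈ T l | ∀ a, G.Adj (f a) v} := by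
    intro l hl; simp [hA, hl]
  have hne01 : ∀ x y : Fin m, G.Adj (f (0, x)) (f (1, y)) := by
    intro x y
    apply f.toHom.map_rel'
    simp
  have hAD : ∀ o, ∀ v ∈ A o, v ∉ D := by
    intro o v hv
    match o with
    | none =>
      rw [hAn, mem_image] at hv
      obtain ⟨x, -, rfl⟩ := hv
      exact hXD _ (hcon _)
    | some l =>
      by_cases hl : l = i
      · subst hl
        rw [hAi, mem_image] at hv
        obtain ⟨x, -, rfl⟩ := hv
        exact hXD _ (hcon _)
      · rw [hAl l hl, mem_filter] at hv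
        exact hTD v ((mem_tileSet T v).2 ⟨l, hv.1⟩)
  have hinj : ∀ b : Fin 2, Function.Injective (fun x : Fin m => f (b, x)) := by
    intro b x y hxy
    have := f.injective hxy
    simpa using this
  have hcardA : ∀ o, m ≤ #(A o) := by
    intro o
    match o with
    | none =>
      rw [hAn, card_image_of_injective _ (hinj 0), Finset.card_univ, Fintype.card_fin]
    | some l =>
      by_cases hl : l = i
      · subst hl
        rw [hAi, card_image_of_injective _ (hinj 1), Finset.card_univ, Fintype.card_fin]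
      · rw [hAl l hl]
        have h1 : T l ⊆ {v ∈ T l | ∀ a, G.Adj (f a) v} ∪
            univ.biUnion (fun a : Fin 2 × Fin m => {v ∈ T l | ¬ G.Adj (f a) v}) := by
          intro v hv
          rw [mem_union, mem_filter, mem_biUnion]
          by_cases h : ∀ a, G.Adj (f a) v
          · exact Or.inl ⟨hv, h⟩
          · push Not at h
            obtain ⟨a, ha⟩ := h
            exact Or.inr ⟨a, mem_univ _, by rw [mem_filter]; exact ⟨hv, ha⟩⟩
        have h2 := (card_le_card h1).trans ((card_union_le _ _).trans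
          (Nat.add_le_add_left card_biUnion_le _))
        rw [hT.1 l] at h2
        have h3 : ∑ a : Fin 2 × Fin m, 4 * m * #{v ∈ T l | ¬ G.Adj (f a) v} ≤
            (2 * m) * (t + 4 * m * m) := by
          have h4 : #(univ : Finset (Fin 2 × Fin m)) = 2 * m := by
            rw [Finset.card_univ, Fintype.card_prod, Fintype.card_fin, Fintype.card_fin]
          rw [← h4, ← smul_eq_mul]
          apply Finset.sum_le_card_nsmul
          intro a _
          exact hgood _ (hcon a) l hl
        rw [← Finset.mul_sum] at h3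
        have h5 : 2 * ∑ a : Fin 2 × Fin m, #{v ∈ T l | ¬ G.Adj (f a) v} ≤ t + 4 * m * m := by
          have h6 : (2 * m) * (2 * ∑ a : Fin 2 × Fin m, #{v ∈ T l | ¬ G.Adj (f a) v}) ≤
              (2 * m) * (t + 4 * m * m) := by
            calc (2 * m) * (2 * ∑ a : Fin 2 × Fin m, #{v ∈ T l | ¬ G.Adj (f a) v}) =
                4 * m * ∑ a : Fin 2 × Fin m, #{v ∈ T l | ¬ G.Adj (f a) v} := by ring
              _ ≤ _ := h3
          exact Nat.le_of_mul_le_mul_left h6 (by omega)
        omega
  obtain ⟨g, hg⟩ := multipartite_copy L G c (by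
      intro a b hab h
      exact C.valid hab ((finSuccEquiv r).injective h)) A (by
      intro o o' hoo a ha b hb
      match o, o' with
      | none, none => exact absurd rfl hoo
      | none, some l =>
        rw [hAn, mem_image] at ha
        obtain ⟨x, -, rfl⟩ := ha
        by_cases hl : l = i
        · subst hl
          rw [hAi, mem_image] at hb
          obtain ⟨y, -, rfl⟩ := hb
          exact hne01 x y
        · rw [hAl l hl, mem_filter] at hb
          exact hb.2 _
      | some l, none =>
        rw [hAn, mem_image] at hb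
        obtain ⟨x, -, rfl⟩ := hb
        by_cases hl : l = i
        · subst hl
          rw [hAi, mem_image] at ha
          obtain ⟨y, -, rfl⟩ := ha
          exact (hne01 x y).symm
        · rw [hAl l hl, mem_filter] at ha
          exact (ha.2 _).symm
      | some l, some l' =>
        have hll : l ≠ l' := fun h => hoo (by rw [h])
        by_cases hl : l = i
        · subst hl
          rw [hAi, mem_image] at ha
          obtain ⟨y, -, rfl⟩ := ha
          rw [hAl l' (Ne.symm hll), mem_filter] at hb
          exact hb.2 _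
        · rw [hAl l hl, mem_filter] at ha
          by_cases hl' : l' = i
          · subst hl'
            rw [hAi, mem_image] at hb
            obtain ⟨y, -, rfl⟩ := hb
            exact (ha.2 _).symm
          · rw [hAl l' hl', mem_filter] at hb
            exact hT.2 l l' hll a ha.1 b hb.1) (fun o => (card_le_univ _).trans (hm.trans (hcardA o)))
  obtain ⟨w⟩ := (inferInstance : Nonempty W)
  exact hAD _ _ (hg w) (hcore g w)

/-- no vertex is joined to a complete `r`-partite graph outside of `D` -/
theorem no_apex {V W : Type} [Fintype W] [DecidableEq V] (G : SimpleGraph V)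
    (L : SimpleGraph W) (r : ℕ) (u₀ : W) (c₀ : W → Fin r)
    (hc₀ : ∀ a b, L.Adj a b → a ≠ u₀ → b ≠ u₀ → c₀ a ≠ c₀ b) (hW : ∃ w, w ≠ u₀) (D : Finset V)
    (hcore : ∀ (f : Copy L G) (w : W), f w ∈ D) (x : V) (A : Fin r → Finset V)
    (hAD : ∀ i, ∀ a ∈ A i, a ∉ D) (hcard : ∀ i, card W ≤ #(A i))
    (hA : ∀ i l, i ≠ l → ∀ a ∈ A i, ∀ b ∈ A l, G.Adj a b) (hx : ∀ i, ∀ a ∈ A i, G.Adj x a) :
    False := by
  classical
  obtain ⟨f, -, hf⟩ := embed L G c₀ {u₀} (fun _ => x) A hA hcard (by
      intro a b ha hb _
      rw [Set.mem_singleton_iff] at ha hb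
      rw [ha, hb]) (by
      intro _ _ i h
      exact (hx i x h).ne rfl) (by
      intro a b ha hb hab
      rw [Set.mem_singleton_iff] at ha hb
      exact absurd (ha.trans hb.symm) hab.ne) (by
      intro a b _ _ _ y hy
      exact hx _ y hy) (by
      intro a b ha hb hab
      rw [Set.mem_singleton_iff] at ha hb
      exact hc₀ a b hab ha hb)
  obtain ⟨w, hw⟩ := hW
  exact hAD _ _ (hf w (by rwa [Set.mem_singleton_iff])) (hcore f w)

theorem extremalNumber_le_sq {W : Type} (J : SimpleGraph W) (k : ℕ) : extremalNumber k J ≤ k ^ 2 := by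
  classical
  conv_lhs => rw [← Fintype.card_fin k]
  rw [extremalNumber_le_iff]
  intro G _ _
  refine card_edgeFinset_le_card_choose_two.trans ?_
  rw [Fintype.card_fin, Nat.choose_two_right]
  refine (Nat.div_le_self _ _).trans ?_
  rw [pow_two]
  exact Nat.mul_le_mul_left _ (Nat.sub_le _ _)

/-- few edges inside a set without `K_{m,m}` -/
theorem sparse_of_no_bip (m : ℕ) (ε : ℝ) (hε : 0 < ε) : ∀ᶠ n : ℕ in atTop,
    ∀ (G : SimpleGraph (Fin n)) [DecidableRel G.Adj] (X : Finset (Fin n)),
    (∀ f : Copy (completeEquipartiteGraph 2 m) G, ∃ w, f w ∉ X) →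
    (dsum G X X : ℝ) ≤ ε * (n : ℝ) ^ 2 := by
  obtain ⟨N, hN⟩ := eventually_atTop.1 (es_edges 1 m le_rfl hε)
  filter_upwards [eventually_ge_atTop 1, eventually_ge_atTop ⌈2 * (N : ℝ) ^ 2 / ε⌉₊] with n hn1 hn G _ X hX
  have h1 := dsum_le_extremal G _ X hX
  have h1' : (dsum G X X : ℝ) ≤ 2 * extremalNumber (#X) (completeEquipartiteGraph 2 m) := by
    exact_mod_cast h1
  have hXn : #X ≤ n := by
    have := card_le_univ X
    rwa [Fintype.card_fin] at this
  have hn1R : (1 : ℝ) ≤ n := by exact_mod_cast hn1
  rcases Nat.lt_or_ge (#X) N with h | h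
  · have h2 := extremalNumber_le_sq (completeEquipartiteGraph 2 m) (#X)
    have h3 : (extremalNumber (#X) (completeEquipartiteGraph 2 m) : ℝ) ≤ (N : ℝ) ^ 2 := by
      have : extremalNumber (#X) (completeEquipartiteGraph 2 m) ≤ N ^ 2 :=
        h2.trans (Nat.pow_le_pow_left h.le 2)
      exact_mod_cast this
    have h4 : 2 * (N : ℝ) ^ 2 ≤ n * ε := by
      have : 2 * (N : ℝ) ^ 2 / ε ≤ n := (Nat.le_ceil _).trans (by exact_mod_cast hn)
      rwa [div_le_iff₀ hε] at this
    have h5 : n * ε ≤ ε * (n : ℝ) ^ 2 := by nlinarith [mul_pos hε (lt_of_lt_of_le one_pos hn1R)]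
    linarith
  · have h2 := hN (#X) h
    simp only [Nat.cast_one, div_one, sub_self, zero_add] at h2
    have h3 : (#X : ℝ) ^ 2 ≤ (n : ℝ) ^ 2 := by
      have : (#X : ℝ) ≤ n := by exact_mod_cast hXn
      exact pow_le_pow_left₀ (Nat.cast_nonneg _) this 2
    have h4 := mul_le_mul_of_nonneg_left h3 hε.le
    linarith

end Pool.Agent.Helper20.Tur
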