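import Pool.Agent.Helper20.Tur.Struct

/-!
# The structure lemma
-/

open Finset Fintype Filter

namespace Pool.Agent.Helper20.Tur

open SimpleGraph Pool.Agent.Helper49.Copies

/-- Counting: almost all vertices are good with respect to a tile. -/
theorem good_of_tile {V : Type} [Fintype V] [DecidableEq V] (G : SimpleGraph V)
    [DecidableRel G.Adj] (r t m : ℕ) (hr : 1 ≤ r) (T : Fin r → Finset V)
    (hT : IsTile G r t T) (j : V → Fin r) (hj : ∀ x, #{v ∈ T (j x) | G.Adj x v} < m) :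
    ∃ Bd : Finset V, #Bd * t + 4 * m * ∑ x ∈ tileSet T, G.degree x ≤
        4 * m * (card V * ((r - 1) * t + m)) ∧
      ∀ x, x ∉ Bd → ∀ l, l ≠ j x → 4 * m * #{v ∈ T l | ¬ G.Adj x v} ≤ t + 4 * m * m := by
  classical
  set X : V → ℕ := fun w => #{v ∈ tileSet T | G.Adj w v} with hX
  have hXsum : ∀ w, X w = ∑ i, #{v ∈ T i | G.Adj w v} := fun w => hT.card_filter _
  have hXle : ∀ w, X w ≤ (r - 1) * t + m := by
    intro w
    have h1 := hj w
    rw [hXsum, ← Finset.add_sum_erase _ _ (mem_univ (j w))]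
    have h4 : ∑ i ∈ univ.erase (j w), #{v ∈ T i | G.Adj w v} ≤ (r - 1) * t := by
      have h5 : #(univ.erase (j w)) = r - 1 := by
        rw [card_erase_of_mem (mem_univ _), Finset.card_univ, Fintype.card_fin]
      rw [← h5, ← smul_eq_mul]
      apply Finset.sum_le_card_nsmul
      intro i _
      refine (card_filter_le _ _).trans ?_
      rw [hT.1 i]
    omega
  set Bd : Finset V := {w | 4 * m * X w + t < 4 * m * ((r - 1) * t)} with hBd
  refine ⟨Bd, ?_, ?_⟩
  · have h2 : ∑ y ∈ tileSet T, G.degree y = ∑ w, X w := by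
      have h3 : ∑ y ∈ tileSet T, G.degree y = dsum G (tileSet T) univ := by
        unfold dsum
        apply Finset.sum_congr rfl
        intro y _
        rw [← card_neighborFinset_eq_degree]
        congr 1
        ext w
        rw [mem_neighborFinset, mem_filter]
        simp
      rw [h3, dsum_comm]
      rfl
    have h5 : ∑ w : V, (4 * m * X w + if w ∈ Bd then t else 0) ≤
        card V * (4 * m * ((r - 1) * t + m)) := by
      rw [← smul_eq_mul (card V), ← Finset.card_univ]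
      apply Finset.sum_le_card_nsmul
      intro w _
      split_ifs with h
      · rw [hBd, mem_filter] at h
        have : 4 * m * ((r - 1) * t) ≤ 4 * m * ((r - 1) * t + m) :=
          Nat.mul_le_mul_left _ (Nat.le_add_right _ _)
        omega
      · have := Nat.mul_le_mul_left (4 * m) (hXle w)
        omega
    rw [Finset.sum_add_distrib, ← Finset.mul_sum, ← Finset.sum_filter, Finset.sum_const,
      smul_eq_mul] at h5
    have h6 : ({w ∈ (univ : Finset V) | w ∈ Bd} : Finset V) = Bd := by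
      ext w
      simp
    rw [h6] at h5
    rw [h2]
    calc #Bd * t + 4 * m * ∑ w, X w = 4 * m * ∑ w, X w + #Bd * t := by ring
      _ ≤ card V * (4 * m * ((r - 1) * t + m)) := h5
      _ = _ := by ring
  · intro w hw l hl
    rw [hBd, mem_filter, not_and] at hw
    have hwx := hw (mem_univ _)
    push Not at hwx
    have h1 := hj w
    rw [hXsum, ← Finset.add_sum_erase _ _ (mem_univ (j w)), ← Finset.add_sum_erase _ _
      (mem_erase.mpr ⟨hl, mem_univ _⟩)] at hwx
    have h3 : #{v ∈ T l | G.Adj w v} + #{v ∈ T l | ¬ G.Adj w v} = t := by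
      rw [Finset.card_filter_add_card_filter_not, hT.1]
    have h5 : #((univ.erase (j w)).erase l) + 2 = r := by
      rw [card_erase_of_mem (mem_erase.mpr ⟨hl, mem_univ _⟩), card_erase_of_mem (mem_univ _),
        Finset.card_univ, Fintype.card_fin]
      have h6 : 2 ≤ r := by
        have h7 : #({l, j w} : Finset (Fin r)) = 2 := Finset.card_pair hl
        have h8 := card_le_univ ({l, j w} : Finset (Fin r))
        rw [Fintype.card_fin] at h8
        omega
      omega
    have h4 : ∑ i ∈ (univ.erase (j w)).erase l, #{v ∈ T i | G.Adj w v} ≤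
        #((univ.erase (j w)).erase l) * t := by
      rw [← smul_eq_mul]
      apply Finset.sum_le_card_nsmul
      intro i _
      refine (card_filter_le _ _).trans ?_
      rw [hT.1 i]
    have h6 : (r - 1) * t = #((univ.erase (j w)).erase l) * t + t := by
      have : r - 1 = #((univ.erase (j w)).erase l) + 1 := by omega
      rw [this]; ring
    rw [h6] at hwx
    set a := #{v ∈ T (j w) | G.Adj w v}
    set b := #{v ∈ T l | G.Adj w v}
    set e := #{v ∈ T l | ¬ G.Adj w v}
    set q := #((univ.erase (j w)).erase l) * t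
    set S := ∑ i ∈ (univ.erase (j w)).erase l, #{v ∈ T i | G.Adj w v}
    have h7 : 4 * m * (a + (b + S)) ≤ 4 * m * (m + (b + q)) := by
      apply Nat.mul_le_mul_left
      omega
    have h8 : 4 * m * (q + t) ≤ 4 * m * (m + (b + q)) + t := hwx.trans (Nat.add_le_add_right h7 t)
    have h9 : 4 * m * (q + t) = 4 * m * q + 4 * m * (b + e) := by rw [h3]; ring
    have h10 : 4 * m * (m + (b + q)) = 4 * m * m + 4 * m * b + 4 * m * q := by ring
    have h11 : 4 * m * (b + e) = 4 * m * b + 4 * m * e := by ring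
    omega

theorem bad_real {B t S n m r τ η : ℝ} (ht : 1 ≤ t) (hn : 0 ≤ n) (hm : 0 < m) (hr : 1 ≤ r)
    (h1 : n * ((r - 1) * t) - r * η * n * t ≤ S)
    (h3 : B * t + 4 * m * S ≤ 4 * m * (n * ((r - 1) * t + m)))
    (h4 : 64 * m ^ 2 ≤ t * τ) (h5 : 64 * m * r * η ≤ τ) : B ≤ τ / 8 * n := by
  have ht0 : 0 < t := by linarith
  have e1 : 4 * m * (n * ((r - 1) * t) - r * η * n * t) ≤ 4 * m * S :=
    mul_le_mul_of_nonneg_left h1 (by positivity)
  have e2 : B * t ≤ 4 * m ^ 2 * n + 4 * m * r * η * n * t := by nlinarith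
  have e3 : 4 * m ^ 2 * n ≤ τ / 16 * n * t := by
    have := mul_le_mul_of_nonneg_right h4 hn
    nlinarith
  have e4 : 4 * m * r * η * n * t ≤ τ / 16 * n * t := by
    have := mul_le_mul_of_nonneg_right h5 (mul_nonneg hn ht0.le)
    nlinarith
  have e5 : B * t ≤ (τ / 8 * n) * t := by
    have : τ / 16 * n * t + τ / 16 * n * t = (τ / 8 * n) * t := by ring
    linarith
  exact le_of_mul_le_mul_right e5 ht0

/-- The structure lemma. -/
theorem structure_lemma {W : Type} [Fintype W] (L : SimpleGraph W) (r : ℕ) (hr : 2 ≤ r) (u₀ : W)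
    (c₀ : W → Fin r) (hc₀ : ∀ a b, L.Adj a b → a ≠ u₀ → b ≠ u₀ → c₀ a ≠ c₀ b)
    (hW : ∃ w, w ≠ u₀) (lam : ℝ) (hlam : 0 < lam) : ∃ η : ℝ, 0 < η ∧ ∀ d : ℕ, ∀ᶠ n : ℕ in atTop,
    ∀ (G : SimpleGraph (Fin n)) [DecidableRel G.Adj],
    (∀ x, (1 - 1 / (r : ℝ) - η) * n ≤ G.degree x) → ∀ D : Finset (Fin n), #D ≤ d →
    (∀ (f : Copy L G) (w : W), f w ∈ D) →
    ∃ j : Fin n → Fin r, (∀ x l, l ≠ j x → (#{y | j y = l ∧ ¬ G.Adj x y} : ℝ) ≤ lam * n) ∧
      (∀ x, (#{y | j y = j x ∧ G.Adj x y} : ℝ) ≤ lam * n) ∧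
      ∀ l, (1 / (r : ℝ) - lam) * n ≤ #{y | j y = l} := by
  classical
  have hne : Nonempty W := ⟨u₀⟩
  have hr1 : 1 ≤ r := by omega
  have hcol : L.Colorable (r + 1) := by
    refine ⟨Coloring.mk (fun x => if x = u₀ then Fin.last r else (c₀ x).castSucc) ?_⟩
    intro a b hab h
    by_cases ha : a = u₀
    · have hb : b ≠ u₀ := fun hb => hab.ne (ha.trans hb.symm)
      rw [if_pos ha, if_neg hb] at h
      exact absurd h.symm (Fin.castSucc_lt_last _).ne
    · by_cases hb : b = u₀
      · rw [if_neg ha, if_pos hb] at h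
        exact absurd h (Fin.castSucc_lt_last _).ne
      · rw [if_neg ha, if_neg hb] at h
        exact hc₀ a b hab ha hb (Fin.castSucc_injective _ h)
  set m := card W with hm
  have hm1 : 0 < m := Fintype.card_pos
  have hmR : (1 : ℝ) ≤ m := by exact_mod_cast hm1
  have hrR : (1 : ℝ) ≤ r := by exact_mod_cast hr1
  have hK := KK_nonneg r m
  set Q : ℝ := 2 * KK r m + 4 * r + 4 with hQ
  have hQ0 : 0 < Q := by positivity
  set τ : ℝ := min lam 1 / (r * Q) with hτ
  have hmin : 0 < min lam 1 := lt_min hlam one_pos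
  have hτ0 : 0 < τ := by positivity
  have hτQ : r * Q * τ = min lam 1 := by
    rw [hτ]; field_simp
  have hτ1 : τ ≤ 1 := by
    have h1 : 1 ≤ r * Q := by nlinarith
    have h2 : τ ≤ r * Q * τ := le_mul_of_one_le_left hτ0.le h1
    have h3 : min lam 1 ≤ 1 := min_le_right _ _
    linarith
  have hQτ : Q * τ ≤ 1 / r := by
    rw [le_div_iff₀ (by linarith)]
    have h3 : min lam 1 ≤ 1 := min_le_right _ _
    nlinarith
  have hQlam : Q * τ ≤ lam := by
    have h3 : min lam 1 ≤ lam := min_le_left _ _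
    have h4 : Q * τ ≤ r * (Q * τ) := le_mul_of_one_le_left (by positivity) hrR
    nlinarith
  -- the parameter t
  obtain ⟨t, ht1, ht2, ht3⟩ : ∃ t : ℕ, 4 * m * m + 2 * m ≤ t ∧ (64 * m ^ 2 / τ : ℝ) ≤ t ∧ 1 ≤ t := by
    refine ⟨max (4 * m * m + 2 * m) (max 1 ⌈(64 * m ^ 2 / τ : ℝ)⌉₊), le_max_left _ _, ?_, ?_⟩
    · refine (Nat.le_ceil _).trans ?_
      exact_mod_cast (le_max_right _ _).trans (le_max_right _ _)
    · exact (le_max_left _ _).trans (le_max_right _ _)
  have ht2' : 64 * (m : ℝ) ^ 2 ≤ t * τ := by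
    rwa [div_le_iff₀ hτ0] at ht2
  have htR : (1 : ℝ) ≤ t := by exact_mod_cast ht3
  obtain ⟨N₀, hN₀⟩ := exists_tile_in r t hr1
  set ε : ℝ := τ ^ 2 / (4 * r) with hε
  have hε0 : 0 < ε := by positivity
  set η : ℝ := min (τ / (64 * m * r)) (1 / (8 * (r : ℝ) ^ 2)) with hη
  have hη0 : 0 < η := lt_min (by positivity) (by positivity)
  have hη1 : 64 * m * r * η ≤ τ := by
    have h1 : η ≤ τ / (64 * m * r) := min_le_left _ _
    rw [le_div_iff₀ (by positivity)] at h1
    linarith
  have hη2 : η ≤ 1 / (8 * (r : ℝ) ^ 2) := min_le_right _ _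
  have hητ : η ≤ τ := by
    have h1 : (1 : ℝ) ≤ 64 * m * r := by nlinarith
    have h2 : η ≤ 64 * m * r * η := le_mul_of_one_le_left hη0.le h1
    linarith
  refine ⟨η, hη0, ?_⟩
  intro d
  filter_upwards [sparse_of_no_bip m ε hε0, eventually_ge_atTop (N₀ + d),
    eventually_ge_atTop ⌈(8 * (d : ℝ) + 8) / τ⌉₊, eventually_ge_atTop (16 * r ^ 2 * (d + 1))]
    with n hsparse hn1 hn2 hn3 G _ hdeg D hD hcore
  have hn0 : (0 : ℝ) ≤ n := Nat.cast_nonneg _
  have hnd : 8 * (d : ℝ) + 8 ≤ n * τ := by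
    have : (8 * (d : ℝ) + 8) / τ ≤ n := (Nat.le_ceil _).trans (by exact_mod_cast hn2)
    rwa [div_le_iff₀ hτ0] at this
  have hd0 : (0 : ℝ) ≤ d := Nat.cast_nonneg _
  have hDR : (#D : ℝ) ≤ d := by exact_mod_cast hD
  -- a tile outside of D
  set U : Finset (Fin n) := univ \ D with hU
  have hUcard : n ≤ #U + d := by
    have h1 : #U + #D = n := by
      rw [hU, Finset.card_sdiff_add_card_eq_card (subset_univ _), Finset.card_univ, Fintype.card_fin]
    omega
  obtain ⟨T, hT, hTU⟩ := hN₀ G U (by omega) (by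
    intro x _
    have h1 := Finset.card_filter_add_card_filter_not (s := (univ : Finset (Fin n))) (fun y => G.Adj x y)
    rw [Finset.card_univ, Fintype.card_fin] at h1
    have h2 : #{y : Fin n | G.Adj x y} = G.degree x := by
      rw [← card_neighborFinset_eq_degree]
      congr 1
      ext y
      rw [mem_neighborFinset, mem_filter]
      simp
    rw [h2] at h1
    have h3 : #{y ∈ U | ¬ G.Adj x y} ≤ #{y : Fin n | ¬ G.Adj x y} := by
      apply card_le_card
      intro y hy
      rw [mem_filter] at hy ⊢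
      exact ⟨mem_univ _, hy.2⟩
    have h4 : (G.degree x : ℝ) + #{y : Fin n | ¬ G.Adj x y} = n := by exact_mod_cast h1
    have h5 : (#{y ∈ U | ¬ G.Adj x y} : ℝ) ≤ #{y : Fin n | ¬ G.Adj x y} := by exact_mod_cast h3
    have h6 := hdeg x
    have h7 : (n : ℝ) ≤ #U + d := by exact_mod_cast hUcard
    have h8 : (#{y ∈ U | ¬ G.Adj x y} : ℝ) ≤ (1 / r + η) * n := by
      have : (1 - 1 / (r : ℝ) - η) * n = n - (1 / r + η) * n := by ring
      linarith
    have h9 : (1 / (r : ℝ) + 1 / (2 * (r : ℝ) ^ 2)) * (n - d) ≤ (1 / r + 1 / (2 * (r : ℝ) ^ 2)) * #U :=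
      mul_le_mul_of_nonneg_left (by linarith) (by positivity)
    have h10 : (1 / (r : ℝ) + η) * n ≤ (1 / r + 1 / (8 * (r : ℝ) ^ 2)) * n :=
      mul_le_mul_of_nonneg_right (by linarith) hn0
    have h11 : (1 / (r : ℝ) + 1 / (2 * (r : ℝ) ^ 2)) * d ≤ 2 * d := by
      apply mul_le_mul_of_nonneg_right _ hd0
      have e1 : 1 / (r : ℝ) ≤ 1 := by rw [div_le_one (by linarith)]; exact hrR
      have e2 : 1 / (2 * (r : ℝ) ^ 2) ≤ 1 := by
        rw [div_le_one (by positivity)]
        nlinarith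
      linarith
    have h12 : 2 * (d : ℝ) ≤ 1 / (8 * (r : ℝ) ^ 2) * n := by
      rw [div_mul_eq_mul_div, one_mul, le_div_iff₀ (by positivity)]
      have : (16 * (r : ℝ) ^ 2 * (d + 1)) ≤ n := by exact_mod_cast hn3
      have h' : 0 ≤ (r : ℝ) ^ 2 := by positivity
      nlinarith
    have h13 : 1 / (2 * (r : ℝ) ^ 2) = 4 * (1 / (8 * (r : ℝ) ^ 2)) := by field_simp; norm_num
    have h14 : 0 ≤ 1 / (8 * (r : ℝ) ^ 2) * n := by positivity
    rw [h13] at h9 h11 ⊢
    nlinarith)
  have hTD : ∀ v ∈ tileSet T, v ∉ D := by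
    intro v hv
    have := hTU hv
    rw [hU, Finset.mem_sdiff] at this
    exact this.2
  -- classes with respect to the tile
  have hclass : ∀ x, ∃ i, #{v ∈ T i | G.Adj x v} < m := by
    intro x
    by_contra hcon
    push Not at hcon
    exact no_apex G L r u₀ c₀ hc₀ hW D hcore x (fun i => {v ∈ T i | G.Adj x v}) (by
      intro i a ha
      rw [mem_filter] at ha
      exact hTD a ((mem_tileSet T a).2 ⟨i, ha.1⟩)) (fun i => by rw [← hm]; exact hcon i) (by
      intro i l hil a ha b hb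
      rw [mem_filter] at ha hb
      exact hT.2 i l hil a ha.1 b hb.1) (by
      intro i a ha
      rw [mem_filter] at ha
      exact ha.2)
  choose j₁ hj₁ using hclass
  obtain ⟨Bd, hBd, hgood⟩ := good_of_tile G r t m hr1 T hT j₁ hj₁
  rw [Fintype.card_fin] at hBd
  have hBdn : (#Bd : ℝ) ≤ τ / 8 * n := by
    apply bad_real (S := ((∑ x ∈ tileSet T, G.degree x : ℕ) : ℝ)) (t := t) (m := m) (r := r)
      (η := η) htR hn0 (by linarith) hrR _ _ ht2' hη1
    · have h2 : #(tileSet T) • ((1 - 1 / (r : ℝ) - η) * n) ≤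
          ∑ x ∈ tileSet T, (G.degree x : ℝ) := Finset.card_nsmul_le_sum _ _ _ (fun x _ => hdeg x)
      rw [hT.card, nsmul_eq_mul] at h2
      push_cast at h2 ⊢
      have h3 : (r : ℝ) * t * ((1 - 1 / (r : ℝ) - η) * n) = n * ((r - 1) * t) - r * η * n * t := by
        field_simp
      linarith
    · have h2 : (((#Bd * t + 4 * m * ∑ x ∈ tileSet T, G.degree x : ℕ)) : ℝ) ≤
          ((4 * m * (n * ((r - 1) * t + m)) : ℕ) : ℝ) := by exact_mod_cast hBd
      push_cast [Nat.cast_sub hr1] at h2 ⊢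
      linarith
  -- the classes
  set V₁ : Fin r → Finset (Fin n) := fun i => {x | x ∉ Bd ∧ x ∉ D ∧ j₁ x = i} with hV₁
  have hV₁sparse : ∀ i, (dsum G (V₁ i) (V₁ i) : ℝ) ≤ ε * (n : ℝ) ^ 2 := by
    intro i
    apply hsparse
    intro f
    refine no_bip G L r t hcol D hcore T hT hTD i (V₁ i) ?_ m le_rfl ?_ ht1 f
    · intro v hv
      rw [hV₁, mem_filter] at hv
      exact hv.2.2.1
    · intro x hx l hl
      rw [hV₁, mem_filter] at hx
      exact hgood x hx.2.1 l (by rw [hx.2.2.2]; exact hl)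
  set s : ℝ := τ * n with hs
  have hs1 : 1 ≤ s := by
    rw [hs]
    nlinarith
  have hs0 : 0 ≤ s := by linarith
  set Vc : Fin r → Finset (Fin n) := fun i => {x ∈ V₁ i | (#{y ∈ V₁ i | G.Adj x y} : ℝ) ≤ s} with hVc
  have hVcD : ∀ i, ∀ v ∈ Vc i, v ∉ D := by
    intro i v hv
    rw [hVc, mem_filter, hV₁, mem_filter] at hv
    exact hv.1.2.2.1
  -- few vertices of large inner degree
  have hrem : ∀ i, (#(V₁ i \ Vc i) : ℝ) ≤ τ * n / (4 * r) := by
    intro i
    have h1 : (#(V₁ i \ Vc i) : ℝ) * s ≤ dsum G (V₁ i) (V₁ i) := by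
      unfold dsum
      push_cast
      rw [← nsmul_eq_mul]
      refine (Finset.card_nsmul_le_sum _ (fun x => (#{y ∈ V₁ i | G.Adj x y} : ℝ)) _ ?_).trans
        (Finset.sum_le_sum_of_subset_of_nonneg sdiff_subset (fun _ _ _ => Nat.cast_nonneg _))
      intro x hx
      rw [Finset.mem_sdiff] at hx
      have hx2 : ¬ ((#{y ∈ V₁ i | G.Adj x y} : ℝ) ≤ s) := fun h => hx.2 (by
        rw [hVc, mem_filter]
        exact ⟨hx.1, h⟩)
      exact (not_le.1 hx2).le
    have h2 := h1.trans (hV₁sparse i)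
    have hspos : 0 < s := by linarith
    have h3 : ε * (n : ℝ) ^ 2 = (τ * n / (4 * r)) * s := by
      rw [hε, hs]
      field_simp
    rw [h3] at h2
    exact le_of_mul_le_mul_right h2 hspos
  have hdisj : ∀ i l, i ≠ l → Disjoint (Vc i) (Vc l) := by
    intro i l hil
    rw [Finset.disjoint_left]
    intro x hx hx'
    rw [hVc, mem_filter, hV₁, mem_filter] at hx
    rw [hVc, mem_filter, hV₁, mem_filter] at hx'
    exact hil (hx.1.2.2.2.symm.trans hx'.1.2.2.2)
  have hbad : (#(univ \ univ.biUnion Vc) : ℝ) ≤ s := by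
    have h1 : (univ \ univ.biUnion Vc : Finset (Fin n)) ⊆ Bd ∪ (D ∪ univ.biUnion (fun i => V₁ i \ Vc i)) := by
      intro x hx
      rw [Finset.mem_sdiff, mem_biUnion] at hx
      rw [mem_union, mem_union, mem_biUnion]
      by_cases h : x ∈ Bd
      · exact Or.inl h
      by_cases h' : x ∈ D
      · exact Or.inr (Or.inl h')
      right; right
      have hxV : x ∈ V₁ (j₁ x) := by
        rw [hV₁, mem_filter]
        exact ⟨mem_univ _, h, h', rfl⟩
      refine ⟨j₁ x, mem_univ _, ?_⟩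
      rw [Finset.mem_sdiff]
      refine ⟨hxV, ?_⟩
      intro h''
      exact hx.2 ⟨j₁ x, mem_univ _, h''⟩
    have h2 := (card_le_card h1).trans ((card_union_le _ _).trans (Nat.add_le_add_left
      ((card_union_le _ _).trans (Nat.add_le_add_left card_biUnion_le _)) _))
    have h3 : ((∑ i : Fin r, #(V₁ i \ Vc i) : ℕ) : ℝ) ≤ τ * n / 4 := by
      push_cast
      have h4 : ∑ i : Fin r, (#(V₁ i \ Vc i) : ℝ) ≤ #(univ : Finset (Fin r)) • (τ * n / (4 * r)) :=
        Finset.sum_le_card_nsmul _ _ _ (fun i _ => hrem i)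
      rw [Finset.card_univ, Fintype.card_fin, nsmul_eq_mul] at h4
      have h5 : (r : ℝ) * (τ * n / (4 * r)) = τ * n / 4 := by field_simp
      linarith
    have h4 : (#(univ \ univ.biUnion Vc) : ℝ) ≤ #Bd + (#D + ((∑ i : Fin r, #(V₁ i \ Vc i) : ℕ) : ℝ)) := by
      exact_mod_cast h2
    rw [hs]
    nlinarith
  obtain ⟨j, hj1, hj2, hj3, hj4, -⟩ := extend_classes G r m hr1 Vc hdisj s hs1 hbad (by
      intro i w hw
      have h1 := hw
      rw [hVc, mem_filter] at h1
      refine le_trans ?_ h1.2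
      have : #{y ∈ Vc i | G.Adj w y} ≤ #{y ∈ V₁ i | G.Adj w y} := by
        apply card_le_card
        intro y hy
        rw [mem_filter, hVc, mem_filter] at hy
        rw [mem_filter]
        exact ⟨hy.1.1, hy.2⟩
      exact_mod_cast this) (by
      intro x
      rw [Fintype.card_fin]
      have h1 := hdeg x
      have h2 : η * n ≤ s := mul_le_mul_of_nonneg_right hητ hn0
      linarith) (by
      intro x A hA1 hA2 hA3 hA4
      exact no_apex G L r u₀ c₀ hc₀ hW D hcore x A (fun i a ha => hVcD i a (hA1 i ha))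
        (fun i => by rw [← hm, hA2 i]) hA3 hA4) (by
      rw [Fintype.card_fin, hs]
      have h1 : (2 * KK r m + 4 * r + 2) * (τ * n) ≤ Q * τ * n := by
        rw [hQ]
        have : 0 ≤ τ * n := hs0
        nlinarith
      have h2 : Q * τ * n ≤ 1 / r * n := mul_le_mul_of_nonneg_right hQτ hn0
      have h3 : 1 / (r : ℝ) * n = n / r := by ring
      linarith)
  rw [Fintype.card_fin] at hj4
  have hKs : (KK r m + 1) * s ≤ lam * n := by
    have h1 : (KK r m + 1) * s ≤ Q * τ * n := by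
      rw [hQ, hs]
      have : 0 ≤ τ * n := hs0
      nlinarith
    have h2 : Q * τ * n ≤ lam * n := mul_le_mul_of_nonneg_right hQlam hn0
    linarith
  have hsub : ∀ l, ∀ y, j y = l → y ∈ Vc l ∨ y ∈ univ \ univ.biUnion Vc := by
    intro l y hy
    by_cases h : y ∈ univ.biUnion Vc
    · left
      rw [mem_biUnion] at h
      obtain ⟨i, -, hi⟩ := h
      have := hj1 i y hi
      rw [← hy, this]
      exact hi
    · right
      rw [Finset.mem_sdiff]
      exact ⟨mem_univ _, h⟩
  refine ⟨j, ?_, ?_, ?_⟩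
  · intro x l hl
    have h1 : #{y | j y = l ∧ ¬ G.Adj x y} ≤ #{y ∈ Vc l | ¬ G.Adj x y} + #(univ \ univ.biUnion Vc) := by
      refine (card_le_card ?_).trans (card_union_le _ _)
      intro y hy
      rw [mem_filter] at hy
      rw [mem_union, mem_filter]
      rcases hsub l y hy.2.1 with h | h
      · exact Or.inl ⟨h, hy.2.2⟩
      · exact Or.inr h
    have h2 : (#{y | j y = l ∧ ¬ G.Adj x y} : ℝ) ≤ #{y ∈ Vc l | ¬ G.Adj x y} +
        #(univ \ univ.biUnion Vc) := by exact_mod_cast h1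
    have h3 := hj2 x l hl
    linarith
  · intro x
    have h1 : #{y | j y = j x ∧ G.Adj x y} ≤ #{y ∈ Vc (j x) | G.Adj x y} + #(univ \ univ.biUnion Vc) := by
      refine (card_le_card ?_).trans (card_union_le _ _)
      intro y hy
      rw [mem_filter] at hy
      rw [mem_union, mem_filter]
      rcases hsub (j x) y hy.2.1 with h | h
      · exact Or.inl ⟨h, hy.2.2⟩
      · exact Or.inr h
    have h2 : (#{y | j y = j x ∧ G.Adj x y} : ℝ) ≤ #{y ∈ Vc (j x) | G.Adj x y} +
        #(univ \ univ.biUnion Vc) := by exact_mod_cast h1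
    have h3 := hj3 x
    linarith
  · intro l
    have h1 : #(Vc l) ≤ #{y | j y = l} := by
      apply card_le_card
      intro y hy
      rw [mem_filter]
      exact ⟨mem_univ _, hj1 l y hy⟩
    have h2 : (#(Vc l) : ℝ) ≤ #{y | j y = l} := by exact_mod_cast h1
    have h3 := hj4 l
    have h4 : 2 * r * s ≤ lam * n := by
      have h5 : 2 * r * s ≤ Q * τ * n := by
        rw [hQ, hs]
        have : 0 ≤ τ * n := hs0
        nlinarith
      have h6 : Q * τ * n ≤ lam * n := mul_le_mul_of_nonneg_right hQlam hn0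
      linarith
    have h5 : (1 / (r : ℝ) - lam) * n = n / r - lam * n := by ring
    linarith

end Pool.Agent.Helper20.Tur
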